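import Pool.Agent.Lib.SmL.L.Cmp2

/-!
# SMITH-L (odd prime `l`), finite level part: finiteness of the Selmer groups over `K`

`finK`: if there are only finitely many cocycles with values in `V1` which are unramified at the good
places, then there are only finitely many Selmer cocycles with values in `M[l ^ i]`.
-/

set_option autoImplicit false

open Finset

namespace Pool.Agent.SmL.L

open Pool.Agent.SmL.V

variable {l : ℕ} {G M V1 Pl : Type*} [Group G] [AddCommGroup M] [DistribMulAction G M]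
  [AddCommGroup V1] [Module (ZMod l) V1] {S : Sys l (AA l) G (VM l M) V1 Pl} {i1 : V1 →+ M}

/-- Cocycles with values in `M[l ^ i]`, unramified at the good places. -/
structure IsU (S : Sys l (AA l) G (VM l M) V1 Pl) (i : ℕ) (b : G → M) : Prop where
  tf : S.TF b
  coc : ∀ s t, b (s * t) = b s + s • b t
  lev : ∀ s, l ^ i • b s = 0
  unr : ∀ v ∈ S.good, b (S.sg v) = 0

theorem IsU.sub (hS : S.Ok) {i : ℕ} {b b' : G → M} (h : IsU S i b) (h' : IsU S i b') :
    IsU S i (b - b') := by
  refine ⟨TF.comp2 hS h.tf h'.tf (fun x y => x - y), fun s t => ?_, fun s => ?_, fun v hv => ?_⟩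
  · simp only [Pi.sub_apply, h.coc, h'.coc, smul_sub]
    abel
  · rw [Pi.sub_apply, smul_sub, h.lev, h'.lev, sub_zero]
  · rw [Pi.sub_apply, h.unr v hv, h'.unr v hv, sub_zero]

theorem finU (hS : S.Ok) (h : MOk S i1)
    (hZ : {c : G → V1 | S.CocG c ∧ ∀ v ∈ S.good, c (S.sg v) = 0}.Finite) (i : ℕ) :
    Finite {b // IsU S i b} := by
  induction i with
  | zero =>
    refine Finite.of_injective (fun _ => ()) (fun b b' _ => Subtype.ext (funext fun s => ?_))
    have h1 := b.2.lev s
    have h2 := b'.2.lev s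
    rw [pow_zero, one_smul] at h1 h2
    rw [h1, h2]
  | succ i ih =>
    have hX := hZ.to_subtype
    have hc : ∀ b : {b // IsU S (i + 1) b}, ∃ c : G → V1, (S.CocG c ∧ ∀ v ∈ S.good,
        c (S.sg v) = 0) ∧ ∀ s, i1 (c s) = l ^ i • b.1 s := by
      intro b
      have h1 : ∀ s, ∃ w, i1 w = l ^ i • b.1 s := fun s => h.range _ (by
        rw [← mul_smul, ← pow_succ', b.2.lev])
      choose c hc using h1
      refine ⟨c, ⟨⟨?_, fun s t => ?_⟩, fun v hv => ?_⟩, hc⟩
      · obtain ⟨N, hN, h2⟩ := b.2.tf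
        exact ⟨N, hN, fun s n hn => h.inj (by rw [hc, hc, h2 s n hn])⟩
      · apply h.inj
        rw [map_add, hc, hc, b.2.coc, smul_add, ← h.ac, hc, smul_comm s (l ^ i)]
      · apply h.inj
        rw [hc, b.2.unr v hv, smul_zero, map_zero]
    choose c hc1 hc2 using hc
    refine (fiber_card (P := IsU S (i + 1)) (Q := IsU S i)
      (X := {c : G → V1 | S.CocG c ∧ ∀ v ∈ S.good, c (S.sg v) = 0})
      (fun b => ⟨c b, hc1 b⟩) ?_).1
    intro b b' hbb
    have h1 : c b = c b' := congrArg Subtype.val hbb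
    have h2 := b.2.sub hS b'.2
    refine ⟨h2.tf, h2.coc, fun s => ?_, h2.unr⟩
    rw [Pi.sub_apply, smul_sub, ← hc2, ← hc2, h1, sub_self]

/-- **Finiteness of the Selmer groups.** -/
theorem finK (hS : S.Ok) (h : MOk S i1)
    (hZ : {c : G → V1 | S.CocG c ∧ ∀ v ∈ S.good, c (S.sg v) = 0}.Finite) (i : ℕ) :
    Finite {b // IsK S i b} := by
  have := finU hS h hZ i
  refine Finite.of_injective (fun b : {b // IsK S i b} =>
    (⟨b.1, b.2.tf, b.2.coc, b.2.lev, fun v hv => ?_⟩ : {b // IsU S i b}))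
    fun b b' hbb => Subtype.ext (congrArg (fun z : {b // IsU S i b} => z.1) hbb)
  obtain ⟨Q, hQ⟩ := b.2.loc v
  rw [hQ _ (hS.sg_mem v), h.good_triv v hv, sub_self]

end Pool.Agent.SmL.L
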