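import Pool.Agent.Lib.SmL.L.Kumm
import Pool.Agent.Lib.MP_48b749_nt.MW.Grp

/-!
# SMITH-L (odd prime `l`), finite level part: the ranks over `K` and over the extension cut out by
`chi` are equal
-/

set_option autoImplicit false

open Finset DirectSum

namespace Pool.Agent.SmL.L

open Pool.Agent.SmL.V Pool.Agent.BSDFF

section algebra

/-- In a finitely generated group an element divisible by all powers of `l` has finite order. -/
theorem tors_of_div {B : Type*} [AddCommGroup B] (hB : AddGroup.FG B) {l : ℕ} (hl : 2 ≤ l) {x : B}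
    (h : ∀ i : ℕ, ∃ T : B, l ^ i • T = x) : ∃ n : ℕ, 0 < n ∧ n • x = 0 := by
  obtain ⟨r, ι, _, p, hp, e, ⟨f⟩⟩ := AddCommGroup.equiv_free_prod_directSum_zmod B
  have : ∀ i, NeZero (p i ^ e i) := fun i => ⟨pow_ne_zero _ (hp i).ne_zero⟩
  have hfin : Finite (⨁ i : ι, ZMod (p i ^ e i)) :=
    Finite.of_equiv _ (DirectSum.addEquivProd (fun i => ZMod (p i ^ e i))).symm.toEquiv
  have h1 : (f x).1 = 0 := by
    ext j
    rw [Finsupp.zero_apply]
    obtain ⟨T, hT⟩ := h ((f x).1 j).natAbs
    have h2 : (f x).1 j = (l : ℤ) ^ ((f x).1 j).natAbs * (f T).1 j := by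
      conv_lhs => rw [← hT, map_nsmul]
      rw [Prod.smul_fst, Finsupp.smul_apply, nsmul_eq_mul]
      push_cast
      rfl
    by_contra hne
    have h3 : (l : ℤ) ^ ((f x).1 j).natAbs ∣ (f x).1 j := ⟨_, h2⟩
    have h4 := Int.natAbs_dvd_natAbs.2 h3
    rw [Int.natAbs_pow, Int.natAbs_natCast] at h4
    have h5 := Nat.le_of_dvd (Int.natAbs_pos.2 hne) h4
    have h6 : ((f x).1 j).natAbs < l ^ ((f x).1 j).natAbs :=
      Nat.lt_pow_self (by omega)
    omega
  refine ⟨Nat.card (⨁ i : ι, ZMod (p i ^ e i)), Nat.card_pos, ?_⟩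
  apply f.injective
  rw [map_nsmul, map_zero]
  refine Prod.ext ?_ ?_
  · rw [Prod.smul_fst, h1, smul_zero]
    rfl
  · rw [Prod.smul_snd]
    exact card_nsmul_eq_zero'

/-- A subgroup with torsion quotient has the same rank. -/
theorem finrank_eq_of_tors {B : Type*} [AddCommGroup B] (hB : AddGroup.FG B) (C : AddSubgroup B)
    (h : ∀ x : B, ∃ n : ℕ, 0 < n ∧ n • x ∈ C) : Module.finrank ℤ C = Module.finrank ℤ B := by
  have hf : Module.Finite ℤ B := Module.Finite.iff_addGroup_fg.2 hB
  have h1 := Submodule.finrank_quotient_add_finrank (R := ℤ) (AddSubgroup.toIntSubmodule C)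
  have h2 : Module.finrank ℤ (B ⧸ AddSubgroup.toIntSubmodule C) = 0 := by
    rw [Module.finrank_eq_zero_iff]
    intro x
    obtain ⟨y, rfl⟩ := Submodule.mkQ_surjective _ x
    obtain ⟨n, hn, hy⟩ := h y
    refine ⟨n, by exact_mod_cast hn.ne', ?_⟩
    rw [← map_smul, Submodule.mkQ_apply, Submodule.Quotient.mk_eq_zero, natCast_zsmul]
    exact hy
  rw [h2, zero_add] at h1
  exact h1

end algebra

variable {l : ℕ} {G A V1 Pl : Type*} [Group G] [AddCommGroup A] [DistribMulAction G A]
  [AddCommGroup V1] [Module (ZMod l) V1] {S : Sys l (AA l) G (VM l (lPow l A)) V1 Pl}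
  {i1 : V1 →+ lPow l A} {chi : G → ZMod l}

/-- The elements fixed by `G`. -/
def invG (G A : Type*) [Group G] [AddCommGroup A] [DistribMulAction G A] : AddSubgroup A where
  carrier := {P | ∀ s : G, s • P = P}
  zero_mem' := fun s => smul_zero s
  add_mem' {P Q} hP hQ := fun s => by rw [smul_add, hP s, hQ s]
  neg_mem' {P} hP := fun s => by rw [smul_neg, hP s]

theorem invG_le (chi : G → ZMod l) : invG G A ≤ invA A chi := fun _ hP s _ => hP s

/-- Fixed by the kernel of `chi` and by one element with `chi = 1` means fixed by `G`. -/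
theorem fix_all [Fact l.Prime] (hchi : ∀ s t, chi (s * t) = chi s + chi t) {g : G}
    (hg : chi g = 1) {P : A} (hP : P ∈ invA A chi) (h : g • P = P) : P ∈ invG G A := by
  intro s
  have hchin : ∀ n : ℕ, chi (g ^ n) = n := by
    intro n
    induction n with
    | zero => rw [pow_zero, chi_one hchi, Nat.cast_zero]
    | succ n ih => rw [pow_succ, hchi, ih, hg, Nat.cast_succ]
  have hn : ∀ n : ℕ, g ^ n • P = P := by
    intro n
    induction n with
    | zero => rw [pow_zero, one_smul]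
    | succ n ih => rw [pow_succ, mul_smul, h, ih]
  have : NeZero l := ⟨(Fact.out : l.Prime).ne_zero⟩
  have h1 : chi ((g ^ (chi s).val)⁻¹ * s) = 0 := by
    rw [hchi, chi_inv hchi, hchin, ZMod.natCast_zmod_val, neg_add_cancel]
  have h2 : s = g ^ (chi s).val * ((g ^ (chi s).val)⁻¹ * s) := by group
  rw [h2, mul_smul, hP _ h1, hn]

/-- **Equality of the ranks.** -/
theorem rank_eq [hl : Fact l.Prime] (hchi : ∀ s t, chi (s * t) = chi s + chi t)
    (hchi1 : ∃ g, chi g = 1) (hK : KumH S chi) {X : Type*}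
    [Finite X] (F : ∀ i, {c // IsL S chi i c} → X)
    (hF : ∀ i c c', F i c = F i c' → ∃ b, IsR S chi i b ∧ rs chi b = c.1 - c'.1)
    (hfg : AddGroup.FG (invA A chi)) :
    Module.finrank ℤ (invG G A) = Module.finrank ℤ (invA A chi) := by
  obtain ⟨n, hn, hdiv⟩ := kum_bound hchi hK F hF
  obtain ⟨g, hg⟩ := hchi1
  have key : ∀ P : invA A chi, ∃ m : ℕ, 0 < m ∧ m • (P : A) ∈ invG G A := by
    intro P
    have hgP : g • (P : A) ∈ invA A chi := by
      intro s hs
      have h2 : s * g = g * (g⁻¹ * s * g) := by group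
      have h3 : chi (g⁻¹ * s * g) = 0 := by
        have := chi_conj hchi g⁻¹ s
        rw [inv_inv] at this
        rw [this, hs]
      rw [← mul_smul, h2, mul_smul, P.2 _ h3]
    set x : invA A chi := n • (⟨g • (P : A), hgP⟩ - P) with hx
    obtain ⟨m, hm, hmx⟩ := tors_of_div hfg hl.out.two_le (x := x) (fun i => by
      obtain ⟨T, hT, hT'⟩ := hdiv P P.2 g i
      exact ⟨⟨T, hT⟩, Subtype.ext hT'⟩)
    refine ⟨m * n, Nat.mul_pos hm hn, ?_⟩
    refine fix_all hchi hg ((invA A chi).nsmul_mem P.2 _) ?_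
    have h1 : m • (n • (g • (P : A) - P)) = 0 := congrArg Subtype.val hmx
    rw [← mul_smul, smul_sub, sub_eq_zero] at h1
    rw [smul_comm, h1]
  set C : AddSubgroup (invA A chi) := (invG G A).addSubgroupOf (invA A chi) with hC
  have h1 := finrank_eq_of_tors hfg C (fun P => by
    obtain ⟨m, hm, h⟩ := key P
    exact ⟨m, hm, h⟩)
  rw [← h1]
  exact (LinearEquiv.finrank_eq
    (AddSubgroup.addSubgroupOfEquivOfLe (invG_le (A := A) chi)).toIntLinearEquiv).symm

end Pool.Agent.SmL.L
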