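import Pool.Agent.Lib.SmL.L.Fix
import Pool.Agent.Lib.SmL.L.FinK
import Pool.Agent.Lib.SmL.L.RankL
import Mathlib.FieldTheory.Finite.Basic

/-!
# SMITH-L (odd prime `l`), finite level part: the summary

`noinv`: if `V1` has no fixed vector then `M` has no element fixed by the kernel of `chi`.
`all_of_small`: the comparison of the Selmer groups and of the ranks over `K` and over the extension
cut out by `chi`, from the smallness of one Selmer group of the twist.
-/

set_option autoImplicit false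

open Finset

namespace Pool.Agent.SmL.L

open Pool.Agent.SmL.V

section noinv

variable {l : ℕ} {G M V1 Pl : Type*} [Group G] [AddCommGroup M] [DistribMulAction G M]
  [AddCommGroup V1] [Module (ZMod l) V1] {S : Sys l (AA l) G (VM l M) V1 Pl} {i1 : V1 →+ M}
  {chi : G → ZMod l}

/-- No fixed vector for the kernel of a character of order `l`. -/
theorem noinv1 [hl : Fact l.Prime] (hchi : ∀ s t, chi (s * t) = chi s + chi t)
    (hchi1 : ∃ g, chi g = 1) (ac : G →* (V1 ≃ₗ[ZMod l] V1))
    (nofix : ∀ w : V1, (∀ s, ac s w = w) → w = 0) {w : V1} (hw : ∀ s, chi s = 0 → ac s w = w) :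
    w = 0 := by
  obtain ⟨g, hg⟩ := hchi1
  have hchin : ∀ n : ℕ, chi (g ^ n) = n := by
    intro n
    induction n with
    | zero => rw [pow_zero, chi_one hchi, Nat.cast_zero]
    | succ n ih => rw [pow_succ, hchi, ih, hg, Nat.cast_succ]
  let a : Module.End (ZMod l) V1 := (ac g).toLinearMap
  have hap : ∀ (n : ℕ) (x : V1), (a ^ n) x = ac (g ^ n) x := by
    intro n
    induction n with
    | zero => intro x; rw [pow_zero, pow_zero, map_one]; rfl
    | succ n ih =>
      intro x
      rw [pow_succ, pow_succ, map_mul, LinearEquiv.mul_apply, ← ih]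
      rfl
  have hpoly : (a - 1) ^ l = a ^ l - 1 := by
    have h1 : (Polynomial.X - 1 : Polynomial (ZMod l)) ^ l = Polynomial.X ^ l - 1 := by
      rw [sub_pow_char, one_pow]
    have h2 := congrArg (Polynomial.aeval a) h1
    simpa using h2
  -- the powers of `a - 1` on `w`
  have hU : ∀ (n : ℕ) (s : G), chi s = 0 → ac s (((a - 1) ^ n) w) = ((a - 1) ^ n) w := by
    intro n
    induction n with
    | zero => intro s hs; exact hw s hs
    | succ n ih =>
      intro s hs
      have h2 : s * g = g * (g⁻¹ * s * g) := by group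
      have h3 : chi (g⁻¹ * s * g) = 0 := by
        have := chi_conj hchi g⁻¹ s
        rw [inv_inv] at this
        rw [this, hs]
      have h4 : ((a - 1) ^ (n + 1)) w = ac g (((a - 1) ^ n) w) - ((a - 1) ^ n) w := by
        rw [pow_succ']
        rfl
      rw [h4, map_sub, ih s hs, ← LinearEquiv.mul_apply, ← map_mul, h2, map_mul,
        LinearEquiv.mul_apply, ih _ h3]
  have hzero : ((a - 1) ^ l) w = 0 := by
    rw [hpoly, LinearMap.sub_apply, hap, hw (g ^ l) (by rw [hchin, ZMod.natCast_self])]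
    exact sub_self w
  have hfix : ∀ x : V1, (∀ s, chi s = 0 → ac s x = x) → ac g x = x → x = 0 := by
    intro x hx hgx
    apply nofix
    intro s
    have : NeZero l := ⟨hl.out.ne_zero⟩
    have hgn : ∀ n : ℕ, ac (g ^ n) x = x := by
      intro n
      induction n with
      | zero => rw [pow_zero, map_one]; rfl
      | succ n ih => rw [pow_succ, map_mul, LinearEquiv.mul_apply, hgx, ih]
    have h1 : chi ((g ^ (chi s).val)⁻¹ * s) = 0 := by
      rw [hchi, chi_inv hchi, hchin, ZMod.natCast_zmod_val, neg_add_cancel]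
    have h2 : s = g ^ (chi s).val * ((g ^ (chi s).val)⁻¹ * s) := by group
    rw [h2, map_mul, LinearEquiv.mul_apply, hx _ h1, hgn]
  have hall : ∀ n : ℕ, ((a - 1) ^ n) w = 0 → w = 0 := by
    intro n
    induction n with
    | zero => intro h; exact h
    | succ n ih =>
      intro h
      refine ih (hfix _ (hU n) ?_)
      rw [pow_succ'] at h
      exact sub_eq_zero.1 h
  exact hall l hzero

theorem noinv [hl : Fact l.Prime] (h : MOk S i1) (hchi : ∀ s t, chi (s * t) = chi s + chi t)
    (hchi1 : ∃ g, chi g = 1) (nofix : ∀ w : V1, (∀ s, S.ac s w = w) → w = 0) :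
    ∀ P : M, (∀ s, chi s = 0 → s • P = P) → P = 0 := by
  have key : ∀ (n : ℕ) (P : M), (∀ s, chi s = 0 → s • P = P) → l ^ n • P = 0 → P = 0 := by
    intro n
    induction n with
    | zero => intro P _ h1; rwa [pow_zero, one_smul] at h1
    | succ n ih =>
      intro P hP h1
      refine ih P hP ?_
      obtain ⟨w, hw⟩ := h.range (l ^ n • P) (by rw [← mul_smul, ← pow_succ', h1])
      rw [← hw, noinv1 hchi hchi1 S.ac nofix (w := w) (fun s hs => h.inj (by
        rw [← h.ac, hw, smul_comm s (l ^ n), hP s hs])), map_zero]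
  intro P hP
  obtain ⟨n, hn⟩ := h.tors P
  exact key n P hP hn

/-- The fibre property. -/
theorem exists_F [hl : Fact l.Prime] (hS : S.Ok) (h : MOk S i1) (hchi : S.HomG chi)
    (hchi1 : ∃ g, chi g = 1) (hH : ∀ P : M, (∀ s, chi s = 0 → s • P = P) → P = 0) {m : ℕ}
    (hbd : ∀ (m' : ℕ) (Psi : G → VM l M), S.IsSel chi m' Psi →
      ∃ Psi0, S.IsSel chi m Psi0 ∧ ∃ Q, ∀ s, Psi s = Psi0 s + S.dl chi Q s) :
    ∃ F : ∀ i, {c // IsL S chi i c} → {Psi // S.IsSel chi m Psi},
      ∀ i c c', F i c = F i c' → ∃ b, IsR S chi i b ∧ rs chi b = c.1 - c'.1 := by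
  have hl0 : NeZero l := ⟨hl.out.ne_zero⟩
  obtain ⟨g1, hg1⟩ := hchi1
  have hchin : ∀ n : ℕ, chi (g1 ^ n) = n := by
    intro n
    induction n with
    | zero => rw [pow_zero, chi_one hchi.2, Nat.cast_zero]
    | succ n ih => rw [pow_succ, hchi.2, ih, hg1, Nat.cast_succ]
  let r : ZMod l → G := fun j => g1 ^ j.val
  have hr : ∀ j, chi (r j) = j := fun j => by
    change chi (g1 ^ j.val) = j
    rw [hchin, ZMod.natCast_zmod_val]
  have hr0 : r 0 = 1 := by
    change g1 ^ (0 : ZMod l).val = 1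
    rw [ZMod.val_zero, pow_zero]
  choose F hF Q hQ using fun (i : ℕ) (c : {c : G → M // IsL S chi i c}) =>
    hbd _ _ (shap_isSel hS h hchi hr c.2)
  refine ⟨fun i c => ⟨F i c, hF i c⟩, fun i c c' hcc => ?_⟩
  have h1 : F i c = F i c' := congrArg Subtype.val hcc
  have hsub := c.2.sub hS c'.2
  obtain ⟨b, hb, hbc⟩ := res_of_shap hS h hchi hH hr hr0 hsub (Q := Q i c - Q i c') (fun g => by
    rw [sh_sub, map_sub, Sys.dl_sub, hQ i c g, hQ i c' g, h1]
    abel)
  refine ⟨b, hb, ?_⟩
  funext s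
  by_cases hs : chi s = 0
  · rw [rs_apply hs, hbc s hs]
  · rw [rs_zero hs, hsub.supp s hs]

end noinv

section main

variable {l : ℕ} {G A V1 Pl : Type*} [Group G] [AddCommGroup A] [DistribMulAction G A]
  [AddCommGroup V1] [Module (ZMod l) V1] {S : Sys l (AA l) G (VM l (lPow l A)) V1 Pl}
  {i1 : V1 →+ lPow l A} {chi : G → ZMod l}

/-- The comparison of the Selmer groups. -/
theorem sel_of_small (hS : S.Ok) (h : MOk S i1) (hchi : S.HomG chi)
    (hchi1 : ∃ g, chi g = 1) (nofix : ∀ w : V1, (∀ s, S.ac s w = w) → w = 0)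
    (hZ : {c : G → V1 | S.CocG c ∧ ∀ v ∈ S.good, c (S.sg v) = 0}.Finite) {m : ℕ}
    (hfin : Finite {Psi // S.IsSel chi m Psi})
    (hlt : Nat.card {Psi // S.IsSel chi m Psi} < (l * Nat.card V1) ^ m) :
    ∃ C : ℕ, ∀ i, Finite {b // IsK S i b} ∧ Finite {c // IsL S chi i c} ∧
      Nat.card {b // IsK S i b} ≤ Nat.card {c // IsL S chi i c} ∧
      Nat.card {c // IsL S chi i c} ≤ C * Nat.card {b // IsK S i b} := by
  have hl : Fact l.Prime := ⟨hS.prime⟩
  obtain ⟨C, hC⟩ := cmp hS h hchi hchi1 (noinv h hchi.2 hchi1 nofix) (finK hS h hZ) hfin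
    (bounded_of_small hS hchi nofix hfin hlt)
  exact ⟨C, fun i => ⟨finK hS h hZ i, hC i⟩⟩

/-- The ranks. -/
theorem rank_of_small (hS : S.Ok) (h : MOk S i1) (hchi : S.HomG chi)
    (hchi1 : ∃ g, chi g = 1) (nofix : ∀ w : V1, (∀ s, S.ac s w = w) → w = 0) (hK : KumH S chi)
    (hfg : AddGroup.FG (invA A chi)) {m : ℕ} (hfin : Finite {Psi // S.IsSel chi m Psi})
    (hlt : Nat.card {Psi // S.IsSel chi m Psi} < (l * Nat.card V1) ^ m) :
    Module.finrank ℤ (invG G A) = Module.finrank ℤ (invA A chi) := by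
  have hl : Fact l.Prime := ⟨hS.prime⟩
  obtain ⟨F, hF⟩ := exists_F hS h hchi hchi1 (noinv h hchi.2 hchi1 nofix)
    (bounded_of_small hS hchi nofix hfin hlt)
  exact rank_eq hchi.2 hchi1 hK F hF hfg

end main

end Pool.Agent.SmL.L
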