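import Mathlib

/-! SMITH-L, block L: averaging over blocks (pure combinatorics), values in a normed space. -/

set_option autoImplicit false

namespace Pool.Agent.SmL

open Finset

/-- averaging a function over the classes of an equivalence relation, over a saturated set -/
theorem avg_classes {E : Type} [NormedAddCommGroup E] [NormedSpace ℝ E] {Ω : Type} [Fintype Ω] [DecidableEq Ω] (s : Setoid Ω) [DecidableRel s.r]
    (S : Finset Ω) (hS : ∀ x y, s.r x y → (x ∈ S ↔ y ∈ S)) (h : Ω → E) :
    ∑ x ∈ S, h x = ∑ x ∈ S, (1 / ((univ.filter (fun y => s.r x y)).card : ℝ)) •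
      ∑ y ∈ univ.filter (fun y => s.r x y), h y := by
  have hK : ∀ x y, s.r x y → univ.filter (fun z => s.r x z) = univ.filter (fun z => s.r y z) := by
    intro x y hxy
    ext z
    simp only [mem_filter, mem_univ, true_and]
    exact ⟨fun hz => s.trans (s.symm hxy) hz, fun hz => s.trans hxy hz⟩
  have h1 : ∀ x ∈ S, (1 / ((univ.filter (fun y => s.r x y)).card : ℝ)) •
      ∑ y ∈ univ.filter (fun y => s.r x y), h y =
      ∑ y ∈ S, if s.r x y then (1 / ((univ.filter (fun z => s.r y z)).card : ℝ)) • h y else 0 := by
    intro x hx
    rw [smul_sum, ← sum_filter]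
    have : univ.filter (fun y => s.r x y) = S.filter (fun y => s.r x y) := by
      ext y
      simp only [mem_filter, mem_univ, true_and]
      exact ⟨fun hy => ⟨(hS x y hy).1 hx, hy⟩, fun hy => hy.2⟩
    conv_lhs => rw [this]
    apply sum_congr rfl
    intro y hy
    rw [mem_filter] at hy
    rw [← this, hK x y hy.2]
  rw [sum_congr rfl h1, sum_comm]
  apply sum_congr rfl
  intro y hy
  have h2 : ∀ x ∈ S, (if s.r x y then (1 / ((univ.filter (fun z => s.r y z)).card : ℝ)) • h y
      else 0) =
      if s.r y x then (1 / ((univ.filter (fun z => s.r y z)).card : ℝ)) • h y else 0 := by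
    intro x _
    by_cases hxy : s.r x y
    · rw [if_pos hxy, if_pos (s.symm hxy)]
    · rw [if_neg hxy, if_neg (fun hyx => hxy (s.symm hyx))]
  rw [sum_congr rfl h2, ← sum_filter, sum_const, ← Nat.cast_smul_eq_nsmul ℝ, smul_smul]
  have h3 : S.filter (fun x => s.r y x) = univ.filter (fun x => s.r y x) := by
    ext x
    simp only [mem_filter, mem_univ, true_and]
    exact ⟨fun hx => hx.2, fun hx => ⟨(hS y x hx).1 hy, hx⟩⟩
  rw [h3]
  have h4 : 0 < (univ.filter (fun x => s.r y x)).card := by
    apply card_pos.2
    exact ⟨y, by simp only [mem_filter, mem_univ, true_and]; exact s.refl y⟩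
  have h5 : ((univ.filter (fun x => s.r y x)).card : ℝ) ≠ 0 := by exact_mod_cast h4.ne'
  rw [mul_one_div_cancel h5, one_smul]

open Classical in
theorem block_avg {E : Type} [NormedAddCommGroup E] [NormedSpace ℝ E] {Ω Dr AB C : Type}
    [Fintype Ω] [Fintype Dr] [Fintype AB] (r : Dr → Setoid Ω) (cl : Dr → Ω → C)
    (g : AB → Ω → E) (hg : ∀ a x, ‖g a x‖ ≤ 1) (coef : Dr → AB → Ω → ℝ)
    (hcoef : ∀ d a x y, (r d).r x y → cl d x = cl d y → coef d a x = coef d a y)
    (W η ε' : ℝ) (hW0 : 0 ≤ W) (hη : 0 ≤ η) (Nc : ℕ) (hW : ∀ d x, ∑ a, |coef d a x| ≤ W)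
    (hNc : ∀ d x, Nat.card {c : C // ∃ y, (r d).r x y ∧ cl d y = c ∧ ∃ a, coef d a y ≠ 0} ≤ Nc)
    (small : Dr → Set Ω) (hsat : ∀ d x y, (r d).r x y → (x ∈ small d ↔ y ∈ small d))
    (hsm : ∀ d, (Nat.card (small d) : ℝ) ≤ ε' * Nat.card Ω)
    (hblk : ∀ d a x, x ∉ small d → coef d a x ≠ 0 →
      ‖∑ y with (r d).r x y ∧ cl d y = cl d x, g a y‖ ≤ η * Nat.card {y // (r d).r x y}) :
    ‖∑ x, ∑ d, ∑ a, coef d a x • g a x‖ ≤
      Nat.card Dr * (W * (Nc * η + ε')) * Nat.card Ω := by
  have hone : ∀ d : Dr, ‖∑ x, ∑ a, coef d a x • g a x‖ ≤ (W * (Nc * η + ε')) * Nat.card Ω := by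
    intro d
    -- the relation: same block and same class
    let s : Setoid Ω :=
      { r := fun x y => (r d).r x y ∧ cl d y = cl d x
        iseqv :=
          { refl := fun x => ⟨(r d).refl x, rfl⟩
            symm := fun {x y} h => ⟨(r d).symm h.1, h.2.symm⟩
            trans := fun {x y z} h1 h2 => ⟨(r d).trans h1.1 h2.1, h2.2.trans h1.2⟩ } }
    set Sm : Finset Ω := univ.filter (fun x => x ∈ small d) with hSm
    set Bg : Finset Ω := univ.filter (fun x => x ∉ small d) with hBg
    have hsplit : ∑ x, ∑ a, coef d a x • g a x =
        ∑ x ∈ Sm, ∑ a, coef d a x • g a x + ∑ x ∈ Bg, ∑ a, coef d a x • g a x := by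
      rw [hSm, hBg, sum_filter_add_sum_filter_not]
    have habs : ∀ x, ‖∑ a, coef d a x • g a x‖ ≤ W := by
      intro x
      refine (norm_sum_le _ _).trans ((sum_le_sum (fun a _ => ?_)).trans (hW d x))
      rw [norm_smul, Real.norm_eq_abs]
      exact mul_le_of_le_one_right (abs_nonneg _) (hg a x)
    have hsmall : ‖∑ x ∈ Sm, ∑ a, coef d a x • g a x‖ ≤ W * (ε' * Nat.card Ω) := by
      refine (norm_sum_le _ _).trans ((sum_le_sum (fun x _ => habs x)).trans ?_)
      rw [sum_const, nsmul_eq_mul, mul_comm]
      refine mul_le_mul_of_nonneg_left ?_ hW0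
      have := hsm d
      rw [Nat.card_eq_fintype_card, Fintype.card_subtype] at this
      exact this
    have hbig : ‖∑ x ∈ Bg, ∑ a, coef d a x • g a x‖ ≤ W * (Nc * η) * Nat.card Ω := by
      have hBs : ∀ x y, s.r x y → (x ∈ Bg ↔ y ∈ Bg) := by
        intro x y hxy
        simp only [hBg, mem_filter, mem_univ, true_and]
        exact not_congr (hsat d x y hxy.1)
      rw [avg_classes s Bg hBs]
      refine (norm_sum_le _ _).trans ?_
      -- bound of one term
      have hterm : ∀ x ∈ Bg, ‖(1 / ((univ.filter (fun y => s.r x y)).card : ℝ)) •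
          ∑ y ∈ univ.filter (fun y => s.r x y), ∑ a, coef d a y • g a y‖ ≤
          W * η * ((if ∃ a, coef d a x ≠ 0 then (1 / ((univ.filter (fun y => s.r x y)).card : ℝ))
            else 0) * ((univ.filter (fun z => (r d).r x z)).card : ℝ)) := by
        intro x hx
        have hx' : x ∉ small d := by simpa [hBg] using hx
        have hcn : (0:ℝ) ≤ 1 / ((univ.filter (fun y => s.r x y)).card : ℝ) := by positivity
        have e1 : ∑ y ∈ univ.filter (fun y => s.r x y), ∑ a, coef d a y • g a y =
            ∑ a, coef d a x • ∑ y ∈ univ.filter (fun y => s.r x y), g a y := by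
          rw [sum_comm]
          apply sum_congr rfl
          intro a _
          rw [smul_sum]
          apply sum_congr rfl
          intro y hy
          have hy' : s.r x y := (mem_filter.1 hy).2
          rw [hcoef d a x y hy'.1 hy'.2.symm]
        rw [e1]
        by_cases hact : ∃ a, coef d a x ≠ 0
        · rw [if_pos hact, norm_smul, Real.norm_eq_abs, abs_of_nonneg hcn]
          have e2 : ‖∑ a, coef d a x • ∑ y ∈ univ.filter (fun y => s.r x y), g a y‖ ≤
              W * (η * ((univ.filter (fun z => (r d).r x z)).card : ℝ)) := by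
            refine (norm_sum_le _ _).trans ?_
            have e3 : ∀ a ∈ (univ : Finset AB),
                ‖coef d a x • ∑ y ∈ univ.filter (fun y => s.r x y), g a y‖ ≤
                |coef d a x| * (η * ((univ.filter (fun z => (r d).r x z)).card : ℝ)) := by
              intro a _
              rw [norm_smul, Real.norm_eq_abs]
              by_cases ha : coef d a x = 0
              · rw [ha]; simp
              · refine mul_le_mul_of_nonneg_left ?_ (abs_nonneg _)
                have := hblk d a x hx' ha
                rw [Nat.card_eq_fintype_card, Fintype.card_subtype] at this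
                have e5 : (univ.filter (fun y => s.r x y)) =
                    (univ.filter (fun y => (r d).r x y ∧ cl d y = cl d x)) := by
                  ext y
                  simp only [mem_filter, mem_univ, true_and]
                  exact Iff.rfl
                rw [e5]
                exact this
            refine (sum_le_sum e3).trans ?_
            rw [← sum_mul]
            exact mul_le_mul_of_nonneg_right (hW d x) (by positivity)
          calc 1 / ((univ.filter (fun y => s.r x y)).card : ℝ) *
                ‖∑ a, coef d a x • ∑ y ∈ univ.filter (fun y => s.r x y), g a y‖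
              ≤ 1 / ((univ.filter (fun y => s.r x y)).card : ℝ) *
                (W * (η * ((univ.filter (fun z => (r d).r x z)).card : ℝ))) :=
                mul_le_mul_of_nonneg_left e2 hcn
            _ = _ := by ring
        · rw [if_neg hact]
          push Not at hact
          have e4 : ∑ a, coef d a x • ∑ y ∈ univ.filter (fun y => s.r x y), g a y = 0 := by
            apply sum_eq_zero
            intro a _
            rw [hact a, zero_smul]
          rw [e4, smul_zero, norm_zero, zero_mul, mul_zero]
      refine (sum_le_sum hterm).trans ?_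
      rw [← mul_sum]
      -- counting
      have hcount : ∑ x ∈ Bg, ((if ∃ a, coef d a x ≠ 0 then
          (1 / ((univ.filter (fun y => s.r x y)).card : ℝ)) else 0) *
          ((univ.filter (fun z => (r d).r x z)).card : ℝ)) ≤ Nc * Nat.card Ω := by
        have c1 : ∑ x ∈ Bg, ((if ∃ a, coef d a x ≠ 0 then
            (1 / ((univ.filter (fun y => s.r x y)).card : ℝ)) else 0) *
            ((univ.filter (fun z => (r d).r x z)).card : ℝ)) ≤
            ∑ x, ((if ∃ a, coef d a x ≠ 0 then
            (1 / ((univ.filter (fun y => s.r x y)).card : ℝ)) else 0) *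
            ((univ.filter (fun z => (r d).r x z)).card : ℝ)) := by
          apply sum_le_sum_of_subset_of_nonneg (subset_univ _)
          intro x _ _
          refine mul_nonneg ?_ (by positivity)
          split_ifs <;> positivity
        refine c1.trans ?_
        have c2 : ∀ x ∈ (univ : Finset Ω), ((if ∃ a, coef d a x ≠ 0 then
            (1 / ((univ.filter (fun y => s.r x y)).card : ℝ)) else 0) *
            ((univ.filter (fun z => (r d).r x z)).card : ℝ)) =
            ∑ z, if (r d).r x z then (if ∃ a, coef d a x ≠ 0 then
            (1 / ((univ.filter (fun y => s.r x y)).card : ℝ)) else 0) else 0 := by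
          intro x _
          rw [← sum_filter, sum_const, nsmul_eq_mul, mul_comm]
        rw [sum_congr rfl c2, sum_comm]
        have c3 : ∀ z ∈ (univ : Finset Ω), (∑ x, if (r d).r x z then
            (if ∃ a, coef d a x ≠ 0 then
            (1 / ((univ.filter (fun y => s.r x y)).card : ℝ)) else 0) else 0) ≤ (Nc : ℝ) := by
          intro z _
          rw [← sum_filter]
          rw [← sum_filter]
          set A : Finset Ω := (univ.filter (fun x => (r d).r x z)).filter
            (fun x => ∃ a, coef d a x ≠ 0) with hA
          have hAm : ∀ x, x ∈ A ↔ ((r d).r x z ∧ ∃ a, coef d a x ≠ 0) := by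
            intro x
            simp only [hA, mem_filter, mem_univ, true_and]
          have f1 : ∑ x ∈ A, (1 / ((univ.filter (fun y => s.r x y)).card : ℝ)) =
              ∑ c ∈ A.image (cl d), ∑ x ∈ A.filter (fun x => cl d x = c),
                (1 / ((univ.filter (fun y => s.r x y)).card : ℝ)) := by
            symm
            apply sum_fiberwise_of_maps_to
            intro x hx
            exact mem_image_of_mem _ hx
          rw [f1]
          have f2 : ∀ c ∈ A.image (cl d), ∑ x ∈ A.filter (fun x => cl d x = c),
                (1 / ((univ.filter (fun y => s.r x y)).card : ℝ)) ≤ 1 := by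
            intro c hc
            obtain ⟨x0, hx0, rfl⟩ := mem_image.1 hc
            have hx0' := (hAm x0).1 hx0
            have g1 : ∀ x ∈ A.filter (fun x => cl d x = cl d x0),
                (1 / ((univ.filter (fun y => s.r x y)).card : ℝ)) =
                1 / ((univ.filter (fun y => s.r x0 y)).card : ℝ) := by
              intro x hx
              rw [mem_filter, hAm] at hx
              have : univ.filter (fun y => s.r x y) = univ.filter (fun y => s.r x0 y) := by
                ext y
                simp only [mem_filter, mem_univ, true_and]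
                have hxx : s.r x0 x := ⟨(r d).trans hx0'.1 ((r d).symm hx.1.1), hx.2⟩
                exact ⟨fun hy => s.trans hxx hy, fun hy => s.trans (s.symm hxx) hy⟩
              rw [this]
            rw [sum_congr rfl g1, sum_const, nsmul_eq_mul]
            have g2 : (A.filter (fun x => cl d x = cl d x0)).card ≤
                (univ.filter (fun y => s.r x0 y)).card := by
              apply card_le_card
              intro x hx
              rw [mem_filter, hAm] at hx
              simp only [mem_filter, mem_univ, true_and]
              exact ⟨(r d).trans hx0'.1 ((r d).symm hx.1.1), hx.2⟩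
            have g3 : (0:ℝ) < ((univ.filter (fun y => s.r x0 y)).card : ℝ) := by
              have : 0 < (univ.filter (fun y => s.r x0 y)).card :=
                card_pos.2 ⟨x0, by simp only [mem_filter, mem_univ, true_and]; exact s.refl x0⟩
              exact_mod_cast this
            rw [mul_one_div, div_le_one g3]
            exact_mod_cast g2
          refine (sum_le_sum f2).trans ?_
          rw [sum_const, nsmul_eq_mul, mul_one]
          have f3 : (A.image (cl d)).card ≤ Nc := by
            refine le_trans ?_ (hNc d z)
            rw [← Nat.card_eq_finsetCard]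
            have hfin : Finite {c : C // ∃ y, (r d).r z y ∧ cl d y = c ∧ ∃ a, coef d a y ≠ 0} := by
              apply Finite.of_surjective
                (fun y : {y : Ω // (r d).r z y ∧ ∃ a, coef d a y ≠ 0} =>
                  (⟨cl d y.1, y.1, y.2.1, rfl, y.2.2⟩ :
                    {c : C // ∃ y, (r d).r z y ∧ cl d y = c ∧ ∃ a, coef d a y ≠ 0}))
              rintro ⟨c, y, hy1, hy2, hy3⟩
              exact ⟨⟨y, hy1, hy3⟩, Subtype.ext hy2⟩
            apply Nat.card_le_card_of_injective
              (fun c : A.image (cl d) =>
                (⟨c.1, by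
                  obtain ⟨x, hx, hxc⟩ := mem_image.1 c.2
                  have hx' := (hAm x).1 hx
                  exact ⟨x, (r d).symm hx'.1, hxc, hx'.2⟩⟩ :
                  {c : C // ∃ y, (r d).r z y ∧ cl d y = c ∧ ∃ a, coef d a y ≠ 0}))
            intro c1 c2 h
            exact Subtype.ext (by simpa using congrArg Subtype.val h)
          exact_mod_cast f3
        refine (sum_le_sum c3).trans ?_
        rw [sum_const, nsmul_eq_mul, card_univ, Nat.card_eq_fintype_card, mul_comm]
      calc W * η * ∑ x ∈ Bg, ((if ∃ a, coef d a x ≠ 0 then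
          (1 / ((univ.filter (fun y => s.r x y)).card : ℝ)) else 0) *
          ((univ.filter (fun z => (r d).r x z)).card : ℝ))
          ≤ W * η * (Nc * Nat.card Ω) :=
            mul_le_mul_of_nonneg_left hcount (mul_nonneg hW0 hη)
        _ = W * (Nc * η) * Nat.card Ω := by ring
    rw [hsplit]
    refine (norm_add_le _ _).trans ?_
    calc ‖∑ x ∈ Sm, ∑ a, coef d a x • g a x‖ + ‖∑ x ∈ Bg, ∑ a, coef d a x • g a x‖
        ≤ W * (ε' * Nat.card Ω) + W * (Nc * η) * Nat.card Ω := add_le_add hsmall hbig
      _ = (W * (Nc * η + ε')) * Nat.card Ω := by ring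
  have hcomm : ∑ x, ∑ d, ∑ a, coef d a x • g a x = ∑ d, ∑ x, ∑ a, coef d a x • g a x := sum_comm
  rw [hcomm]
  refine (norm_sum_le _ _).trans ((sum_le_sum (fun d _ => hone d)).trans ?_)
  rw [sum_const, nsmul_eq_mul, card_univ, Nat.card_eq_fintype_card (α := Dr)]
  apply le_of_eq
  ring

end Pool.Agent.SmL
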