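import Pool.Agent.Lib.SmL.Cnt.Stmts

/-!
# SMITH-L, block L: the sums of the recursion and their coefficients

The level sums are treated for the independent pairs (`d = false`) and the diagonal pairs
(`d = true`) at the same time: `RelB d`, `SuppB d`, `CondB d`, `ScB d`, `sumB d`, `coefN d`.
-/

set_option autoImplicit false

open Finset

namespace Pool.Agent.SmL.CData

variable {l : ℕ} {A G V V1 Pl : Type} [CommRing A] [Group G] [AddCommGroup V] [Module A V]
  [DistribMulAction G V] [AddCommGroup V1] [Module (ZMod l) V1]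
  {S : Sys l A G V V1 Pl} {X : PSys} (cd : CData S X)

/-- The relations below level `m`. -/
abbrev LamT (J : Type) (m : ℕ) : Type := Fin (m - 1) → Set (cd.CodeN J × (cd.CodeN J → ZMod l))

variable {J : Type}

open Classical in
/-- The relations as a function on all levels. -/
noncomputable def lamOf {m : ℕ} (L : cd.LamT J m) (i : ℕ) :
    Set (cd.CodeN J × (cd.CodeN J → ZMod l)) :=
  if h : i - 1 < m - 1 then L ⟨i - 1, h⟩ else ∅

/-- The relation between `a` and `b`: independent (`d = false`) or diagonal (`d = true`). -/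
def RelB (d : Bool) (a b : cd.CodeN J) : Prop :=
  match d with
  | false => cd.Indep2N a b
  | true => cd.DiagN a b

/-- The basis with the prescribed supports: `SuppN` (`d = false`) or `SuppD` (`d = true`). -/
def SuppB (d : Bool) (F : Set (cd.CodeN J)) (L : ℕ → Set (cd.CodeN J)) (m : ℕ)
    (a b : cd.CodeN J) (dir : Dir m ↪ J) : Prop :=
  match d with
  | false => Nonempty (cd.SuppN F L m a b dir)
  | true => Nonempty (cd.SuppD F L m a dir)

/-- The condition on the pair `(a, b)` in the recursion at level `m`. -/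
def CondB (d : Bool) (F : Set (cd.CodeN J))
    (Lam : ℕ → Set (cd.CodeN J × (cd.CodeN J → ZMod l))) (m : ℕ) (a b : cd.CodeN J) : Prop :=
  a ∈ cd.LflN F Lam m ∧ b ∈ F ∧ cd.RelB d a b ∧ cd.PerpN Lam (m - 1) b

/-- The product of the orders of `L 1, ..., L i`. -/
noncomputable def nzOfN (F : Set (cd.CodeN J))
    (Lam : ℕ → Set (cd.CodeN J × (cd.CodeN J → ZMod l))) (i : ℕ) : ℕ :=
  ∏ k ∈ range i, Nat.card (cd.LflN F Lam (k + 1))

/-- The admissible choices of the directions inside the set `B` of indices. -/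
def ScB (d : Bool) (F : Set (cd.CodeN J))
    (Lam : ℕ → Set (cd.CodeN J × (cd.CodeN J → ZMod l))) (B : Set J)
    (m : ℕ) (a b : cd.CodeN J) : Set (Dir m ↪ J) :=
  {dir | (∀ i, dir i ∈ B) ∧ cd.SuppB d F (cd.LflN F Lam) m a b dir}

variable [Fintype J]

/-- The large split entries. -/
def Lsp (p : J → cd.Mk) (N : ℕ) : Set J := {j | N ≤ X.deg (p j).1 ∧ cd.Split (p j)}

/-- The vector `p` is typical (in terms of `FN`). -/
structure TypF (ex : J → ZMod l) (p : J → cd.Mk) (R : ℕ) (ρ : ℝ) (N : ℕ) : Prop where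
  small : Nat.card (cd.FN ex p) ≤ 2 ^ R
  generic : ∀ (r : ℕ) (c : Fin r → cd.CodeN J), (∀ i, c i ∈ cd.FN ex p) → cd.IndepN c →
    ∀ w : Fin r → V1, ρ * Nat.card J ≤ Nat.card {j : J // j ∈ cd.Lsp p N ∧ ∀ i, (c i).2 j = w i}

open Classical in
/-- The sum over the pairs: `sumI` (`d = false`) or `sumD` (`d = true`). -/
noncomputable def sumB (d : Bool) (ex : J → ZMod l) (p : J → cd.Mk) (m : ℕ) : ℂ :=
  ∑ᶠ ab : cd.CodeN J × cd.CodeN J,
    if cd.CondB d (cd.FN ex p) (cd.LamN ex p) m ab.1 ab.2 then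
      psi (cd.FFN ex p m ab.1 ab.2) else 0

theorem sumB_false (ex : J → ZMod l) (p : J → cd.Mk) (m : ℕ) :
    cd.sumB false ex p m = cd.sumI ex p m := by
  classical
  unfold sumB sumI
  refine finsum_congr fun ab => ?_
  by_cases h : cd.CondB false (cd.FN ex p) (cd.LamN ex p) m ab.1 ab.2
  · rw [if_pos h]
    exact (if_pos h).symm
  · rw [if_neg h]
    exact (if_neg h).symm

theorem sumB_true (ex : J → ZMod l) (p : J → cd.Mk) (m : ℕ) :
    cd.sumB true ex p m = cd.sumD ex p m := by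
  classical
  unfold sumB sumD
  refine finsum_congr fun ab => ?_
  by_cases h : cd.CondB true (cd.FN ex p) (cd.LamN ex p) m ab.1 ab.2
  · rw [if_pos h]
    exact (if_pos h).symm
  · rw [if_neg h]
    exact (if_neg h).symm

open Classical in
/-- The coefficient of `dir` and `(a, b)` at `p`. -/
noncomputable def coefN (d : Bool) (ex : J → ZMod l) (R : ℕ) (ρ : ℝ) (N m : ℕ) (dir : Dir m ↪ J)
    (ab : cd.CodeN J × cd.CodeN J) (p : J → cd.Mk) : ℝ :=
  if cd.TypF ex p R ρ N ∧ cd.CondB d (cd.FN ex p) (cd.LamN ex p) m ab.1 ab.2 ∧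
      dir ∈ cd.ScB d (cd.FN ex p) (cd.LamN ex p) (cd.Lsp p N) m ab.1 ab.2 then
    (cd.nZN ex p (m - 1) : ℝ) /
      Nat.card (cd.ScB d (cd.FN ex p) (cd.LamN ex p) (cd.Lsp p N) m ab.1 ab.2) else 0

open Classical in
/-- **Theorem I**, for both kinds of pairs, inner part. -/
def GridB (d : Bool) (q m R : ℕ) (η : ℝ) (n₀ : ℕ) : Prop :=
  ∀ (J : Type) (_ : Fintype J) (ex : J → ZMod l)
    (p : J → cd.Mk) (a b : cd.CodeN J) (dir : Dir m ↪ J), cd.DirOk ex p dir → n₀ ≤ cd.degN p →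
    Nat.card (cd.FN ex p) ≤ 2 ^ R →
    cd.CondB d (cd.FN ex p) (cd.LamN ex p) m a b →
    cd.SuppB d (cd.FN ex p) (cd.LflN (cd.FN ex p) (cd.LamN ex p)) m a b dir →
    (∀ i, (q : ℝ) ^ (9 * X.deg (p (dir i)).1 / 10) ≤ Nat.card (cd.XB p dir i)) →
    ‖∑ᶠ x : (i : Dir m) → cd.XB p dir i,
        if cd.TypEqN ex dir (cd.replN p dir fun i => (x i).1) p then
          psi (cd.FFN ex (cd.replN p dir fun i => (x i).1) m a b) else 0‖ ≤
      η * ∏ i, (Nat.card (cd.XB p dir i) : ℝ)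

/-- **Theorem I**, for both kinds of pairs. -/
def GridThmB (d : Bool) (q m : ℕ) : Prop :=
  ∀ (R : ℕ) (η : ℝ), 0 < η → ∃ n₀ : ℕ, cd.GridB d q m R η n₀

theorem gridThmB_false {q m : ℕ} (h : cd.GridThmN q m) : cd.GridThmB false q m := by
  intro R η hη
  obtain ⟨n₀, h0⟩ := h R η hη
  exact ⟨n₀, fun J fJ ex p a b dir h1 h2 h3 h4 h5 h6 =>
    h0 J fJ ex p a b dir h1 h2 h3 h4.1 h4.2.1 h4.2.2.2 h5 h6⟩

theorem gridThmB_true {q m : ℕ} (h : cd.GridThmD q m) : cd.GridThmB true q m := by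
  intro R η hη
  obtain ⟨n₀, h0⟩ := h R η hη
  exact ⟨n₀, fun J fJ ex p a b dir h1 h2 h3 h4 h5 h6 =>
    h0 J fJ ex p a b dir h1 h2 h3 h4.1 h4.2.1 h4.2.2.2 h4.2.2.1 h5 h6⟩

end Pool.Agent.SmL.CData
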