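import Mathlib

/-!
# SMITH-L (odd prime `l`), finite level part: Shapiro's lemma for a character of order `l`

`χ : G → ZMod l` is a character with kernel `H`, `r j` an element of `G` with `χ (r j) = j`. A crossed
homomorphism `c` of `H` with values in `M` (here: a function on `G` of which only the values on `H`
matter) gives the crossed homomorphism `sh r χ c` of `G` with values in `ZMod l → M`, on which `s ∈ G`
acts by `(s φ) j = s (φ (j + χ s))` (`twM χ s φ`).
-/

set_option autoImplicit false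

namespace Pool.Agent.SmL.L

variable {G M : Type*} [Group G] [AddCommGroup M] [DistribMulAction G M] {l : ℕ}

/-- The action of `G` on `ZMod l → M`, twisted by `χ`. -/
def twM (χ : G → ZMod l) (s : G) (φ : ZMod l → M) : ZMod l → M := fun j => s • φ (j + χ s)

/-- Crossed homomorphisms of the kernel of `χ`. -/
def Coc0 (χ : G → ZMod l) (c : G → M) : Prop :=
  ∀ s t, χ s = 0 → χ t = 0 → c (s * t) = c s + s • c t

/-- Shapiro's crossed homomorphism of `G`. -/
def sh (r : ZMod l → G) (χ : G → ZMod l) (c : G → M) (g : G) : ZMod l → M :=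
  fun j => (r j)⁻¹ • c (r j * g * (r (j + χ g))⁻¹)

section basic

variable {χ : G → ZMod l} (hχ : ∀ s t, χ (s * t) = χ s + χ t)

include hχ

theorem chi_one : χ 1 = 0 := by
  have h := hχ 1 1
  rw [mul_one] at h
  exact left_eq_add.1 h

theorem chi_inv (s : G) : χ s⁻¹ = -χ s := by
  have h := hχ s⁻¹ s
  rw [inv_mul_cancel, chi_one hχ] at h
  exact eq_neg_of_add_eq_zero_left h.symm

theorem chi_conj (s t : G) : χ (s * t * s⁻¹) = χ t := by
  rw [hχ, hχ, chi_inv hχ]
  abel

theorem twM_mul (s t : G) (φ : ZMod l → M) : twM χ (s * t) φ = twM χ s (twM χ t φ) := by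
  funext j
  simp only [twM]
  rw [mul_smul, hχ, ← add_assoc]

omit hχ in
theorem twM_add (s : G) (φ ψ : ZMod l → M) : twM χ s (φ + ψ) = twM χ s φ + twM χ s ψ := by
  funext j
  simp only [twM, Pi.add_apply, smul_add]

omit hχ in
theorem twM_sub (s : G) (φ ψ : ZMod l → M) : twM χ s (φ - ψ) = twM χ s φ - twM χ s ψ := by
  funext j
  simp only [twM, Pi.sub_apply, smul_sub]

omit hχ in
/-- The constant functions. -/
theorem twM_const (s : G) (Q : M) : twM χ s (fun _ => Q) = fun _ => s • Q := rfl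

theorem coc0_one {c : G → M} (hc : Coc0 χ c) : c 1 = 0 := by
  have h := hc 1 1 (chi_one hχ) (chi_one hχ)
  rw [mul_one, one_smul] at h
  exact left_eq_add.1 h

theorem coc0_inv {c : G → M} (hc : Coc0 χ c) {s : G} (hs : χ s = 0) : c s⁻¹ = -(s⁻¹ • c s) := by
  have h := hc s⁻¹ s (by rw [chi_inv hχ, hs, neg_zero]) hs
  rw [inv_mul_cancel, coc0_one hχ hc] at h
  exact eq_neg_of_add_eq_zero_left h.symm

variable {r : ZMod l → G} (hr : ∀ j, χ (r j) = j)

include hr

theorem chi_rr (g : G) (j : ZMod l) : χ (r j * g * (r (j + χ g))⁻¹) = 0 := by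
  rw [hχ, hχ, chi_inv hχ, hr, hr]
  abel

theorem sh_coc {c : G → M} (hc : Coc0 χ c) (s t : G) :
    sh r χ c (s * t) = sh r χ c s + twM χ s (sh r χ c t) := by
  funext j
  simp only [sh, twM, Pi.add_apply]
  have h1 : r j * (s * t) * (r (j + χ (s * t)))⁻¹ =
      (r j * s * (r (j + χ s))⁻¹) * (r (j + χ s) * t * (r (j + χ s + χ t))⁻¹) := by
    rw [hχ, ← add_assoc]
    group
  have h2 : (r j)⁻¹ * (r j * s * (r (j + χ s))⁻¹) = s * (r (j + χ s))⁻¹ := by group
  rw [h1, hc _ _ (chi_rr hχ hr s j) (chi_rr hχ hr t (j + χ s)), smul_add, smul_smul, smul_smul, h2]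

omit hχ hr in
theorem sh_add (c d : G → M) (g : G) : sh r χ (c + d) g = sh r χ c g + sh r χ d g := by
  funext j
  simp only [sh, Pi.add_apply, smul_add]

omit hχ hr in
theorem sh_sub (c d : G → M) (g : G) : sh r χ (c - d) g = sh r χ c g - sh r χ d g := by
  funext j
  simp only [sh, Pi.sub_apply, smul_sub]

/-- Only the values on the kernel matter. -/
theorem sh_congr {c d : G → M} (h : ∀ s, χ s = 0 → c s = d s) (g : G) :
    sh r χ c g = sh r χ d g := by
  funext j
  simp only [sh]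
  rw [h _ (chi_rr hχ hr g j)]

omit hχ hr in
/-- The inverse of Shapiro's map. -/
theorem sh_zero (h0 : r 0 = 1) (c : G → M) {g : G} (hg : χ g = 0) : sh r χ c g 0 = c g := by
  simp only [sh]
  rw [h0, hg, zero_add, h0, inv_one, one_mul, mul_one, one_smul]

omit hχ hr in
theorem sh_nsmul {n : ℕ} {c : G → M} (h : ∀ s, χ s = 0 → n • c s = 0)
    (hχ : ∀ s t, χ (s * t) = χ s + χ t) (hr : ∀ j, χ (r j) = j) (g : G) (j : ZMod l) :
    n • sh r χ c g j = 0 := by
  simp only [sh]
  rw [← smul_comm, h _ (chi_rr hχ hr g j), smul_zero]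

omit hχ hr in
/-- Coboundaries of the kernel give coboundaries. -/
theorem sh_cob (Q : M) (g : G) :
    sh r χ (fun s => s • Q - Q) g =
      twM χ g (fun j => (r j)⁻¹ • Q) - fun j => (r j)⁻¹ • Q := by
  funext j
  simp only [sh, twM, Pi.sub_apply]
  rw [smul_sub, smul_smul]
  congr 1
  rw [smul_smul]
  congr 1
  group

omit hχ hr in
/-- Restriction of a crossed homomorphism of `G` with values in `M` (that is, of a crossed
homomorphism with constant values). -/
theorem sh_res {b : G → M} (hb : ∀ s t, b (s * t) = b s + s • b t) (g : G) :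
    sh r χ b g = (fun _ => b g) + (twM χ g (fun j => -((r j)⁻¹ • b (r j))) -
      fun j => -((r j)⁻¹ • b (r j))) := by
  funext j
  have h1 : b 1 = 0 := by
    have h := hb 1 1
    rw [mul_one, one_smul] at h
    exact left_eq_add.1 h
  have h2 : ∀ s, b s⁻¹ = -(s⁻¹ • b s) := fun s => by
    have h := hb s⁻¹ s
    rw [inv_mul_cancel, h1] at h
    exact eq_neg_of_add_eq_zero_left h.symm
  simp only [sh, twM, Pi.add_apply, Pi.sub_apply]
  rw [hb, hb, h2, smul_add, smul_add, smul_smul, inv_mul_cancel, one_smul]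
  rw [smul_neg, smul_neg, smul_neg, smul_smul, smul_smul, smul_smul]
  have h3 : (r j)⁻¹ * (r j * g) * (r (j + χ g))⁻¹ = g * (r (j + χ g))⁻¹ := by group
  rw [h3]
  abel

/-- Continuity. -/
theorem sh_tf {N : Subgroup G} (hN : N.Normal) (hNχ : ∀ n ∈ N, χ n = 0) {c : G → M}
    (hc : ∀ s, χ s = 0 → ∀ n ∈ N, c (s * n) = c s) (g n : G) (hn : n ∈ N) :
    sh r χ c (g * n) = sh r χ c g := by
  funext j
  simp only [sh]
  rw [hχ, hNχ n hn, add_zero]
  have h1 : r j * (g * n) * (r (j + χ g))⁻¹ =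
      (r j * g * (r (j + χ g))⁻¹) * (r (j + χ g) * n * (r (j + χ g))⁻¹) := by group
  rw [h1, hc _ (chi_rr hχ hr g j) _ (hN.conj_mem n hn _)]

end basic

/-- Local triviality. -/
theorem sh_loc [Fact l.Prime] {χ : G → ZMod l} (hχ : ∀ s t, χ (s * t) = χ s + χ t)
    {r : ZMod l → G} (hr : ∀ j, χ (r j) = j) {c : G → M} (hc : Coc0 χ c) (D : Subgroup G)
    (h : ∀ g : G, ∃ Q : M, ∀ s, χ s = 0 → g⁻¹ * s * g ∈ D → c s = s • Q - Q) :
    ∃ Φ : ZMod l → M, ∀ s ∈ D, sh r χ c s = twM χ s Φ - Φ := by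
  by_cases hD : ∀ s ∈ D, χ s = 0
  · choose Q hQ using fun j => h (r j)
    refine ⟨fun j => (r j)⁻¹ • Q j, fun s hs => ?_⟩
    funext j
    simp only [sh, twM, Pi.sub_apply]
    rw [hD s hs, add_zero, hQ j (r j * s * (r j)⁻¹) (by rw [chi_conj hχ, hD s hs])
      (by
        have h1 : (r j)⁻¹ * (r j * s * (r j)⁻¹) * r j = s := by group
        rw [h1]
        exact hs), smul_sub, smul_smul]
    congr 1
    rw [smul_smul]
    congr 1
    group
  · push Not at hD
    obtain ⟨d0, hd0, hne⟩ := hD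
    have hpow : ∀ (x : G) (m : ℕ), χ (x ^ m) = m * χ x := by
      intro x m
      induction m with
      | zero => rw [pow_zero, chi_one hχ, Nat.cast_zero, zero_mul]
      | succ m ih => rw [pow_succ, hχ, ih, Nat.cast_succ, add_mul, one_mul]
    obtain ⟨d, hd, hd1⟩ : ∃ d ∈ D, χ d = 1 := by
      refine ⟨d0 ^ (χ d0)⁻¹.val, D.pow_mem hd0 _, ?_⟩
      rw [hpow, ZMod.natCast_val, ZMod.cast_id', id_eq, inv_mul_cancel₀ hne]
    have hdj : ∀ j : ZMod l, χ (d ^ j.val) = j := fun j => by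
      rw [hpow, hd1, mul_one, ZMod.natCast_val, ZMod.cast_id', id_eq]
    obtain ⟨Q, hQ⟩ := h 1
    refine ⟨fun j => (d ^ j.val)⁻¹ • (Q + c (d ^ j.val * (r j)⁻¹)), fun s hs => ?_⟩
    funext j
    simp only [sh, twM, Pi.sub_apply]
    set j' := j + χ s with hj'
    set h1 := d ^ j.val * (r j)⁻¹ with hh1
    set h2 := d ^ j'.val * (r j')⁻¹ with hh2
    set y := d ^ j.val * s * (d ^ j'.val)⁻¹ with hy
    have e1 : χ h1 = 0 := by rw [hh1, hχ, chi_inv hχ, hdj, hr, add_neg_cancel]
    have e2 : χ h2 = 0 := by rw [hh2, hχ, chi_inv hχ, hdj, hr, add_neg_cancel]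
    have ey : χ y = 0 := by
      rw [hy, hχ, hχ, chi_inv hχ, hdj, hdj, hj']
      abel
    have hyD : y ∈ D := D.mul_mem (D.mul_mem (D.pow_mem hd _) hs) (D.inv_mem (D.pow_mem hd _))
    have e3 : r j * s * (r j')⁻¹ = h1⁻¹ * (y * h2) := by
      rw [hh1, hh2, hy]
      group
    rw [e3, hc _ _ (by rw [chi_inv hχ, e1, neg_zero]) (by rw [hχ, ey, e2, add_zero]),
      hc _ _ ey e2, hQ y ey (by rw [inv_one, one_mul, mul_one]; exact hyD), coc0_inv hχ hc e1]
    have e4 : (r j)⁻¹ * h1⁻¹ = (d ^ j.val)⁻¹ := by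
      rw [hh1]
      group
    have e5 : (d ^ j.val)⁻¹ * y = s * (d ^ j'.val)⁻¹ := by
      rw [hy]
      group
    rw [smul_add, smul_neg, smul_smul, e4, smul_smul, e4, smul_add, smul_sub, smul_smul, e5,
      smul_smul, e5, smul_add (d ^ j'.val)⁻¹, smul_add s, smul_smul, smul_smul, smul_add]
    abel

end Pool.Agent.SmL.L
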