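import Pool.Agent.Lib.SmL.G.Unr
import Pool.Agent.Lib.SmL.V.Fld

/-!
# SMITH-L (odd prime `l`), finite level part: the Selmer groups over `K` and over the cyclic
extension cut out by `chi`

`M` is the `G`-module (the `l`-power torsion of `E(Ω)`), `V = VM l M` the functions `ZMod l → M` modulo
the constant functions, `chi` a character of order `l`. `IsK i`: the Selmer cocycles of `G` with
values in `M[l ^ i]`; `IsL chi i`: those of the kernel of `chi` (extended by zero); `IsR chi i`: the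
cocycles of `G` whose restriction to the kernel of `chi` is a Selmer cocycle.

`res_of_shap`: if the class of the Shapiro cocycle of `c` in `H^1(G, V)` is zero, then `c` is the
restriction of a cocycle of `G`.
-/

set_option autoImplicit false

open Finset

namespace Pool.Agent.SmL.L

open Pool.Agent.SmL.V

section fiber

/-- Counting by fibres. -/
theorem fiber_card {A X : Type*} [AddCommGroup A] [Finite X] {P Q : A → Prop}
    [Finite {b // Q b}] (f : {a // P a} → X) (hf : ∀ a a', f a = f a' → Q (a.1 - a'.1)) :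
    Finite {a // P a} ∧ Nat.card {a // P a} ≤ Nat.card X * Nat.card {b // Q b} := by
  classical
  have hrep : ∀ a : {a // P a}, ∃ r : {a // P a}, f r = f a := fun a => ⟨a, rfl⟩
  let rep : X → Option {a // P a} := fun x => if h : ∃ r, f r = x then some h.choose else none
  have hr : ∀ a : {a // P a}, ∃ r, rep (f a) = some r ∧ f r = f a := by
    intro a
    have h : ∃ r, f r = f a := ⟨a, rfl⟩
    exact ⟨h.choose, dif_pos h, h.choose_spec⟩
  choose r hr1 hr2 using hr
  let g : {a // P a} → X × {b // Q b} := fun a => (f a, ⟨a.1 - (r a).1, hf _ _ (hr2 a).symm⟩)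
  have hg : Function.Injective g := by
    intro a a' h
    have h1 : f a = f a' := congrArg Prod.fst h
    have h2 : a.1 - (r a).1 = a'.1 - (r a').1 := congrArg (fun z => (z.2 : A)) h
    have h3 : r a = r a' := by
      have h4 := hr1 a
      rw [h1, hr1 a'] at h4
      exact (Option.some_injective _ h4).symm
    rw [h3] at h2
    exact Subtype.ext (sub_left_injective h2)
  refine ⟨Finite.of_injective g hg, ?_⟩
  rw [← Nat.card_prod]
  exact Nat.card_le_card_of_injective g hg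

end fiber

section defs

variable {l : ℕ} {G M V1 Pl : Type*} [Group G] [AddCommGroup M] [DistribMulAction G M]
  [AddCommGroup V1] [Module (ZMod l) V1]

/-- The Selmer cocycles of `G` with values in `M[l ^ i]`. -/
structure IsK (S : Sys l (AA l) G (VM l M) V1 Pl) (i : ℕ) (b : G → M) : Prop where
  tf : S.TF b
  coc : ∀ s t, b (s * t) = b s + s • b t
  lev : ∀ s, l ^ i • b s = 0
  loc : ∀ v, ∃ Q : M, ∀ s ∈ S.D v, b s = s • Q - Q

/-- The cocycles of `G` with values in `M[l ^ i]` whose restriction to the kernel of `chi` is a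
Selmer cocycle. -/
structure IsR (S : Sys l (AA l) G (VM l M) V1 Pl) (chi : G → ZMod l) (i : ℕ) (b : G → M) : Prop where
  tf : S.TF b
  coc : ∀ s t, b (s * t) = b s + s • b t
  lev : ∀ s, l ^ i • b s = 0
  loc : ∀ v, ∃ Q : M, ∀ s ∈ S.D v, chi s = 0 → b s = s • Q - Q

/-- The Selmer cocycles of the kernel of `chi` with values in `M[l ^ i]`, extended by zero. -/
structure IsL (S : Sys l (AA l) G (VM l M) V1 Pl) (chi : G → ZMod l) (i : ℕ) (c : G → M) : Prop where
  supp : ∀ s, chi s ≠ 0 → c s = 0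
  tf : ∃ N ∈ S.NN, (∀ n ∈ N, chi n = 0) ∧ ∀ s, chi s = 0 → ∀ n ∈ N, c (s * n) = c s
  coc : Coc0 chi c
  lev : ∀ s, l ^ i • c s = 0
  loc : ∀ v (g : G), ∃ Q : M, ∀ s, chi s = 0 → g⁻¹ * s * g ∈ S.D v → c s = s • Q - Q

end defs

section

variable {l : ℕ} {G M V1 Pl : Type*} [Group G] [AddCommGroup M] [DistribMulAction G M]
  [AddCommGroup V1] [Module (ZMod l) V1] {S : Sys l (AA l) G (VM l M) V1 Pl} {i1 : V1 →+ M}
  {chi : G → ZMod l}

theorem IsK.isR {i : ℕ} {b : G → M} (h : IsK S i b) : IsR S chi i b :=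
  ⟨h.tf, h.coc, h.lev, fun v => by
    obtain ⟨Q, hQ⟩ := h.loc v
    exact ⟨Q, fun s hs _ => hQ s hs⟩⟩

theorem TF.comp2 (hS : S.Ok) {α β γ : Type*} {f : G → α} {f' : G → β} (hf : S.TF f)
    (hf' : S.TF f') (g : α → β → γ) : S.TF (fun s => g (f s) (f' s)) := by
  obtain ⟨N, hN, h⟩ := hf
  obtain ⟨N', hN', h'⟩ := hf'
  exact ⟨N ⊓ N', hS.inf_mem N hN N' hN', fun s n hn => by
    beta_reduce
    rw [h s n hn.1, h' s n hn.2]⟩

theorem IsR.sub (hS : S.Ok) {i : ℕ} {b b' : G → M} (h : IsR S chi i b) (h' : IsR S chi i b') :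
    IsR S chi i (b - b') := by
  refine ⟨TF.comp2 hS h.tf h'.tf (fun x y => x - y), fun s t => ?_, fun s => ?_, fun v => ?_⟩
  · simp only [Pi.sub_apply, h.coc, h'.coc, smul_sub]
    abel
  · rw [Pi.sub_apply, smul_sub, h.lev, h'.lev, sub_zero]
  · obtain ⟨Q, hQ⟩ := h.loc v
    obtain ⟨Q', hQ'⟩ := h'.loc v
    refine ⟨Q - Q', fun s hs h0 => ?_⟩
    rw [Pi.sub_apply, hQ s hs h0, hQ' s hs h0, smul_sub]
    abel

theorem IsL.sub (hS : S.Ok) {i : ℕ} {c c' : G → M} (h : IsL S chi i c) (h' : IsL S chi i c') :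
    IsL S chi i (c - c') := by
  refine ⟨fun s hs => ?_, ?_, fun s t hs ht => ?_, fun s => ?_, fun v g => ?_⟩
  · rw [Pi.sub_apply, h.supp s hs, h'.supp s hs, sub_zero]
  · obtain ⟨N, hN, h0, h1⟩ := h.tf
    obtain ⟨N', hN', h0', h1'⟩ := h'.tf
    exact ⟨N ⊓ N', hS.inf_mem N hN N' hN', fun n hn => h0 n hn.1, fun s hs n hn => by
      rw [Pi.sub_apply, Pi.sub_apply, h1 s hs n hn.1, h1' s hs n hn.2]⟩
  · simp only [Pi.sub_apply, h.coc s t hs ht, h'.coc s t hs ht, smul_sub]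
    abel
  · rw [Pi.sub_apply, smul_sub, h.lev, h'.lev, sub_zero]
  · obtain ⟨Q, hQ⟩ := h.loc v g
    obtain ⟨Q', hQ'⟩ := h'.loc v g
    refine ⟨Q - Q', fun s h0 hs => ?_⟩
    rw [Pi.sub_apply, hQ s h0 hs, hQ' s h0 hs, smul_sub]
    abel

/-- A cocycle which vanishes on the kernel of `chi` is zero if the kernel has no invariants. -/
theorem coc_zero (hchi : ∀ s t, chi (s * t) = chi s + chi t)
    (hH : ∀ P : M, (∀ s, chi s = 0 → s • P = P) → P = 0) {b : G → M}
    (hb : ∀ s t, b (s * t) = b s + s • b t) (h0 : ∀ s, chi s = 0 → b s = 0) (g : G) : b g = 0 := by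
  apply hH
  intro s hs
  have h1 : b (s * g) = s • b g := by rw [hb, h0 s hs, zero_add]
  have h2 : s * g = g * (g⁻¹ * s * g) := by group
  have h3 : chi (g⁻¹ * s * g) = 0 := by
    have := chi_conj hchi g⁻¹ s
    rw [inv_inv] at this
    rw [this, hs]
  rw [← h1, h2, hb, h0 _ h3, smul_zero, add_zero]

/-! ### the Shapiro map -/

/-- The Shapiro cocycle is a Selmer cocycle of the twist. -/
theorem shap_isSel [hl : Fact l.Prime] (hS : S.Ok) (h : MOk S i1) (hchi : S.HomG chi)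
    {r : ZMod l → G} (hr : ∀ j, chi (r j) = j) {i : ℕ} {c : G → M} (hc : IsL S chi i c) :
    S.IsSel chi (i * (l - 1)) (fun g => mk (sh r chi c g)) := by
  have hl0 : NeZero l := ⟨hl.out.ne_zero⟩
  refine ⟨?_, fun s t => ?_, fun s => ?_, fun v => ?_⟩
  · obtain ⟨N, hN, h1, h2⟩ := hc.tf
    exact ⟨N, hN, fun s n hn => by
      beta_reduce
      rw [sh_tf hchi.2 hr (hS.normal N hN) h1 h2 s n hn]⟩
  · rw [tw_mk h.ze, ← map_add, sh_coc hchi.2 hr hc.coc]
  · rw [h.lam_eq]
    apply lam_of_l (A := AA l) (ze := zeta l) norm_smul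
    rw [nsmul_mk, mk_eq_zero]
    refine ⟨0, fun j => ?_⟩
    exact sh_nsmul (fun s _ => hc.lev s) hchi.2 hr s j
  · obtain ⟨Φ, hΦ⟩ := sh_loc hchi.2 hr hc.coc (S.D v) (hc.loc v)
    exact ⟨mk Φ, fun s hs => by
      beta_reduce
      rw [dl_mk h.ze, hΦ s hs]⟩

/-- If the class of the Shapiro cocycle is zero then the cocycle is a restriction. -/
theorem res_of_shap [hl : Fact l.Prime] (hS : S.Ok) (h : MOk S i1) (hchi : S.HomG chi)
    (hH : ∀ P : M, (∀ s, chi s = 0 → s • P = P) → P = 0)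
    {r : ZMod l → G} (hr : ∀ j, chi (r j) = j) (hr0 : r 0 = 1) {i : ℕ} {c : G → M}
    (hc : IsL S chi i c) {Q : VM l M} (hQ : ∀ g, mk (sh r chi c g) = S.dl chi Q g) :
    ∃ b : G → M, IsR S chi i b ∧ ∀ s, chi s = 0 → b s = c s := by
  have hl0 : NeZero l := ⟨hl.out.ne_zero⟩
  obtain ⟨Φ, rfl⟩ := mk_surj Q
  have h1 : ∀ g, ∃ w : M, ∀ j, sh r chi c g j = (twM chi g Φ - Φ) j + w := by
    intro g
    have h2 := hQ g
    rw [dl_mk h.ze, mk_eq] at h2
    exact h2
  choose w hw using h1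
  have hw0 : ∀ g, w g = sh r chi c g 0 - (g • Φ (chi g) - Φ 0) := by
    intro g
    rw [hw g 0]
    simp only [Pi.sub_apply, twM, zero_add]
    abel
  have hwc : ∀ s t, w (s * t) = w s + s • w t := by
    intro s t
    have h3 : sh r chi c (s * t) 0 = sh r chi c s 0 + s • sh r chi c t (chi s) := by
      rw [sh_coc hchi.2 hr hc.coc]
      simp only [Pi.add_apply, twM, zero_add]
    have h4 : sh r chi c t (chi s) = t • Φ (chi s + chi t) - Φ (chi s) + w t := by
      rw [hw t]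
      simp only [Pi.sub_apply, twM]
    rw [hw0, h3, h4, hw0 s, hchi.2, smul_add, smul_sub, smul_smul]
    abel
  have hcoc : ∀ s t : G, w (s * t) + ((s * t) • Φ 0 - Φ 0) =
      w s + (s • Φ 0 - Φ 0) + s • (w t + (t • Φ 0 - Φ 0)) := by
    intro s t
    rw [hwc, smul_add, smul_sub, smul_smul]
    abel
  have hres : ∀ s, chi s = 0 → w s + (s • Φ 0 - Φ 0) = c s := by
    intro s hs
    rw [hw0, hs, sh_zero hr0 c hs]
    abel
  have hlev : ∀ s, l ^ i • (w s + (s • Φ 0 - Φ 0)) = 0 := by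
    refine coc_zero hchi.2 hH (b := fun s => l ^ i • (w s + (s • Φ 0 - Φ 0))) (fun s t => ?_)
      fun s hs => ?_
    · rw [hcoc, smul_add (l ^ i), smul_comm s (l ^ i)]
    · rw [hres s hs, hc.lev]
  refine ⟨fun s => w s + (s • Φ 0 - Φ 0), ⟨?_, hcoc, hlev, fun v => ?_⟩, hres⟩
  · obtain ⟨N, hN, h2, h3⟩ := hc.tf
    obtain ⟨n, hn⟩ := tors_V' h.tors Φ
    obtain ⟨N', hN', h4⟩ := h.act_fin n
    refine ⟨N ⊓ N', hS.inf_mem N hN N' hN', fun s m hm => ?_⟩
    beta_reduce
    rw [hw0, hw0, sh_tf hchi.2 hr (hS.normal N hN) h2 h3 s m hm.1, hchi.2, h2 m hm.1, add_zero,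
      mul_smul, mul_smul, h4 m hm.2 _ (hn _), h4 m hm.2 _ (hn _)]
  · obtain ⟨Q, hQ⟩ := hc.loc v 1
    refine ⟨Q, fun s hs h0 => ?_⟩
    rw [hres s h0]
    exact hQ s h0 (by rw [inv_one, one_mul, mul_one]; exact hs)

end

end Pool.Agent.SmL.L
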