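import Pool.Agent.Lib.SmL.L.Cmp

/-!
# SMITH-L (odd prime `l`), finite level part: comparison of the numbers of Selmer cocycles

`isK_of_unr`: at a good place where `chi` is unramified the local condition of `IsR` implies that of
`IsK`. `cmp`: if the Selmer cocycles of the twist `V` by `chi` of all levels are, up to coboundaries,
in a finite set, then `#IsK i ≤ #IsL chi i ≤ C #IsK i` for all `i`.
-/

set_option autoImplicit false

open Finset

namespace Pool.Agent.SmL.L

open Pool.Agent.SmL.V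

variable {l : ℕ} {G M V1 Pl : Type*} [Group G] [AddCommGroup M] [DistribMulAction G M]
  [AddCommGroup V1] [Module (ZMod l) V1] {S : Sys l (AA l) G (VM l M) V1 Pl} {i1 : V1 →+ M}
  {chi : G → ZMod l}

/-! ### the local condition at the good unramified places -/

open Classical in
/-- The function which is `P` at `0` and zero elsewhere. -/
noncomputable def dlt (l : ℕ) {M : Type*} [AddCommGroup M] (P : M) : ZMod l → M :=
  fun j => if j = 0 then P else 0

theorem dlt_zero (P : M) : dlt l P 0 = P := if_pos rfl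

theorem dlt_ne {j : ZMod l} (h : j ≠ 0) (P : M) : dlt l P j = 0 := if_neg h

theorem dlt_add (P Q : M) : dlt l (P + Q) = dlt l P + dlt l Q := by
  funext j
  by_cases h : j = 0
  · subst h
    simp only [Pi.add_apply, dlt_zero]
  · simp only [Pi.add_apply, dlt_ne h, add_zero]

theorem smul_dlt (s : G) (P : M) : (fun j => s • dlt l P j) = dlt l (s • P) := by
  funext j
  by_cases h : j = 0
  · subst h
    simp only [dlt_zero]
  · simp only [dlt_ne h, smul_zero]

/-- An unramified cocycle at a good place is a coboundary. -/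
theorem loc_of_unr [hl : Fact l.Prime] (hS : S.Ok) (h : MOk S i1) {v : Pl} (hv : v ∈ S.good)
    {i : ℕ} {b : G → M} (hb : IsR S chi i b) (h0 : b (S.sg v) = 0) :
    ∃ Q : M, ∀ s ∈ S.D v, b s = s • Q - Q := by
  have hl0 : NeZero l := ⟨hl.out.ne_zero⟩
  have h01 : (1 : ZMod l) ≠ 0 := one_ne_zero
  have hz : S.Zv (fun _ => 0) v (fun s => mk (dlt l (b s))) := by
    rw [Sys.zv_iff_unr hS (Sys.HomG_zero hS) hv rfl (i * (l - 1))]
    · rw [h0, mk_eq_zero]
      exact ⟨0, fun j => by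
        by_cases hj : j = 0
        · rw [hj, dlt_zero]
        · rw [dlt_ne hj]⟩
    · refine ⟨?_, fun s _ t _ => ?_⟩
      · obtain ⟨N, hN, h1⟩ := hb.tf
        exact ⟨N, hN, fun s _ n hn _ => by beta_reduce; rw [h1 s n hn]⟩
      · rw [hb.coc, dlt_add, map_add, Sys.tw_of_zero S (fun _ => 0) rfl, smul_mk, smul_dlt]
    · intro s _
      rw [h.lam_eq]
      apply lam_of_l (A := AA l) (ze := zeta l) norm_smul
      rw [nsmul_mk, mk_eq_zero]
      refine ⟨0, fun j => ?_⟩
      by_cases hj : j = 0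
      · rw [hj, dlt_zero, hb.lev]
      · rw [dlt_ne hj, smul_zero]
  obtain ⟨Q, hQ⟩ := hz
  obtain ⟨φ, rfl⟩ := mk_surj Q
  refine ⟨φ 0 - φ 1, fun s hs => ?_⟩
  have h1 := hQ s hs
  rw [dl_mk h.ze, mk_eq] at h1
  obtain ⟨w, hw⟩ := h1
  have h2 := hw 0
  have h3 := hw 1
  simp only [Pi.sub_apply, twM, add_zero] at h2 h3
  rw [dlt_zero] at h2
  rw [dlt_ne h01] at h3
  rw [h2, smul_sub]
  have h4 : w = -(s • φ 1 - φ 1) := eq_neg_of_add_eq_zero_right h3.symm
  rw [h4]
  abel

/-! ### the local invariants at the other places -/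

/-- The finite group of the invariants of `D v ∩ ker chi`. -/
abbrev Fv (S : Sys l (AA l) G (VM l M) V1 Pl) (chi : G → ZMod l) (v : Pl) : Type _ :=
  {P : M // ∀ s ∈ S.D v, chi s = 0 → s • P = P}

theorem mem_fv (hchi : ∀ s t, chi (s * t) = chi s + chi t) {v : Pl} {b : G → M}
    (hb : ∀ s t, b (s * t) = b s + s • b t) {Q : M}
    (hQ : ∀ s ∈ S.D v, chi s = 0 → b s = s • Q - Q) {g : G} (hg : g ∈ S.D v) :
    ∀ s ∈ S.D v, chi s = 0 → s • (b g - (g • Q - Q)) = b g - (g • Q - Q) := by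
  intro s hs h0
  have h2 : s * g = g * (g⁻¹ * s * g) := by group
  have h3 : chi (g⁻¹ * s * g) = 0 := by
    have := chi_conj hchi g⁻¹ s
    rw [inv_inv] at this
    rw [this, h0]
  have h4 : g⁻¹ * s * g ∈ S.D v := (S.D v).mul_mem ((S.D v).mul_mem ((S.D v).inv_mem hg) hs) hg
  have h5 := hb s g
  rw [h2, hb, hQ _ h4 h3, hQ s hs h0, smul_sub, smul_smul, ← h2] at h5
  have h6 : s • b g = b g + ((s * g) • Q - g • Q) - (s • Q - Q) := by
    rw [h5]; abel
  rw [smul_sub, smul_sub, h6, mul_smul]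
  abel

/-- Equality of the values at one element `g` with `chi g = 1`. -/
theorem loc_eq [hl : Fact l.Prime] (hchi : ∀ s t, chi (s * t) = chi s + chi t) {v : Pl} {b : G → M}
    (hb : ∀ s t, b (s * t) = b s + s • b t) {Q : M}
    (hQ : ∀ s ∈ S.D v, chi s = 0 → b s = s • Q - Q) {g : G} (hg : g ∈ S.D v)
    (hg1 : (∃ g' ∈ S.D v, chi g' = 1) → chi g = 1) (h : b g = g • Q - Q) :
    ∀ s ∈ S.D v, b s = s • Q - Q := by
  have hl0 : NeZero l := ⟨hl.out.ne_zero⟩
  have hchin : ∀ (x : G) (n : ℕ), chi (x ^ n) = n * chi x := by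
    intro x n
    induction n with
    | zero => rw [pow_zero, chi_one hchi, Nat.cast_zero, zero_mul]
    | succ n ih => rw [pow_succ, hchi, ih, Nat.cast_succ]; ring
  intro s hs
  by_cases h0 : chi s = 0
  · exact hQ s hs h0
  · have h1 : ∃ g' ∈ S.D v, chi g' = 1 := by
      refine ⟨s ^ (chi s)⁻¹.val, (S.D v).pow_mem hs _, ?_⟩
      rw [hchin, ZMod.natCast_zmod_val, inv_mul_cancel₀ h0]
    have h2 := hg1 h1
    have h3 : ∀ n : ℕ, b (g ^ n) = g ^ n • Q - Q := by
      intro n
      induction n with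
      | zero =>
        have h4 := hb 1 1
        rw [mul_one, one_smul] at h4
        rw [pow_zero, one_smul, sub_self]
        exact left_eq_add.1 h4
      | succ n ih =>
        rw [pow_succ, hb, ih, h, smul_sub, mul_smul]
        abel
    have h4 : chi ((g ^ (chi s).val)⁻¹ * s) = 0 := by
      rw [hchi, chi_inv hchi, hchin, h2, mul_one, ZMod.natCast_zmod_val, neg_add_cancel]
    have h5 : (g ^ (chi s).val)⁻¹ * s ∈ S.D v :=
      (S.D v).mul_mem ((S.D v).inv_mem ((S.D v).pow_mem hg _)) hs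
    have h6 : s = g ^ (chi s).val * ((g ^ (chi s).val)⁻¹ * s) := by group
    rw [h6, hb, h3, hQ _ h5 h4, smul_sub, ← mul_smul]
    abel

/-! ### the comparison -/

open Classical in
/-- An element of `D v` with `chi = 1`, if there is one. -/
noncomputable def gv (S : Sys l (AA l) G (VM l M) V1 Pl) (chi : G → ZMod l) (v : Pl) : G :=
  if h : ∃ g ∈ S.D v, chi g = 1 then h.choose else 1

theorem gv_mem (S : Sys l (AA l) G (VM l M) V1 Pl) (chi : G → ZMod l) (v : Pl) :
    gv S chi v ∈ S.D v := by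
  unfold gv
  split_ifs with h
  · exact h.choose_spec.1
  · exact (S.D v).one_mem

theorem gv_chi {v : Pl} (h : ∃ g ∈ S.D v, chi g = 1) : chi (gv S chi v) = 1 := by
  unfold gv
  rw [dif_pos h]
  exact h.choose_spec.2

/-- `#IsR i ≤ C #IsK i`. -/
theorem card_R [hl : Fact l.Prime] (hS : S.Ok) (h : MOk S i1) (hchi : S.HomG chi)
    (hK : ∀ i, Finite {b // IsK S i b}) :
    ∃ C : ℕ, ∀ i, Finite {b // IsR S chi i b} ∧
      Nat.card {b // IsR S chi i b} ≤ C * Nat.card {b // IsK S i b} := by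
  classical
  -- the exceptional places
  have hram : {v | chi (S.sg v) ≠ 0}.Finite := by
    obtain ⟨N, hN, h1⟩ := hchi.1
    refine (hS.unr N hN).subset fun v hv hmem => hv ?_
    have h2 := h1 1 _ hmem
    rw [one_mul] at h2
    rw [h2, chi_one hchi.2]
  have hB : (S.goodᶜ ∪ {v | chi (S.sg v) ≠ 0}).Finite := hS.good_fin.union hram
  set B := hB.toFinset with hBdef
  have hmemB : ∀ v, v ∉ B → v ∈ S.good ∧ chi (S.sg v) = 0 := by
    intro v hv
    rw [hBdef, Set.Finite.mem_toFinset] at hv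
    refine ⟨by_contra fun h1 => hv (Or.inl h1), by_contra fun h1 => hv (Or.inr h1)⟩
  have hF : ∀ v, Finite (Fv S chi v) := fun v => (h.fin_inv chi hchi v).to_subtype
  refine ⟨Nat.card (∀ v : B, Fv S chi v.1), fun i => ?_⟩
  have := hK i
  choose Q hQ using fun (b : {b // IsR S chi i b}) (v : Pl) => b.2.loc v
  have hx := fun (b : {b // IsR S chi i b}) (v : Pl) =>
    mem_fv hchi.2 b.2.coc (hQ b v) (gv_mem S chi v)
  refine fiber_card (P := IsR S chi i) (Q := IsK S i) (X := ∀ v : B, Fv S chi v.1)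
    (fun b v => ⟨b.1 (gv S chi v.1) - (gv S chi v.1 • Q b v.1 - Q b v.1), hx b v.1⟩) ?_
  intro b b' hbb
  have hsub := b.2.sub hS b'.2
  refine ⟨hsub.tf, hsub.coc, hsub.lev, fun v => ?_⟩
  by_cases hv : v ∈ B
  · refine ⟨Q b v - Q b' v, loc_eq hchi.2 hsub.coc (fun s hs h0 => ?_) (gv_mem S chi v)
      (fun hg => gv_chi hg) ?_⟩
    · rw [Pi.sub_apply, hQ b v s hs h0, hQ b' v s hs h0, smul_sub]
      abel
    · have h1 := congrArg Subtype.val (congrFun hbb ⟨v, hv⟩)
      dsimp only at h1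
      rw [Pi.sub_apply, smul_sub]
      have h2 : b.1 (gv S chi v) = b'.1 (gv S chi v) - (gv S chi v • Q b' v - Q b' v) +
          (gv S chi v • Q b v - Q b v) := by
        rw [← h1]; abel
      rw [h2]
      abel
  · obtain ⟨hg, h0⟩ := hmemB v hv
    refine loc_of_unr hS h hg hsub ?_
    obtain ⟨R, hR⟩ := hsub.loc v
    rw [hR _ (hS.sg_mem v) h0, h.good_triv v hg, sub_self]

/-- Restriction to the kernel of `chi`. -/
noncomputable def rs (chi : G → ZMod l) (b : G → M) : G → M := fun s => if chi s = 0 then b s else 0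

omit [Group G] [DistribMulAction G M] in
theorem rs_apply {b : G → M} {s : G} (h : chi s = 0) : rs chi b s = b s := if_pos h

omit [Group G] [DistribMulAction G M] in
theorem rs_zero {b : G → M} {s : G} (h : chi s ≠ 0) : rs chi b s = 0 := if_neg h

/-- The restriction of a Selmer cocycle. -/
theorem rs_isL (hS : S.Ok) (hchi : S.HomG chi) {i : ℕ} {b : G → M} (hb : IsK S i b) :
    IsL S chi i (rs chi b) := by
  refine ⟨fun s hs => rs_zero hs, ?_, fun s t hs ht => ?_, fun s => ?_, fun v g => ?_⟩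
  · obtain ⟨N, hN, h1⟩ := hb.tf
    obtain ⟨N', hN', h2⟩ := hchi.1
    have h3 : ∀ n ∈ N', chi n = 0 := fun n hn => by
      have h4 := h2 1 n hn
      rw [one_mul] at h4
      rw [h4, chi_one hchi.2]
    refine ⟨N ⊓ N', hS.inf_mem N hN N' hN', fun n hn => h3 n hn.2, fun s hs n hn => ?_⟩
    rw [rs_apply hs, rs_apply (by rw [hchi.2, hs, h3 n hn.2, add_zero]), h1 s n hn.1]
  · rw [rs_apply hs, rs_apply ht, rs_apply (by rw [hchi.2, hs, ht, add_zero]), hb.coc]
  · by_cases hs : chi s = 0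
    · rw [rs_apply hs, hb.lev]
    · rw [rs_zero hs, smul_zero]
  · obtain ⟨Q, hQ⟩ := hb.loc v
    refine ⟨g • Q - b g, fun s h0 hs => ?_⟩
    have h1 := hQ _ hs
    have h2 : g * (g⁻¹ * s * g) = s * g := by group
    have h3 := hb.coc g (g⁻¹ * s * g)
    rw [h2, hb.coc, h1, smul_sub, smul_smul, h2] at h3
    rw [rs_apply h0, smul_sub]
    have h4 : b s = b g + ((s * g) • Q - g • Q) - s • b g := by
      rw [← h3]; abel
    rw [h4, mul_smul]
    abel

/-- **Comparison of the Selmer groups over `K` and over the extension cut out by `chi`.** -/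
theorem cmp [hl : Fact l.Prime] (hS : S.Ok) (h : MOk S i1) (hchi : S.HomG chi)
    (hchi1 : ∃ g, chi g = 1) (hH : ∀ P : M, (∀ s, chi s = 0 → s • P = P) → P = 0)
    (hK : ∀ i, Finite {b // IsK S i b}) {m : ℕ} (hfin : Finite {Psi // S.IsSel chi m Psi})
    (hbd : ∀ (m' : ℕ) (Psi : G → VM l M), S.IsSel chi m' Psi →
      ∃ Psi0, S.IsSel chi m Psi0 ∧ ∃ Q, ∀ s, Psi s = Psi0 s + S.dl chi Q s) :
    ∃ C : ℕ, ∀ i, Finite {c // IsL S chi i c} ∧
      Nat.card {b // IsK S i b} ≤ Nat.card {c // IsL S chi i c} ∧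
      Nat.card {c // IsL S chi i c} ≤ C * Nat.card {b // IsK S i b} := by
  classical
  have hl0 : NeZero l := ⟨hl.out.ne_zero⟩
  obtain ⟨C, hC⟩ := card_R (S := S) hS h hchi hK
  refine ⟨Nat.card {Psi // S.IsSel chi m Psi} * C, fun i => ?_⟩
  obtain ⟨hRf, hRC⟩ := hC i
  have := hK i
  -- a section of `chi`
  obtain ⟨g1, hg1⟩ := hchi1
  have hchin : ∀ n : ℕ, chi (g1 ^ n) = n := by
    intro n
    induction n with
    | zero => rw [pow_zero, chi_one hchi.2, Nat.cast_zero]
    | succ n ih => rw [pow_succ, hchi.2, ih, hg1, Nat.cast_succ]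
  let r : ZMod l → G := fun j => g1 ^ j.val
  have hr : ∀ j, chi (r j) = j := fun j => by
    change chi (g1 ^ j.val) = j
    rw [hchin, ZMod.natCast_zmod_val]
  have hr0 : r 0 = 1 := by
    change g1 ^ (0 : ZMod l).val = 1
    rw [ZMod.val_zero, pow_zero]
  -- the restrictions
  have hQf : Finite {c // ∃ b, IsR S chi i b ∧ rs chi b = c} := by
    refine Finite.of_surjective (fun b : {b // IsR S chi i b} =>
      (⟨rs chi b.1, b.1, b.2, rfl⟩ : {c // ∃ b, IsR S chi i b ∧ rs chi b = c})) ?_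
    rintro ⟨c, b, hb, rfl⟩
    exact ⟨⟨b, hb⟩, rfl⟩
  have hQc : Nat.card {c // ∃ b, IsR S chi i b ∧ rs chi b = c} ≤
      Nat.card {b // IsR S chi i b} := by
    refine Nat.card_le_card_of_surjective (fun b : {b // IsR S chi i b} =>
      (⟨rs chi b.1, b.1, b.2, rfl⟩ : {c // ∃ b, IsR S chi i b ∧ rs chi b = c})) ?_
    rintro ⟨c, b, hb, rfl⟩
    exact ⟨⟨b, hb⟩, rfl⟩
  choose F hF Q hQ using fun c : {c // IsL S chi i c} =>
    hbd _ _ (shap_isSel hS h hchi hr c.2)
  obtain ⟨hLf, hLc⟩ := fiber_card (P := IsL S chi i)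
    (Q := fun c => ∃ b, IsR S chi i b ∧ rs chi b = c)
    (X := {Psi // S.IsSel chi m Psi}) (fun c => ⟨F c, hF c⟩) (fun c c' hcc => by
      have h1 : F c = F c' := congrArg Subtype.val hcc
      have hsub := c.2.sub hS c'.2
      obtain ⟨b, hb, hbc⟩ := res_of_shap hS h hchi hH hr hr0 hsub (Q := Q c - Q c') (fun g => by
        rw [sh_sub, map_sub, Sys.dl_sub, hQ c g, hQ c' g, h1]
        abel)
      refine ⟨b, hb, ?_⟩
      funext s
      by_cases hs : chi s = 0
      · rw [rs_apply hs, hbc s hs]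
      · rw [rs_zero hs, hsub.supp s hs])
  refine ⟨hLf, ?_, ?_⟩
  · refine Nat.card_le_card_of_injective (fun b : {b // IsK S i b} =>
      (⟨rs chi b.1, rs_isL hS hchi b.2⟩ : {c // IsL S chi i c})) ?_
    intro b b' hbb
    have h1 : rs chi b.1 = rs chi b'.1 := congrArg Subtype.val hbb
    apply Subtype.ext
    funext g
    have h2 := coc_zero hchi.2 hH (b := fun s => b.1 s - b'.1 s) (fun s t => by
      rw [b.2.coc, b'.2.coc, smul_sub]; abel) (fun s hs => by
      have h3 := congrFun h1 s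
      rw [rs_apply hs, rs_apply hs] at h3
      rw [h3, sub_self]) g
    exact sub_eq_zero.1 h2
  · rw [mul_assoc]
    exact hLc.trans (Nat.mul_le_mul_left _ (hQc.trans hRC))

end Pool.Agent.SmL.L
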