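import Pool.Agent.Lib.SmL.G.Unr

/-!
# SMITH-L (odd prime `l`), finite level part: few Selmer cocycles of one level

`bounded_of_small`: if `V1` has no invariants and there are less than `(l #V1) ^ m` Selmer cocycles
of level `m`, then the Selmer cocycles of every level are, up to coboundaries, of level `m`.
-/

set_option autoImplicit false

open Finset

namespace Pool.Agent.SmL.L

variable {l : ℕ} {A G V V1 Pl : Type*} [CommRing A] [Group G] [AddCommGroup V] [Module A V]
  [DistribMulAction G V] [AddCommGroup V1] [Module (ZMod l) V1] {S : Sys l A G V V1 Pl}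
  {chi : G → ZMod l}

/-- The group of the Selmer cocycles of level `j`. -/
def ZS (hS : S.Ok) (chi : G → ZMod l) (j : ℕ) : AddSubgroup (G → V) where
  carrier := {Psi | S.IsSel chi j Psi}
  zero_mem' := ⟨⟨⊤, hS.top_mem, fun _ _ _ => rfl⟩, fun s t => by
    simp only [Pi.zero_apply, Sys.tw_zero, add_zero], fun s => smul_zero _,
    fun v => ⟨0, fun s _ => by rw [Sys.dl_zero, Pi.zero_apply]⟩⟩
  add_mem' {a b} ha hb := by
    refine ⟨?_, fun s t => ?_, fun s => ?_, fun v => (ha.loc v).add (hb.loc v)⟩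
    · obtain ⟨N, hN, h⟩ := ha.tf
      obtain ⟨N', hN', h'⟩ := hb.tf
      exact ⟨N ⊓ N', hS.inf_mem N hN N' hN', fun s n hn => by
        rw [Pi.add_apply, Pi.add_apply, h s n hn.1, h' s n hn.2]⟩
    · simp only [Pi.add_apply, ha.coc, hb.coc, Sys.tw_add]
      abel
    · rw [Pi.add_apply, smul_add, ha.lev, hb.lev, add_zero]
  neg_mem' {a} ha := by
    refine ⟨?_, fun s t => ?_, fun s => ?_, fun v => ?_⟩
    · obtain ⟨N, hN, h⟩ := ha.tf
      exact ⟨N, hN, fun s n hn => by rw [Pi.neg_apply, Pi.neg_apply, h s n hn]⟩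
    · simp only [Pi.neg_apply, ha.coc, Sys.tw_neg]
      abel
    · rw [Pi.neg_apply, smul_neg, ha.lev, neg_zero]
    · obtain ⟨Q, hQ⟩ := ha.loc v
      exact ⟨-Q, fun s hs => by rw [Pi.neg_apply, Sys.dl_neg, hQ s hs]⟩

theorem mem_ZS {hS : S.Ok} {j : ℕ} {Psi : G → V} : Psi ∈ ZS hS chi j ↔ S.IsSel chi j Psi := Iff.rfl

theorem ZS_mono (hS : S.Ok) {j j' : ℕ} (h : j ≤ j') : ZS hS chi j ≤ ZS hS chi j' := by
  intro Psi hP
  refine ⟨hP.tf, hP.coc, fun s => ?_, hP.loc⟩
  obtain ⟨r, rfl⟩ := Nat.exists_eq_add_of_le h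
  rw [pow_add, mul_comm, mul_smul, hP.lev, smul_zero]

/-- A coboundary. -/
theorem dl_isSel (hS : S.Ok) (hchi : S.HomG chi) {j : ℕ} {Q : V} (h : S.lam ^ j • Q = 0) :
    S.IsSel chi j (S.dl chi Q) := by
  refine ⟨?_, fun s t => Sys.dl_mul hS hchi.2 Q s t, fun s => ?_, fun v => ⟨Q, fun s _ => rfl⟩⟩
  · obtain ⟨N, hN, h1⟩ := hchi.1
    obtain ⟨N', hN', h2⟩ := hS.act_fin j
    refine ⟨N ⊓ N', hS.inf_mem N hN N' hN', fun s n hn => ?_⟩
    unfold Sys.dl Sys.tw
    rw [h1 s n hn.1, mul_smul, h2 n hn.2 Q h]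
  · rw [← Sys.dl_smul hS, h, Sys.dl_zero]

/-- Multiplication by a power of `lam`. -/
theorem smul_isSel (hS : S.Ok) {i j : ℕ} {Psi : G → V} (h : S.IsSel chi (i + j) Psi) :
    S.IsSel chi j (fun s => S.lam ^ i • Psi s) := by
  refine ⟨h.tf.comp (fun x => S.lam ^ i • x), fun s t => ?_, fun s => ?_, fun v => ?_⟩
  · rw [h.coc, smul_add, Sys.tw_smul hS]
  · rw [← mul_smul, ← pow_add, add_comm j i, h.lev]
  · exact (h.loc v).smulA hS _

/-- Multiplication by `lam ^ j` on `ZS (j + 1)`. -/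
def mulL (hS : S.Ok) (chi : G → ZMod l) (j : ℕ) : ZS hS chi (j + 1) →+ (G → V) where
  toFun Psi := fun s => S.lam ^ j • Psi.1 s
  map_zero' := funext fun _ => smul_zero _
  map_add' _ _ := funext fun _ => smul_add _ _ _

/-- The coboundaries of `V1`. -/
def B1 (S : Sys l A G V V1 Pl) (chi : G → ZMod l) : V1 →+ (G → V) where
  toFun w := S.dl chi (S.iota w)
  map_zero' := funext fun s => by rw [map_zero, Sys.dl_zero]; rfl
  map_add' a b := funext fun s => by rw [map_add, Sys.dl_add]; rfl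

theorem B1_inj (hS : S.Ok) (nofix : ∀ w : V1, (∀ s, S.ac s w = w) → w = 0) :
    Function.Injective (B1 S chi) := by
  rw [injective_iff_map_eq_zero]
  intro w hw
  apply nofix
  intro s
  have h1 : S.dl chi (S.iota w) s = 0 := congrFun hw s
  rw [Sys.dl_iota hS, map_eq_zero_iff _ hS.iota_inj] at h1
  exact sub_eq_zero.1 h1

theorem B1_le (hS : S.Ok) (hchi : S.HomG chi) (j : ℕ) :
    (B1 S chi).range ≤ (mulL hS chi j).range := by
  rintro _ ⟨w, rfl⟩
  obtain ⟨Q, hQ⟩ := Sys.half_pow hS j (S.iota w)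
  refine ⟨⟨S.dl chi Q, dl_isSel hS hchi (j := j + 1) ?_⟩, ?_⟩
  · rw [pow_succ', mul_smul, hQ, hS.lam_iota]
  · funext s
    change S.lam ^ j • S.dl chi Q s = S.dl chi (S.iota w) s
    rw [← Sys.dl_smul hS, hQ]

/-- The kernel of the multiplication by `lam ^ j`. -/
theorem card_ker (hS : S.Ok) (j : ℕ) : Nat.card (mulL hS chi j).ker = Nat.card (ZS hS chi j) := by
  refine Nat.card_congr ⟨fun x => ⟨x.1.1, x.1.2.tf, x.1.2.coc, fun s => ?_, x.1.2.loc⟩,
    fun x => ⟨⟨x.1, ZS_mono hS (Nat.le_succ j) x.2⟩, ?_⟩, fun _ => rfl, fun _ => rfl⟩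
  · exact congrFun (show mulL hS chi j x.1 = 0 from x.2) s
  · exact funext fun s => x.2.lev s

theorem card_step (hS : S.Ok) (j : ℕ) :
    Nat.card (ZS hS chi (j + 1)) = Nat.card (ZS hS chi j) * Nat.card (mulL hS chi j).range := by
  rw [← card_ker hS j]
  exact (Sys.card_hom (mulL hS chi j)).symm

/-- If there is more than the coboundaries then there are at least `l #V1` elements. -/
theorem le_card_range (hS : S.Ok) (hchi : S.HomG chi)
    (nofix : ∀ w : V1, (∀ s, S.ac s w = w) → w = 0) {j : ℕ}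
    (hfin : Finite (ZS hS chi (j + 1))) (hne : (mulL hS chi j).range ≠ (B1 S chi).range) :
    l * Nat.card V1 ≤ Nat.card (mulL hS chi j).range := by
  have hl : Fact l.Prime := ⟨hS.prime⟩
  have hRf : Finite (mulL hS chi j).range :=
    Finite.of_surjective _ (AddMonoidHom.rangeRestrict_surjective (mulL hS chi j))
  have hB : Nat.card (B1 S chi).range = Nat.card V1 :=
    (Nat.card_congr (AddMonoidHom.ofInjective (B1_inj (chi := chi) hS nofix)).toEquiv).symm
  have hle := B1_le (chi := chi) hS hchi j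
  set R := (mulL hS chi j).range with hR
  set B := (B1 S chi).range.addSubgroupOf R with hBdef
  have h1 : Nat.card B = Nat.card V1 := by
    rw [← hB]
    exact Nat.card_congr (AddSubgroup.addSubgroupOfEquivOfLe hle).toEquiv
  have h2 : Nat.card R = Nat.card (R ⧸ B) * Nat.card B :=
    AddSubgroup.card_eq_card_quotient_mul_card_addSubgroup B
  rw [h2, h1]
  refine Nat.mul_le_mul_right _ ?_
  -- an element of order `l`
  obtain ⟨x, hx, hxB⟩ : ∃ x ∈ R, x ∉ (B1 S chi).range := by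
    by_contra hc
    push Not at hc
    exact hne (le_antisymm hc hle)
  have hQf : Finite (R ⧸ B) := Quotient.finite _
  have h3 : l • (⟨x, hx⟩ : R) = 0 := by
    apply Subtype.ext
    obtain ⟨Psi, rfl⟩ := hx
    funext s
    change l • (S.lam ^ j • Psi.1 s) = 0
    obtain ⟨w, hw⟩ := hS.iota_range (S.lam ^ j • Psi.1 s) (by
      rw [← mul_smul, ← pow_succ', Psi.2.lev])
    rw [← hw, ← map_nsmul, V1_l, map_zero]
  have h4 : (QuotientAddGroup.mk (⟨x, hx⟩ : R) : R ⧸ B) ≠ 0 := by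
    intro h5
    rw [QuotientAddGroup.eq_zero_iff, hBdef, AddSubgroup.mem_addSubgroupOf] at h5
    exact hxB h5
  have h5 : addOrderOf (QuotientAddGroup.mk (⟨x, hx⟩ : R) : R ⧸ B) = l := by
    refine addOrderOf_eq_prime ?_ h4
    rw [← QuotientAddGroup.mk_nsmul, h3, QuotientAddGroup.mk_zero]
  rw [← h5]
  exact addOrderOf_le_card

/-- **Few Selmer cocycles of one level bound the Selmer cocycles of all levels.** -/
theorem bounded_of_small (hS : S.Ok) (hchi : S.HomG chi)
    (nofix : ∀ w : V1, (∀ s, S.ac s w = w) → w = 0) {m : ℕ}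
    (hfin : Finite {Psi // S.IsSel chi m Psi})
    (hlt : Nat.card {Psi // S.IsSel chi m Psi} < (l * Nat.card V1) ^ m) :
    ∀ (m' : ℕ) (Psi : G → V), S.IsSel chi m' Psi →
      ∃ Psi0, S.IsSel chi m Psi0 ∧ ∃ Q, ∀ s, Psi s = Psi0 s + S.dl chi Q s := by
  have hfin' : ∀ j ≤ m, Finite (ZS hS chi j) := fun j hj =>
    Finite.of_injective (fun x : ZS hS chi j => (⟨x.1, ZS_mono hS hj x.2⟩ :
      {Psi // S.IsSel chi m Psi})) fun x y h => Subtype.ext
        (congrArg (fun z : {Psi // S.IsSel chi m Psi} => z.1) h)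
  obtain ⟨i, hi, hieq⟩ : ∃ i < m, (mulL hS chi i).range = (B1 S chi).range := by
    by_contra hc
    push Not at hc
    have h1 : ∀ j ≤ m, (l * Nat.card V1) ^ j ≤ Nat.card (ZS hS chi j) := by
      intro j
      induction j with
      | zero =>
        intro h0
        have := hfin' 0 h0
        rw [pow_zero]
        exact Nat.card_pos
      | succ j ih =>
        intro hj
        rw [card_step, pow_succ]
        exact Nat.mul_le_mul (ih (by omega)) (le_card_range hS hchi nofix (hfin' (j + 1) hj)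
          (hc j (by omega)))
    exact absurd (h1 m le_rfl) (not_le.2 hlt)
  intro m'
  induction m' with
  | zero =>
    intro Psi hP
    exact ⟨Psi, ZS_mono hS (Nat.zero_le m) hP, 0, fun s => by rw [Sys.dl_zero, add_zero]⟩
  | succ n ih =>
    intro Psi hP
    by_cases hn : n + 1 ≤ m
    · exact ⟨Psi, ZS_mono hS hn hP, 0, fun s => by rw [Sys.dl_zero, add_zero]⟩
    · have h1 : (n - i) + (i + 1) = n + 1 := by omega
      have h2 : S.IsSel chi (i + 1) (fun s => S.lam ^ (n - i) • Psi s) :=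
        smul_isSel hS (by rw [h1]; exact hP)
      have h3 : mulL hS chi i ⟨_, h2⟩ ∈ (B1 S chi).range := by
        rw [← hieq]
        exact ⟨_, rfl⟩
      obtain ⟨w, hw⟩ := h3
      obtain ⟨Q, hQ⟩ := Sys.half_pow hS n (S.iota w)
      have h4 : ∀ s, S.lam ^ n • Psi s = S.dl chi (S.iota w) s := by
        intro s
        have h5 : S.dl chi (S.iota w) s = S.lam ^ i • (S.lam ^ (n - i) • Psi s) := congrFun hw s
        rw [h5, ← mul_smul, ← pow_add]
        congr 2
        omega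
      have hQ1 : S.lam ^ (n + 1) • Q = 0 := by rw [pow_succ', mul_smul, hQ, hS.lam_iota]
      have h5 : S.IsSel chi n (Psi - S.dl chi Q) := by
        have h6 := (ZS hS chi (n + 1)).sub_mem hP (dl_isSel hS hchi hQ1)
        refine ⟨h6.tf, h6.coc, fun s => ?_, h6.loc⟩
        rw [Pi.sub_apply, smul_sub, h4, ← Sys.dl_smul hS, hQ, sub_self]
      obtain ⟨Psi0, h6, Q0, h7⟩ := ih _ h5
      refine ⟨Psi0, h6, Q0 + Q, fun s => ?_⟩
      have h8 := h7 s
      rw [Pi.sub_apply, sub_eq_iff_eq_add] at h8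
      rw [h8, Sys.dl_add, add_assoc]

end Pool.Agent.SmL.L
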