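import Pool.Agent.Lib.SmL.L.Base

/-!
# SMITH-L, block L: the number of types in a big block
-/

set_option autoImplicit false

open Finset

namespace Pool.Agent.SmL

/-- A finite type is at most as large as the number of the fibres times their size. -/
theorem card_le_fibres {α β : Type} [Finite α] [Finite β] (f : α → β) (n : ℕ)
    (h : ∀ b, Nat.card {a // f a = b} ≤ n) : Nat.card α ≤ Nat.card β * n := by
  classical
  have := Fintype.ofFinite α
  have := Fintype.ofFinite β
  have h1 : Nat.card α = ∑ b, Nat.card {a // f a = b} := by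
    rw [← Nat.card_sigma]
    exact Nat.card_congr (Equiv.sigmaFiberEquiv f).symm
  rw [h1]
  calc ∑ b, Nat.card {a // f a = b} ≤ ∑ _b : β, n := Finset.sum_le_sum fun b _ => h b
    _ = Nat.card β * n := by
        rw [Finset.sum_const, smul_eq_mul, Finset.card_univ, Nat.card_eq_fintype_card]

/-- The data of the symbols between the directions. -/
abbrev DirD (l m : ℕ) (V1 : Type) : Type :=
  (Dir m × Dir m → ZMod l) × (Dir m × Dir m → V1 → V1) × (Dir m → V1 → V1)

/-- The bound for the number of types. -/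
noncomputable def keyBound (l m R : ℕ) (V1 : Type) : ℕ :=
  Nat.card (DirD l m V1) * (2 ^ (2 ^ R * l ^ 2 ^ R)) ^ (m - 1)

namespace CData

variable {l : ℕ} {A G V V1 Pl : Type} [CommRing A] [Group G] [AddCommGroup V] [Module A V]
  [DistribMulAction G V] [AddCommGroup V1] [Module (ZMod l) V1]
  {S : Sys l A G V V1 Pl} {X : PSys} (cd : CData S X)
variable {J : Type} {m : ℕ}

open Classical in
/-- The symbols between the directions. -/
noncomputable def dirD (dir : Dir m ↪ J) (p : J → cd.Mk) : DirD l m V1 :=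
  (fun il => if il.1 = il.2 then 0 else cd.ch (p (dir il.1)).1 (cd.phx (p (dir il.2))),
    fun il w => if il.1 = il.2 then 0 else cd.bex (p (dir il.1)) w (cd.phx (p (dir il.2))),
    fun i w => cd.bex (p (dir i)) w (cd.phx (p (dir i))) -
      cd.ch (p (dir i)).1 (cd.phx (p (dir i))) • w)

theorem dirEq_iff (dir : Dir m ↪ J) (p p' : J → cd.Mk) :
    cd.DirEq dir p p' ↔ cd.dirD dir p = cd.dirD dir p' := by
  classical
  constructor
  · intro h
    refine Prod.ext (funext fun il => ?_) (Prod.ext (funext fun il => funext fun w => ?_)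
      (funext fun i => funext fun w => h.self i w))
    · unfold dirD
      simp only
      split_ifs with h1
      · rfl
      · exact h.ch _ _ h1
    · unfold dirD
      simp only
      split_ifs with h1
      · rfl
      · exact h.be _ _ h1 w
  · intro h
    refine ⟨fun i k hil => ?_, fun i k hil w => ?_, fun i w => ?_⟩
    · have h1 := congrFun (congrArg Prod.fst h) (i, k)
      unfold dirD at h1
      simpa only [if_neg hil] using h1
    · have h1 := congrFun (congrFun (congrArg (fun z => z.2.1) h) (i, k)) w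
      unfold dirD at h1
      simpa only [if_neg hil] using h1
    · exact congrFun (congrFun (congrArg (fun z => z.2.2) h) i) w

variable [Fintype J]

/-- The type of the keys: direction symbols, Selmer codes, relations below level `m`. -/
abbrev KeyT (J : Type) (m : ℕ) : Type := DirD l m V1 × Set (cd.CodeN J) × cd.LamT J m

/-- The key of a vector. -/
noncomputable def key (ex : J → ZMod l) (dir : Dir m ↪ J) (p : J → cd.Mk) : cd.KeyT J m :=
  (cd.dirD dir p, cd.FN ex p, fun i => cd.LamN ex p (i + 1))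

theorem typEqN_iff (ex : J → ZMod l) (dir : Dir m ↪ J) (p p' : J → cd.Mk) :
    cd.TypEqN ex dir p p' ↔ cd.key ex dir p = cd.key ex dir p' := by
  unfold TypEqN key
  rw [dirEq_iff]
  constructor
  · rintro ⟨h1, h2, h3⟩
    refine Prod.ext h1 (Prod.ext h2 (funext fun i => ?_))
    exact h3 (i + 1) (by omega) (by have := i.2; omega)
  · intro h
    refine ⟨congrArg Prod.fst h, congrArg (fun z => z.2.1) h, fun i h1 h2 => ?_⟩
    have h3 := congrFun (congrArg (fun z => z.2.2) h) ⟨i - 1, by omega⟩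
    simp only at h3
    rwa [Nat.sub_add_cancel h1] at h3

theorem lamOf_key (ex : J → ZMod l) (dir : Dir m ↪ J) (p : J → cd.Mk) {i : ℕ} (h1 : 1 ≤ i) (h2 : i < m) :
    cd.lamOf (cd.key ex dir p).2.2 i = cd.LamN ex p i := by
  unfold lamOf key
  rw [dif_pos (by omega)]
  simp only
  rw [Nat.sub_add_cancel h1]

theorem lflN_congr {F F' : Set (cd.CodeN J)}
    {Lam Lam' : ℕ → Set (cd.CodeN J × (cd.CodeN J → ZMod l))} (hF : F = F')
    (h : ∀ i, 1 ≤ i → i < m → Lam i = Lam' i) {i : ℕ} (hi : i ≤ m) :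
    cd.LflN F Lam i = cd.LflN F' Lam' i := by
  match i with
  | 0 => exact hF
  | 1 => exact hF
  | i + 2 =>
    change {a | (a, 0) ∈ Lam (i + 1)} = {a | (a, 0) ∈ Lam' (i + 1)}
    rw [h (i + 1) (by omega) (by omega)]

theorem perpN_congr {Lam Lam' : ℕ → Set (cd.CodeN J × (cd.CodeN J → ZMod l))}
    (h : ∀ i, 1 ≤ i → i < m → Lam i = Lam' i) (hm : 1 ≤ m) (b : cd.CodeN J) :
    cd.PerpN Lam (m - 1) b ↔ cd.PerpN Lam' (m - 1) b := by
  unfold PerpN
  constructor
  · intro h1 h2 y hy
    exact h1 h2 y (by rw [h (m - 1) h2 (by omega)]; exact hy)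
  · intro h1 h2 y hy
    exact h1 h2 y (by rw [← h (m - 1) h2 (by omega)]; exact hy)

theorem condB_congr (d : Bool) {F F' : Set (cd.CodeN J)}
    {Lam Lam' : ℕ → Set (cd.CodeN J × (cd.CodeN J → ZMod l))} (hF : F = F')
    (h : ∀ i, 1 ≤ i → i < m → Lam i = Lam' i) (hm : 1 ≤ m) (a b : cd.CodeN J) :
    cd.CondB d F Lam m a b ↔ cd.CondB d F' Lam' m a b := by
  unfold CondB
  rw [cd.lflN_congr hF h le_rfl, cd.perpN_congr h hm, hF]

theorem nzOfN_congr {F F' : Set (cd.CodeN J)}
    {Lam Lam' : ℕ → Set (cd.CodeN J × (cd.CodeN J → ZMod l))} (hF : F = F')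
    (h : ∀ i, 1 ≤ i → i < m → Lam i = Lam' i) : cd.nzOfN F Lam (m - 1) = cd.nzOfN F' Lam' (m - 1) := by
  unfold nzOfN
  refine Finset.prod_congr rfl fun k hk => ?_
  rw [cd.lflN_congr (m := m) hF h (by rw [mem_range] at hk; omega)]

theorem suppB_congr (d : Bool) {F F' : Set (cd.CodeN J)} {L L' : ℕ → Set (cd.CodeN J)}
    {a b : cd.CodeN J} {dir : Dir m ↪ J} (hF : F = F') (h : ∀ i, 1 ≤ i → i ≤ m → L i = L' i)
    (hs : cd.SuppB d F L m a b dir) : cd.SuppB d F' L' m a b dir := by
  subst hF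
  cases d with
  | false =>
    obtain ⟨s⟩ := hs
    exact ⟨{ s with
      adapted := fun i h1 h2 x hx => by
        have h3 := s.adapted i h1 h2 x (by rw [h i h1 h2]; exact hx)
        rw [h i h1 h2] at h3
        exact h3 }⟩
  | true =>
    obtain ⟨s⟩ := hs
    exact ⟨{ s with
      adapted := fun i h1 h2 x hx => by
        have h3 := s.adapted i h1 h2 x (by rw [h i h1 h2]; exact hx)
        rw [h i h1 h2] at h3
        exact h3 }⟩

theorem scB_congr (d : Bool) {F F' : Set (cd.CodeN J)}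
    {Lam Lam' : ℕ → Set (cd.CodeN J × (cd.CodeN J → ZMod l))} (hF : F = F')
    (h : ∀ i, 1 ≤ i → i < m → Lam i = Lam' i) (B : Set J) (a b : cd.CodeN J) :
    cd.ScB d F Lam B m a b = cd.ScB d F' Lam' B m a b := by
  ext dir
  have h1 : ∀ i, 1 ≤ i → i ≤ m → cd.LflN F Lam i = cd.LflN F' Lam' i := fun i _ hi =>
    cd.lflN_congr (m := m) hF h hi
  constructor
  · rintro ⟨h2, h3⟩
    exact ⟨h2, cd.suppB_congr d hF h1 h3⟩
  · rintro ⟨h2, h3⟩
    exact ⟨h2, cd.suppB_congr d hF.symm (fun i hi hi' => (h1 i hi hi').symm) h3⟩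

theorem nZN_eq {ex : J → ZMod l} {p : J → cd.Mk} (h : cd.LFactsN ex p) (i : ℕ) :
    cd.nZN ex p i = cd.nzOfN (cd.FN ex p) (cd.LamN ex p) i := by
  induction i with
  | zero => simp [nzOfN, h.card_zero]
  | succ i ih => rw [h.card_succ, ih, nzOfN, nzOfN, Finset.prod_range_succ]

theorem lflN_sub (ex : J → ZMod l) (p : J → cd.Mk) (i : ℕ) : cd.LflN (cd.FN ex p) (cd.LamN ex p) i ⊆ cd.FN ex p := by
  match i with
  | 0 => exact subset_rfl
  | 1 => exact subset_rfl
  | i + 2 =>
    intro a ha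
    exact ha.1

theorem nZN_le [NeZero l] [Finite V1] {ex : J → ZMod l} {p : J → cd.Mk} (h : cd.LFactsN ex p) {N : ℕ}
    (hN : Nat.card (cd.FN ex p) ≤ N) (i : ℕ) : cd.nZN ex p i ≤ N ^ i := by
  rw [nZN_eq cd h, nzOfN]
  refine le_trans (Finset.prod_le_prod (fun _ _ => Nat.zero_le _) (g := fun _ => N) ?_) ?_
  · intro k _
    exact le_trans (Nat.card_mono (Set.toFinite _) (cd.lflN_sub ex p _)) hN
  · rw [Finset.prod_const, Finset.card_range]

/-- The possible relations over `F`. -/
def RelA {l : ℕ} {E : Type} (F : Set E) : Set (E × (E → ZMod l)) := {y | y.1 ∈ F ∧ ∀ c, c ∉ F → y.2 c = 0}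

theorem card_RelA {l : ℕ} [NeZero l] {E : Type} [Finite E] (F : Set E) {N : ℕ} (hF : Nat.card F ≤ N) :
    Nat.card (RelA (l := l) F) ≤ N * l ^ N := by
  classical
  have : Finite (F × (F → ZMod l)) := inferInstance
  let f : RelA (l := l) F → F × (F → ZMod l) := fun y => (⟨y.1.1, y.2.1⟩, fun c => y.1.2 c)
  have hf : Function.Injective f := by
    rintro ⟨⟨a, g⟩, h1, h2⟩ ⟨⟨a', g'⟩, h1', h2'⟩ h
    simp only [f, Prod.mk.injEq, Subtype.mk.injEq, funext_iff, Subtype.forall] at h
    simp only [Subtype.mk.injEq, Prod.mk.injEq]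
    refine ⟨h.1, funext fun c => ?_⟩
    by_cases hc : c ∈ F
    · exact h.2 c hc
    · exact (h2 c hc).trans (h2' c hc).symm
  refine le_trans (Nat.card_le_card_of_injective f hf) ?_
  rw [Nat.card_prod, Nat.card_fun, Nat.card_zmod]
  exact Nat.mul_le_mul hF (Nat.pow_le_pow_right (NeZero.pos l) hF)

theorem lamN_sub (ex : J → ZMod l) (p : J → cd.Mk) (i : ℕ) : cd.LamN ex p i ⊆ RelA (cd.FN ex p) := by
  rintro y ⟨h1, _, _, _, h4⟩
  exact ⟨h1, h4⟩

theorem card_subsets {α : Type} [Finite α] (A : Set α) :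
    Nat.card {S : Set α // S ⊆ A} = 2 ^ Nat.card A := by
  classical
  have e : {S : Set α // S ⊆ A} ≃ Set A :=
    { toFun := fun S => {x | (x : α) ∈ S.1}
      invFun := fun T => ⟨Subtype.val '' T, by rintro _ ⟨x, _, rfl⟩; exact x.2⟩
      left_inv := fun S => by
        ext x
        constructor
        · rintro ⟨y, hy, rfl⟩
          exact hy
        · intro hx
          exact ⟨⟨x, S.2 hx⟩, hx, rfl⟩
      right_inv := fun T => by
        ext x
        simp }
  have : Fintype A := Fintype.ofFinite _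
  rw [Nat.card_congr e, Nat.card_eq_fintype_card, Fintype.card_set, Nat.card_eq_fintype_card]

/-- A set of keys in which the Selmer codes are a function of the direction symbols is small. -/
theorem card_keys [NeZero l] [Finite V1] (Q : cd.KeyT J m → Prop) (R : ℕ)
    (hQ1 : ∀ c, Q c → Nat.card c.2.1 ≤ 2 ^ R ∧ ∀ i, c.2.2 i ⊆ RelA c.2.1)
    (hQ2 : ∀ c c', Q c → Q c' → c.1 = c'.1 → c.2.1 = c'.2.1) :
    Nat.card {c // Q c} ≤ keyBound l m R V1 := by
  classical
  have hE : Finite (cd.CodeN J) := inferInstance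
  have : Finite (cd.KeyT J m) := inferInstance
  unfold keyBound
  refine card_le_fibres (fun c : {c // Q c} => c.1.1) _ fun d => ?_
  by_cases hne : Nonempty {c : {c // Q c} // c.1.1 = d}
  · obtain ⟨c0⟩ := hne
    set F := c0.1.1.2.1 with hF
    let f : {c : {c // Q c} // c.1.1 = d} → (Fin (m - 1) → {T : Set _ // T ⊆ RelA F}) :=
      fun c i => ⟨c.1.1.2.2 i, by
        have h1 := (hQ1 c.1.1 c.1.2).2 i
        rwa [hQ2 c.1.1 c0.1.1 c.1.2 c0.1.2 (c.2.trans c0.2.symm)] at h1⟩
    have hf : Function.Injective f := by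
      intro c c' h
      apply Subtype.ext
      apply Subtype.ext
      refine Prod.ext (c.2.trans c'.2.symm) (Prod.ext ?_ (funext fun i => ?_))
      · exact hQ2 _ _ c.1.2 c'.1.2 (c.2.trans c'.2.symm)
      · exact congrArg Subtype.val (congrFun h i)
    refine le_trans (Nat.card_le_card_of_injective f hf) ?_
    rw [Nat.card_fun, card_subsets, Nat.card_eq_fintype_card (α := Fin (m - 1)), Fintype.card_fin]
    refine Nat.pow_le_pow_left (Nat.pow_le_pow_right two_pos ?_) _
    exact card_RelA F (hQ1 c0.1.1 c0.1.2).1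
  · rw [not_nonempty_iff] at hne
    rw [Nat.card_of_isEmpty]
    exact Nat.zero_le _

end CData

end Pool.Agent.SmL
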