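import Pool.Agent.Lib.SmL.L.Cmp2
import Pool.Agent.Lib.SmL.V.Tor

/-!
# SMITH-L (odd prime `l`), finite level part: the points over `K` and over the extension cut out by
`chi`

`A` is a `G`-module (`A = E(Ω)`), `M = lPow l A`. `invA A chi` = the elements fixed by the kernel of
`chi` (`E(L)`). `kum_bound`: if the Selmer cocycles of the twist are bounded, there is `n > 0` such that
`n (g P - P)` is divisible by every power of `l` in `E(L)` for all `P` in `E(L)` and `g` in `G`.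
-/

set_option autoImplicit false

open Finset

namespace Pool.Agent.SmL.L

open Pool.Agent.SmL.V

variable {l : ℕ} {G A V1 Pl : Type*} [Group G] [AddCommGroup A] [DistribMulAction G A]
  [AddCommGroup V1] [Module (ZMod l) V1] {S : Sys l (AA l) G (VM l (lPow l A)) V1 Pl}
  {i1 : V1 →+ lPow l A} {chi : G → ZMod l}

/-- The elements fixed by the kernel of `chi`. -/
def invA (A : Type*) [AddCommGroup A] [DistribMulAction G A] (chi : G → ZMod l) : AddSubgroup A where
  carrier := {P | ∀ s, chi s = 0 → s • P = P}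
  zero_mem' := fun s _ => smul_zero s
  add_mem' {P Q} hP hQ := fun s hs => by rw [smul_add, hP s hs, hQ s hs]
  neg_mem' {P} hP := fun s hs => by rw [smul_neg, hP s hs]

/-- The hypotheses on `A`. -/
structure KumH (S : Sys l (AA l) G (VM l (lPow l A)) V1 Pl) (chi : G → ZMod l) : Prop where
  div : ∀ P : A, ∃ Q, l • Q = P
  e6 : ∀ v (g : G) (j : ℕ) (Q : A),
    (∀ s, chi s = 0 → g⁻¹ * s * g ∈ S.D v → l ^ j • (s • Q - Q) = 0) →
    ∃ Q' : lPow l A, ∀ s, chi s = 0 → g⁻¹ * s * g ∈ S.D v → s • Q - Q = s • (Q' : A) - Q'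
  lev : ∀ (j : ℕ) (Q : A), (∀ s, chi s = 0 → l ^ j • (s • Q - Q) = 0) →
    ∃ N ∈ S.NN, (∀ n ∈ N, chi n = 0) ∧ ∀ n ∈ N, n • Q = Q

open Classical in
/-- The Kummer cocycle of `Q`. -/
noncomputable def kc (l : ℕ) (chi : G → ZMod l) (Q : A) (s : G) : lPow l A :=
  if h : chi s = 0 ∧ s • Q - Q ∈ lPow l A then ⟨s • Q - Q, h.2⟩ else 0

theorem kc_val {Q : A} {s : G} (h0 : chi s = 0) (h : s • Q - Q ∈ lPow l A) :
    (kc l chi Q s : A) = s • Q - Q := by
  unfold kc
  rw [dif_pos ⟨h0, h⟩]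

theorem kc_zero {Q : A} {s : G} (h0 : chi s ≠ 0) : kc l chi Q s = 0 := by
  unfold kc
  rw [dif_neg fun h => h0 h.1]

theorem pow_div' (hd : ∀ P : A, ∃ P', l • P' = P) (n : ℕ) (P : A) : ∃ P', l ^ n • P' = P :=
  pow_div hd n P

theorem mem_of_inv {i : ℕ} {Q : A} (hQ : l ^ i • Q ∈ invA A chi) {s : G} (hs : chi s = 0) :
    l ^ i • (s • Q - Q) = 0 := by
  rw [smul_sub, smul_comm, hQ s hs, sub_self]

/-- The Kummer cocycle is a Selmer cocycle. -/
theorem kc_isL (hchi : ∀ s t, chi (s * t) = chi s + chi t) (hK : KumH S chi) {i : ℕ} {Q : A}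
    (hQ : l ^ i • Q ∈ invA A chi) : IsL S chi i (kc l chi Q) := by
  have hm : ∀ s, chi s = 0 → s • Q - Q ∈ lPow l A := fun s hs => ⟨i, mem_of_inv hQ hs⟩
  refine ⟨fun s hs => kc_zero hs, ?_, fun s t hs ht => ?_, fun s => ?_, fun v g => ?_⟩
  · obtain ⟨N, hN, h0, h1⟩ := hK.lev i Q fun s hs => mem_of_inv hQ hs
    refine ⟨N, hN, h0, fun s hs n hn => ?_⟩
    have hsn : chi (s * n) = 0 := by rw [hchi, hs, h0 n hn, add_zero]
    apply Subtype.ext
    rw [kc_val hsn (hm _ hsn), kc_val hs (hm s hs), mul_smul, h1 n hn]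
  · have hst : chi (s * t) = 0 := by rw [hchi, hs, ht, add_zero]
    apply Subtype.ext
    rw [AddSubgroup.coe_add, val_smul, kc_val hst (hm _ hst), kc_val hs (hm s hs),
      kc_val ht (hm t ht), smul_sub, mul_smul]
    abel
  · by_cases hs : chi s = 0
    · apply Subtype.ext
      rw [AddSubgroup.coe_nsmul, kc_val hs (hm s hs), mem_of_inv hQ hs]
      rfl
    · rw [kc_zero hs, smul_zero]
  · obtain ⟨Q', hQ'⟩ := hK.e6 v g i Q fun s hs _ => mem_of_inv hQ hs
    refine ⟨Q', fun s hs hg => ?_⟩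
    apply Subtype.ext
    rw [kc_val hs (hm s hs), AddSubgroup.coe_sub, val_smul]
    exact hQ' s hs hg

theorem kc_sub {i : ℕ} {Q Q' : A} (hQ : l ^ i • Q ∈ invA A chi) (hQ' : l ^ i • Q' ∈ invA A chi) :
    kc l chi (Q - Q') = kc l chi Q - kc l chi Q' := by
  funext s
  by_cases hs : chi s = 0
  · have h1 : s • Q - Q ∈ lPow l A := ⟨i, mem_of_inv hQ hs⟩
    have h2 : s • Q' - Q' ∈ lPow l A := ⟨i, mem_of_inv hQ' hs⟩
    have h3 : s • (Q - Q') - (Q - Q') = (s • Q - Q) - (s • Q' - Q') := by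
      rw [smul_sub]; abel
    apply Subtype.ext
    rw [Pi.sub_apply, AddSubgroup.coe_sub, kc_val hs (by rw [h3]; exact (lPow l A).sub_mem h1 h2),
      kc_val hs h1, kc_val hs h2, h3]
  · rw [Pi.sub_apply, kc_zero hs, kc_zero hs, kc_zero hs, sub_self]

/-- If the Kummer cocycle is the restriction of a cocycle of `G` then `g P - P` is divisible. -/
theorem div_of_res (hchi : ∀ s t, chi (s * t) = chi s + chi t) {i : ℕ} {Q : A}
    (hQ : l ^ i • Q ∈ invA A chi) {b : G → lPow l A} (hb : IsR S chi i b)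
    (h : rs chi b = kc l chi Q) (g : G) :
    ∃ T ∈ invA A chi, l ^ i • T = g • (l ^ i • Q) - l ^ i • Q := by
  have hres : ∀ s, chi s = 0 → (b s : A) = s • Q - Q := fun s hs => by
    rw [← rs_apply (b := b) hs, h, kc_val hs ⟨i, mem_of_inv hQ hs⟩]
  refine ⟨g • Q - b g - Q, fun s hs => ?_, ?_⟩
  · have h3 : chi (g⁻¹ * s * g) = 0 := by
      have := chi_conj hchi g⁻¹ s
      rw [inv_inv] at this
      rw [this, hs]
    have h2 : s * g = g * (g⁻¹ * s * g) := by group
    have h4 : (b (s * g) : A) = (s • Q - Q) + s • (b g : A) := by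
      rw [hb.coc, AddSubgroup.coe_add, val_smul, hres s hs]
    have h5 : (b (s * g) : A) = b g + ((s * g) • Q - g • Q) := by
      rw [h2, hb.coc, AddSubgroup.coe_add, val_smul, hres _ h3, smul_sub, smul_smul, ← h2]
    rw [h5] at h4
    have h6 : s • (b g : A) = b g + ((s * g) • Q - g • Q) - (s • Q - Q) := by
      rw [h4]; abel
    rw [smul_sub, smul_sub, h6, mul_smul]
    abel
  · have h1 : l ^ i • (b g : A) = 0 := congrArg Subtype.val (hb.lev g)
    rw [smul_sub, smul_sub, h1, sub_zero, smul_comm g (l ^ i)]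

/-- **The Kummer bound.** -/
theorem kum_bound (hchi : ∀ s t, chi (s * t) = chi s + chi t) (hK : KumH S chi) {X : Type*}
    [Finite X] (F : ∀ i, {c // IsL S chi i c} → X)
    (hF : ∀ i c c', F i c = F i c' → ∃ b, IsR S chi i b ∧ rs chi b = c.1 - c'.1) :
    ∃ n : ℕ, 0 < n ∧ ∀ P ∈ invA A chi, ∀ (g : G) (i : ℕ),
      ∃ T ∈ invA A chi, l ^ i • T = n • (g • P - P) := by
  classical
  have := Fintype.ofFinite X
  refine ⟨(Fintype.card X).factorial, Nat.factorial_pos _, fun P hP g i => ?_⟩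
  choose Q hQ using fun j : ℕ => pow_div' hK.div i (j • P)
  have hQi : ∀ j, l ^ i • Q j ∈ invA A chi := fun j => by
    rw [hQ]
    exact (invA A chi).nsmul_mem hP j
  obtain ⟨j, k, hjk, hjk'⟩ := Fintype.exists_ne_map_eq_of_card_lt
    (fun j : Fin (Fintype.card X + 1) => F i ⟨kc l chi (Q j), kc_isL hchi hK (hQi j)⟩) (by simp)
  -- the larger one first
  have key : ∀ j k : Fin (Fintype.card X + 1), (j : ℕ) < k →
      F i ⟨kc l chi (Q k), kc_isL hchi hK (hQi k)⟩ = F i ⟨kc l chi (Q j), kc_isL hchi hK (hQi j)⟩ →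
      ∃ T ∈ invA A chi, l ^ i • T = (Fintype.card X).factorial • (g • P - P) := by
    intro j k hlt heq
    obtain ⟨b, hb, hb'⟩ := hF i _ _ heq
    rw [← kc_sub (hQi k) (hQi j)] at hb'
    obtain ⟨d, hd⟩ := Nat.exists_eq_add_of_lt hlt
    have h1 : l ^ i • (Q k - Q j) = (d + 1) • P := by
      rw [smul_sub, hQ, hQ, hd, add_assoc, add_smul, add_sub_cancel_left]
    have hmem : l ^ i • (Q k - Q j) ∈ invA A chi := by
      rw [h1]
      exact (invA A chi).nsmul_mem hP _
    obtain ⟨T, hT, hT'⟩ := div_of_res hchi hmem hb hb' g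
    rw [h1] at hT'
    have hdvd : d + 1 ∣ (Fintype.card X).factorial :=
      Nat.dvd_factorial (Nat.succ_pos d) (by have := k.2; omega)
    obtain ⟨e, he⟩ := hdvd
    refine ⟨e • T, (invA A chi).nsmul_mem hT e, ?_⟩
    rw [smul_comm, hT', he, mul_comm, mul_smul, smul_sub (d + 1), smul_comm g (d + 1)]
  rcases lt_or_gt_of_ne (fun h => hjk (Fin.ext h) : (j : ℕ) ≠ k) with h | h
  · exact key j k h hjk'.symm
  · exact key k j h hjk'

end Pool.Agent.SmL.L
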