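import Pool.Agent.Lib.SmL.L.Base
import Pool.Agent.Lib.SmL.L.Emb

/-!
# SMITH-L, block L: the number of the admissible choices of the directions
-/

set_option autoImplicit false

open Finset

namespace Pool.Agent.SmL.CData

variable {l : ℕ} {A G V V1 Pl : Type} [CommRing A] [Group G] [AddCommGroup V] [Module A V]
  [DistribMulAction G V] [AddCommGroup V1] [Module (ZMod l) V1]
  {S : Sys l A G V V1 Pl} {X : PSys} (cd : CData S X)

/-- Two vectors with pairing `1`. -/
theorem exists_pair [Nontrivial V1] (hS : S.Ok) : ∃ e e' : V1, S.e e e' = 1 := by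
  obtain ⟨e, he0⟩ := exists_ne (0 : V1)
  have : Fact l.Prime := ⟨hS.prime⟩
  obtain ⟨e', he'⟩ : ∃ e', S.e e e' ≠ 0 := by
    by_contra h
    push Not at h
    exact he0 (hS.e_nondeg e h)
  refine ⟨e, (S.e e e')⁻¹ • e', ?_⟩
  rw [map_smul, smul_eq_mul, inv_mul_cancel₀ he']

/-- **The number of the admissible choices of the directions** at a typical vector, independent
pairs. -/
theorem card_ScN_ge [Nontrivial V1] (hS : S.Ok) {J : Type} [Fintype J] {ex : J → ZMod l}
    {p : J → cd.Mk} {R N m : ℕ} {ρ : ℝ} (ht : cd.TypF ex p R ρ N)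
    {Lam : ℕ → Set (cd.CodeN J × (cd.CodeN J → ZMod l))} {a b : cd.CodeN J}
    (B : cd.BasN (cd.FN ex p) (cd.LflN (cd.FN ex p) Lam) m a b) :
    (⌈ρ * Nat.card J⌉₊ - (m + 2)) ^ (m + 2) ≤
      Nat.card (cd.ScB false (cd.FN ex p) Lam (cd.Lsp p N) m a b) := by
  classical
  obtain ⟨e, e', hpair⟩ := exists_pair hS
  have hgen := ht.generic B.r B.c B.mem (fun α hα => B.indep α hα.choose hα.choose_spec)
  -- the patterns
  let W : Dir m → Fin B.r → V1 := fun x => match x with
    | none => fun k => if k = B.l0 then e' else 0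
    | some none => fun k => if k = B.l1 then e else 0
    | some (some _) => fun _ => 0
  let A : Dir m → Set J := fun x => {j | j ∈ cd.Lsp p N ∧ ∀ k, (B.c k).2 j = W x k}
  have hA : ∀ x, ⌈ρ * Nat.card J⌉₊ ≤ Nat.card (A x) := fun x => Nat.ceil_le.mpr (hgen (W x))
  have h1 := card_emb_ge A _ hA
  have h2 : Fintype.card (Dir m) = m + 2 := by
    rw [Fintype.card_option, Fintype.card_option, Fintype.card_fin]
  rw [h2] at h1
  refine h1.trans ?_
  refine Nat.card_le_card_of_injective (fun f => (⟨f.1, fun i => (f.2 i).1, ⟨{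
    r := B.r
    c := B.c
    l1 := B.l1
    l0 := B.l0
    e := e
    e' := e'
    ne := B.ne
    c_l1 := B.c_l1
    mem := B.mem
    span := B.span
    indep := B.indep
    adapted := B.adapted
    β := B.β
    b_eq := B.b_eq
    β_l1 := B.β_l1
    β_l0 := B.β_l0
    supp0 := fun k i => (f.2 (some (some i))).2 k
    suppa := fun k => (f.2 (some none)).2 k
    suppb := fun k => (f.2 none).2 k
    pair := hpair }⟩⟩ : cd.ScB false (cd.FN ex p) Lam (cd.Lsp p N) m a b)) ?_
  intro f g h
  have h3 : f.1 = g.1 := congrArg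
    (fun z : cd.ScB false (cd.FN ex p) Lam (cd.Lsp p N) m a b => z.1) h
  exact Subtype.ext h3

/-- **The number of the admissible choices of the directions** at a typical vector, diagonal
pairs. -/
theorem card_ScD_ge [Nontrivial V1] (hS : S.Ok) {J : Type} [Fintype J] {ex : J → ZMod l}
    {p : J → cd.Mk} {R N m : ℕ} {ρ : ℝ} (ht : cd.TypF ex p R ρ N)
    {Lam : ℕ → Set (cd.CodeN J × (cd.CodeN J → ZMod l))} {a b : cd.CodeN J}
    (B : cd.BasD (cd.FN ex p) (cd.LflN (cd.FN ex p) Lam) m a) :
    (⌈ρ * Nat.card J⌉₊ - (m + 2)) ^ (m + 2) ≤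
      Nat.card (cd.ScB true (cd.FN ex p) Lam (cd.Lsp p N) m a b) := by
  classical
  obtain ⟨e, e', hpair⟩ := exists_pair hS
  have hgen := ht.generic B.r B.c B.mem (fun α hα => B.indep α hα.choose hα.choose_spec)
  -- the patterns
  let W : Dir m → Fin B.r → V1 := fun x => match x with
    | none => fun k => if k = B.l1 then e' else 0
    | some none => fun k => if k = B.l1 then e else 0
    | some (some _) => fun _ => 0
  let A : Dir m → Set J := fun x => {j | j ∈ cd.Lsp p N ∧ ∀ k, (B.c k).2 j = W x k}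
  have hA : ∀ x, ⌈ρ * Nat.card J⌉₊ ≤ Nat.card (A x) := fun x => Nat.ceil_le.mpr (hgen (W x))
  have h1 := card_emb_ge A _ hA
  have h2 : Fintype.card (Dir m) = m + 2 := by
    rw [Fintype.card_option, Fintype.card_option, Fintype.card_fin]
  rw [h2] at h1
  refine h1.trans ?_
  refine Nat.card_le_card_of_injective (fun f => (⟨f.1, fun i => (f.2 i).1, ⟨{
    r := B.r
    c := B.c
    l1 := B.l1
    e := e
    e' := e'
    c_l1 := B.c_l1
    mem := B.mem
    span := B.span
    indep := B.indep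
    adapted := B.adapted
    supp0 := fun k i => (f.2 (some (some i))).2 k
    suppa := fun k => (f.2 (some none)).2 k
    suppb := fun k => (f.2 none).2 k
    pair := hpair }⟩⟩ : cd.ScB true (cd.FN ex p) Lam (cd.Lsp p N) m a b)) ?_
  intro f g h
  have h3 : f.1 = g.1 := congrArg
    (fun z : cd.ScB true (cd.FN ex p) Lam (cd.Lsp p N) m a b => z.1) h
  exact Subtype.ext h3

/-- **The number of the admissible choices of the directions** at a typical vector. -/
theorem card_ScB_ge [Nontrivial V1] (d : Bool) (hS : S.Ok) {J : Type} [Fintype J]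
    {ex : J → ZMod l} {p : J → cd.Mk} {R N m : ℕ} {ρ : ℝ} (hm : 1 ≤ m)
    (hL : cd.LFactsN ex p) (ht : cd.TypF ex p R ρ N) {a b : cd.CodeN J}
    (hcond : cd.CondB d (cd.FN ex p) (cd.LamN ex p) m a b) :
    (⌈ρ * Nat.card J⌉₊ - (m + 2)) ^ (m + 2) ≤
      Nat.card (cd.ScB d (cd.FN ex p) (cd.LamN ex p) (cd.Lsp p N) m a b) := by
  cases d with
  | false =>
    obtain ⟨B⟩ := hL.basis m hm a hcond.1 b hcond.2.1 hcond.2.2.1
    exact cd.card_ScN_ge hS ht B
  | true =>
    obtain ⟨B⟩ := hL.basisD m hm a hcond.1 hcond.2.2.1.1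
    exact cd.card_ScD_ge hS ht B

end Pool.Agent.SmL.CData
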