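import Pool.Agent.Lib.SmL.L.Base

/-!
# SMITH-L, block L: few points of a grid have a small big class in a large direction
-/

set_option autoImplicit false

open Finset

namespace Pool.Agent.SmL

theorem card_small_fib {Y β : Type*} [Finite Y] [Finite β] (f : Y → β) (M : ℝ) (hM : 0 ≤ M) :
    (Nat.card {y // (Nat.card {y' // f y' = f y} : ℝ) < M} : ℝ) ≤ Nat.card β * M := by
  classical
  have := Fintype.ofFinite Y
  have := Fintype.ofFinite β
  rw [Nat.card_eq_fintype_card, Fintype.card_subtype,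
    Finset.card_eq_sum_card_fiberwise (f := f) (t := univ) (fun _ _ => by simp),
    Nat.card_eq_fintype_card, Nat.cast_sum, ← nsmul_eq_mul, ← Finset.card_univ]
  apply Finset.sum_le_card_nsmul
  intro b _
  rcases Finset.eq_empty_or_nonempty
    ((univ.filter fun y => (Nat.card {y' // f y' = f y} : ℝ) < M).filter fun y => f y = b)
    with h | ⟨y, hy⟩
  · rw [h]; simpa using hM
  · simp only [mem_filter, mem_univ, true_and] at hy
    obtain ⟨h1, h2⟩ := hy
    refine le_trans ?_ h1.le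
    rw [Nat.card_eq_fintype_card, Fintype.card_subtype]
    gcongr
    intro y' hy'
    simp only [mem_filter, mem_univ, true_and] at hy' ⊢
    rw [hy'.2, h2]

theorem card_prod_le {A B : Type*} [Finite A] [Finite B] (P : A × B → Prop) (c : ℝ)
    (h : ∀ b, (Nat.card {a // P (a, b)} : ℝ) ≤ c) :
    (Nat.card {z // P z} : ℝ) ≤ Nat.card B * c := by
  classical
  have := Fintype.ofFinite A
  have := Fintype.ofFinite B
  rw [Nat.card_eq_fintype_card, Fintype.card_subtype,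
    Finset.card_eq_sum_card_fiberwise (f := Prod.snd) (t := univ) (fun _ _ => by simp),
    Nat.card_eq_fintype_card, Nat.cast_sum, ← nsmul_eq_mul, ← Finset.card_univ]
  apply Finset.sum_le_card_nsmul
  intro b _
  refine le_trans ?_ (h b)
  rw [Nat.card_eq_fintype_card, Fintype.card_subtype]
  norm_cast
  apply Finset.card_le_card_of_injOn Prod.fst
  · intro z hz
    simp only [mem_filter, mem_univ, true_and, Finset.coe_filter, Set.mem_ofPred_eq] at hz ⊢
    have : (z.1, b) = z := by rw [← hz.2]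
    rw [this]; exact hz.1
  · intro z hz z' hz' he
    simp only [mem_filter, mem_univ, true_and, Finset.coe_filter, Set.mem_ofPred_eq] at hz hz'
    exact Prod.ext he (hz.2.trans hz'.2.symm)

/-- The analytic estimate. -/
theorem small_est (c K ε : ℝ) (hc : 0 ≤ c) (hK : 0 ≤ K) (hε : 0 < ε) (a : ℝ) (ha : 0 < a) :
    ∃ t₀ : ℕ, ∀ t : ℕ, t₀ ≤ t → ∀ L : ℝ, 0 ≤ L → L ^ 3 ≤ t + 1 →
      K * (t * Real.exp (c * L)) ≤ ε * Real.exp (a * t) := by
  set δ := a / 2 with hδ
  have hδ0 : 0 < δ := by positivity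
  set s := √(c / δ) with hs
  have hs2 : s ^ 2 = c / δ := Real.sq_sqrt (by positivity)
  have hs0 : 0 ≤ s := Real.sqrt_nonneg _
  have key : ∀ L : ℝ, 0 ≤ L → c * L ≤ δ * L ^ 3 + c * s := by
    intro L hL
    rcases le_total L s with h | h
    · have : c * L ≤ c * s := mul_le_mul_of_nonneg_left h hc
      have : 0 ≤ δ * L ^ 3 := by positivity
      linarith
    · have h1 : c ≤ δ * L ^ 2 := by
        have : s ^ 2 ≤ L ^ 2 := by gcongr
        rw [hs2, div_le_iff₀ hδ0] at this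
        linarith
      have h2 : c * L ≤ δ * L ^ 2 * L := mul_le_mul_of_nonneg_right h1 hL
      have : 0 ≤ c * s := by positivity
      nlinarith
  have ht := Real.tendsto_pow_mul_exp_neg_atTop_nhds_zero 1
  have ht2 : Filter.Tendsto (fun t : ℕ => ((δ * (t : ℝ)) ^ 1 * Real.exp (-(δ * (t : ℝ)))))
      Filter.atTop (nhds 0) :=
    ht.comp ((tendsto_natCast_atTop_atTop (R := ℝ)).const_mul_atTop hδ0)
  set ε₁ := ε * δ / ((K + 1) * Real.exp (c * s + δ)) with hε₁
  have hε₁0 : 0 < ε₁ := by positivity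
  obtain ⟨t₀, h₀⟩ := Filter.eventually_atTop.1 (ht2.eventually_lt_const hε₁0)
  refine ⟨t₀, fun t htt L hL hLt => ?_⟩
  have h1 := h₀ t htt
  rw [pow_one] at h1
  have h2 : Real.exp (c * L) ≤ Real.exp (c * s + δ) * Real.exp (δ * t) := by
    rw [← Real.exp_add]
    apply Real.exp_le_exp.2
    have := key L hL
    nlinarith
  have h3 : (δ * (t : ℝ)) < ε₁ * Real.exp (δ * t) := by
    rw [Real.exp_neg] at h1
    rwa [← div_eq_mul_inv, div_lt_iff₀ (Real.exp_pos _)] at h1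
  have h4 : Real.exp (a * t) = Real.exp (δ * t) * Real.exp (δ * t) := by
    rw [← Real.exp_add]; congr 1; rw [hδ]; ring
  rw [h4]
  have ht0 : (0 : ℝ) ≤ t := Nat.cast_nonneg t
  calc K * (t * Real.exp (c * L))
      ≤ K * (t * (Real.exp (c * s + δ) * Real.exp (δ * t))) := by gcongr
    _ ≤ (K + 1) * (t * (Real.exp (c * s + δ) * Real.exp (δ * t))) := by
        gcongr; linarith
    _ = (K + 1) * Real.exp (c * s + δ) / δ * (δ * t) * Real.exp (δ * t) := by
        field_simp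
    _ ≤ (K + 1) * Real.exp (c * s + δ) / δ * (ε₁ * Real.exp (δ * t)) * Real.exp (δ * t) := by
        gcongr
    _ = ε * (Real.exp (δ * t) * Real.exp (δ * t)) := by
        rw [hε₁]; field_simp

namespace CData

variable {l : ℕ} {A G V V1 Pl : Type} [CommRing A] [Group G] [AddCommGroup V] [Module A V]
  [DistribMulAction G V] [AddCommGroup V1] [Module (ZMod l) V1]
  {S : Sys l A G V V1 Pl} {X : PSys} (cd : CData S X)

open Classical in
/-- The class of `y` relative to the entries of `p`. -/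
noncomputable def clsOf {J : Type} (p : J → cd.Mk) (y : cd.Mk) :
    cd.Kf × (J → ZMod l × (V1 → V1)) :=
  (cd.kf (cd.phx y), fun j => (cd.ch (p j).1 (cd.phx y),
    fun w => if cd.Fx (p j) w then cd.bex (p j) w (cd.phx y) else 0))

/-- The number of the classes is polynomial in `n`. -/
theorem card_cls [NeZero l] [Finite V1] [Finite cd.Kf] {J : Type} [Finite J] :
    Nat.card (cd.Kf × (J → ZMod l × (V1 → V1))) =
      Nat.card cd.Kf * (l * Nat.card V1 ^ Nat.card V1) ^ Nat.card J := by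
  rw [Nat.card_prod, Nat.card_fun, Nat.card_prod, Nat.card_fun, Nat.card_zmod]

theorem card_Of_ge {q : ℕ} (hX : X.Ok q) : ∃ t₀ : ℕ, ∀ t : ℕ, t₀ ≤ t →
    (q : ℝ) ^ t ≤ 2 * t * Nat.card (X.Of t) := by
  obtain ⟨C, hC⟩ := hX.pnt
  have hq : (2 : ℝ) ≤ q := by exact_mod_cast hX.two_le
  obtain ⟨t₁, ht₁⟩ := pow_unbounded_of_one_lt ((2 * |C|) ^ 2) (show (1 : ℝ) < 2 by norm_num)
  refine ⟨t₁ + 1, fun t ht => ?_⟩
  have h1 := hC t (by omega)
  have h2 : (2 * |C|) ^ 2 ≤ (q : ℝ) ^ t := by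
    refine ht₁.le.trans (le_trans (pow_le_pow_right₀ (by norm_num) (show t₁ ≤ t by omega)) ?_)
    gcongr
  have h3 : 2 * |C| ≤ √((q : ℝ) ^ t) := Real.le_sqrt_of_sq_le h2
  have h4 : √((q : ℝ) ^ t) * √((q : ℝ) ^ t) = (q : ℝ) ^ t := Real.mul_self_sqrt (by positivity)
  have h5 : 0 ≤ √((q : ℝ) ^ t) := Real.sqrt_nonneg _
  have h6 : C * √((q : ℝ) ^ t) ≤ |C| * √((q : ℝ) ^ t) :=
    mul_le_mul_of_nonneg_right (le_abs_self C) h5
  have h7 : 2 * |C| * √((q : ℝ) ^ t) ≤ √((q : ℝ) ^ t) * √((q : ℝ) ^ t) :=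
    mul_le_mul_of_nonneg_right h3 h5
  have h8 := (abs_le.1 h1).1
  nlinarith

/-- The marked primes of degree `t`. -/
abbrev AT (t : ℕ) : Type := X.Of t × {g : G // g ∈ cd.R}

theorem small_le [NeZero l] [Finite V1] {q : ℕ} (hX : X.Ok q) (hc : cd.Ok)
    (r0 : {g : G // g ∈ cd.R}) (m : ℕ) (ε' : ℝ) (hε' : 0 < ε') :
    ∃ n₀ : ℕ, ∀ n ≥ n₀, ∀ (Ds : Finset X.Pr) (T : Finset ℕ),
      ((Ds.card + T.card : ℕ) : ℝ) ≤ 2 * l * Real.log n → (∀ t ∈ T, N0 n ≤ t) →
      ∀ (dir : Dir m ↪ JG Ds T) (i : Dir m) (t : T), dir i = Sum.inr t →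
        (Nat.card {x : cd.MPts T // (Nat.card (cd.XB (cd.vec r0 Ds x) dir i) : ℝ) <
          (q : ℝ) ^ (9 * (t : ℕ) / 10)} : ℝ) ≤ ε' * Nat.card (cd.MPts T) := by
  classical
  have := hc.kf_fin
  have hq : (2 : ℝ) ≤ q := by exact_mod_cast hX.two_le
  have hq0 : (0 : ℝ) < q := by linarith
  set B : ℝ := ((l * Nat.card V1 ^ Nat.card V1 : ℕ) : ℝ) with hB
  have hl0 : 0 < l := NeZero.pos l
  have hV : 0 < Nat.card V1 := Nat.card_pos
  have hB1 : 1 ≤ B := by
    rw [hB]; exact_mod_cast (Nat.mul_pos hl0 (pow_pos hV _) : 0 < l * Nat.card V1 ^ Nat.card V1)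
  have hlB : 0 ≤ Real.log B := Real.log_nonneg hB1
  have hlq : 0 < Real.log q := Real.log_pos (by linarith)
  obtain ⟨t₀, ht₀⟩ := small_est (2 * l * Real.log B) (2 * Nat.card cd.Kf) ε'
    (by positivity) (by positivity) hε' (Real.log q / 10) (by positivity)
  obtain ⟨t₁, ht₁⟩ := card_Of_ge hX
  -- `N0 n ≥ t` for `n` large
  obtain ⟨n₀, hn₀⟩ : ∃ n₀ : ℕ, ∀ n ≥ n₀, max (max t₀ t₁) 1 ≤ N0 n := by
    have h : Filter.Tendsto (fun n : ℕ => Real.log n ^ 3) Filter.atTop Filter.atTop :=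
      (Filter.tendsto_pow_atTop (by norm_num)).comp
        (Real.tendsto_log_atTop.comp tendsto_natCast_atTop_atTop)
    obtain ⟨n₀, hn₀⟩ := Filter.eventually_atTop.1
      (h.eventually_ge_atTop ((max (max t₀ t₁) 1 : ℕ) : ℝ))
    exact ⟨n₀, fun n hn => Nat.le_floor (hn₀ n hn)⟩
  refine ⟨max n₀ 1, fun n hn Ds T hcard hT dir i t hit => ?_⟩
  have hn1 : 1 ≤ n := le_trans (le_max_right _ _) hn
  have hN := hn₀ n (le_trans (le_max_left _ _) hn)
  have htN : N0 n ≤ (t : ℕ) := hT t t.2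
  have ht0 : t₀ ≤ (t : ℕ) := le_trans (le_trans (le_max_left _ _) (le_max_left _ _)) (hN.trans htN)
  have ht1 : t₁ ≤ (t : ℕ) := le_trans (le_trans (le_max_right _ _) (le_max_left _ _)) (hN.trans htN)
  have htp : 1 ≤ (t : ℕ) := le_trans (le_max_right _ _) (hN.trans htN)
  have hL0 : 0 ≤ Real.log n := Real.log_nonneg (by exact_mod_cast hn1)
  have hL : Real.log n ^ 3 ≤ (t : ℕ) + 1 := by
    have h1 : Real.log n ^ 3 < N0 n + 1 := Nat.lt_floor_add_one _
    have h2 : (N0 n : ℝ) ≤ ((t : ℕ) : ℝ) := by exact_mod_cast htN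
    linarith
  have hest := ht₀ t ht0 (Real.log n) hL0 hL
  have hOf := ht₁ t ht1
  have : ∀ d, Finite (X.Of d) := hX.fin
  have : ∀ t' : T, Finite (X.Of t' × {g : G // g ∈ cd.R}) := fun t' => inferInstance
  -- split off the coordinate `t`
  obtain ⟨e, es1, es2⟩ : ∃ e : cd.MPts T ≃ cd.AT t × ((t' : {t' : T // t' ≠ t}) → cd.AT t'.1),
      (∀ a b, e.symm (a, b) t = a) ∧
      ∀ a b (t' : T) (h : t' ≠ t), e.symm (a, b) t' = b ⟨t', h⟩ := by
    refine ⟨Equiv.piSplitAt t (fun t' : T => cd.AT t'), ?_, ?_⟩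
    · intro a b; simp [Equiv.piSplitAt]
    · intro a b t' h; simp [Equiv.piSplitAt, h]
  rw [Nat.card_congr e, Nat.card_prod]
  have hcongr : Nat.card {x : cd.MPts T // (Nat.card (cd.XB (cd.vec r0 Ds x) dir i) : ℝ) <
      (q : ℝ) ^ (9 * (t : ℕ) / 10)} =
      Nat.card {z : cd.AT t × ((t' : {t' : T // t' ≠ t}) → cd.AT t'.1) //
        (Nat.card (cd.XB (cd.vec r0 Ds (e.symm z)) dir i) : ℝ) < (q : ℝ) ^ (9 * (t : ℕ) / 10)} :=
    Nat.card_congr (Equiv.subtypeEquiv e fun x => by rw [Equiv.symm_apply_apply])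
  rw [hcongr]
  have hmain : ∀ b : (t' : {t' : T // t' ≠ t}) → cd.AT t'.1,
      (Nat.card {a : cd.AT t // (Nat.card (cd.XB (cd.vec r0 Ds (e.symm (a, b))) dir i) : ℝ) <
        (q : ℝ) ^ (9 * (t : ℕ) / 10)} : ℝ) ≤ ε' * Nat.card (cd.AT t) := by
    intro b
    rcases isEmpty_or_nonempty (cd.AT t) with hAe | ⟨⟨a0⟩⟩
    · have : IsEmpty {a : cd.AT t // (Nat.card (cd.XB (cd.vec r0 Ds (e.symm (a, b))) dir i) : ℝ) <
        (q : ℝ) ^ (9 * (t : ℕ) / 10)} := ⟨fun a => hAe.elim a.1⟩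
      rw [Nat.card_eq_zero.2 (Or.inl this), Nat.card_eq_zero.2 (Or.inl hAe)]
      simp
    set p0 := cd.vec r0 Ds (e.symm (a0, b)) with hp0
    have hvec : ∀ a : cd.AT t, ∀ j, j ≠ Sum.inr t → cd.vec r0 Ds (e.symm (a, b)) j = p0 j := by
      intro a j hj
      rcases j with P | t'
      · rfl
      · have hne : t' ≠ t := fun h => hj (by rw [h])
        simp only [hp0, vec]
        rw [es2 a b t' hne, es2 a0 b t' hne]
    have hvt : ∀ a : cd.AT t, cd.vec r0 Ds (e.symm (a, b)) (dir i) = (a.1.1, a.2) := by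
      intro a
      rw [hit]
      simp only [vec]
      rw [es1 a b]
    let f : cd.AT t → cd.Kf × (JG Ds T → ZMod l × (V1 → V1)) := fun a => cd.clsOf p0 (a.1.1, a.2)
    have hfin : ∀ a : cd.AT t, Finite (cd.XB (cd.vec r0 Ds (e.symm (a, b))) dir i) := by
      intro a
      refine Finite.of_injective (β := cd.AT t) (fun x => (⟨x.1.1, ?_⟩, x.1.2)) ?_
      · rw [x.2.1, hvt]; exact a.1.2
      · intro x y hxy
        apply Subtype.ext
        have h1 := congrArg (fun z => z.1.1) hxy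
        have h2 := congrArg (fun z => z.2) hxy
        exact Prod.ext h1 h2
    have hle : ∀ a : cd.AT t, Nat.card {a' : cd.AT t // f a' = f a} ≤
        Nat.card (cd.XB (cd.vec r0 Ds (e.symm (a, b))) dir i) := by
      intro a
      have := hfin a
      refine Nat.card_le_card_of_injective (fun a' => ⟨(a'.1.1.1, a'.1.2), ?_, ?_, ?_⟩) ?_
      · rw [hvt]; exact a'.1.1.2.trans a.1.2.symm
      · rw [hvt]; exact congrArg Prod.fst a'.2
      · intro j hj
        have hjt : j ≠ Sum.inr t := fun h => hj i (hit.trans h.symm)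
        rw [hvt, hvec a j hjt]
        have h2 := congrFun (congrArg Prod.snd a'.2) j
        refine ⟨congrArg Prod.fst h2, fun w hw => ?_⟩
        have h3 := congrFun (congrArg Prod.snd h2) w
        simp only [f, clsOf, if_pos hw] at h3
        exact h3
      · intro x y hxy
        have h1 := congrArg (fun z => z.1.1) hxy
        have h2 := congrArg (fun z => z.1.2) hxy
        apply Subtype.ext
        exact Prod.ext (Subtype.ext h1) h2
    have h1 : Nat.card {a : cd.AT t // (Nat.card (cd.XB (cd.vec r0 Ds (e.symm (a, b))) dir i) : ℝ) <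
        (q : ℝ) ^ (9 * (t : ℕ) / 10)} ≤
        Nat.card {a : cd.AT t // (Nat.card {a' : cd.AT t // f a' = f a} : ℝ) <
          (q : ℝ) ^ (9 * (t : ℕ) / 10)} := by
      refine Nat.card_le_card_of_injective
        (fun a => ⟨a.1, lt_of_le_of_lt (by exact_mod_cast hle a.1) a.2⟩) ?_
      intro x y hxy
      simp only [Subtype.mk.injEq] at hxy
      exact Subtype.ext hxy
    have h2 := card_small_fib f ((q : ℝ) ^ (9 * (t : ℕ) / 10)) (by positivity)
    rw [card_cls] at h2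
    have h3 : (Nat.card (cd.AT t) : ℝ) = Nat.card (X.Of t) * Nat.card {g : G // g ∈ cd.R} := by
      rw [Nat.card_prod, Nat.cast_mul]
    have hR : (1 : ℝ) ≤ Nat.card {g : G // g ∈ cd.R} := by
      have : Nonempty {g : G // g ∈ cd.R} := ⟨r0⟩
      exact_mod_cast (Nat.card_pos : 0 < Nat.card {g : G // g ∈ cd.R})
    have h4 : ((l * Nat.card V1 ^ Nat.card V1 : ℕ) : ℝ) ^ Nat.card (JG Ds T) ≤
        Real.exp (2 * l * Real.log B * Real.log n) := by
      rw [← hB]
      have hJ : (Nat.card (JG Ds T) : ℝ) ≤ 2 * l * Real.log n := by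
        refine le_trans (le_of_eq ?_) hcard
        rw [Nat.card_sum]; simp
      calc B ^ Nat.card (JG Ds T) = Real.exp (Real.log B * Nat.card (JG Ds T)) := by
            rw [mul_comm, Real.exp_nat_mul, Real.exp_log (by linarith)]
        _ ≤ Real.exp (2 * l * Real.log B * Real.log n) := by
            apply Real.exp_le_exp.2
            nlinarith
    have h5 : (q : ℝ) ^ (9 * (t : ℕ) / 10) * Real.exp (Real.log q / 10 * t) ≤ (q : ℝ) ^ (t : ℕ) := by
      have e0 : ∀ k : ℕ, (q : ℝ) ^ k = Real.exp (Real.log q * (k : ℝ)) := by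
        intro k
        rw [mul_comm, Real.exp_nat_mul, Real.exp_log hq0]
      have e1 := e0 (9 * (t : ℕ) / 10)
      have e2 := e0 (t : ℕ)
      rw [e1, e2, ← Real.exp_add]
      apply Real.exp_le_exp.2
      have e3 : ((9 * (t : ℕ) / 10 : ℕ) : ℝ) ≤ 9 * ((t : ℕ) : ℝ) / 10 := by
        have := @Nat.cast_div_le ℝ _ _ _ (9 * (t : ℕ)) 10
        push_cast at this ⊢
        exact this
      have := mul_le_mul_of_nonneg_left e3 hlq.le
      linarith
    -- conclusion
    refine le_trans (by exact_mod_cast h1) (le_trans h2 ?_)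
    push_cast
    push_cast at h4
    have ht0' : (0 : ℝ) < ((t : ℕ) : ℝ) := by exact_mod_cast htp
    have hqt : (0 : ℝ) < (q : ℝ) ^ (9 * (t : ℕ) / 10) := by positivity
    have h6 : 2 * ((t : ℕ) : ℝ) * ((Nat.card cd.Kf : ℝ) *
        (l * (Nat.card V1 : ℝ) ^ Nat.card V1) ^ Nat.card (JG Ds T) *
        (q : ℝ) ^ (9 * (t : ℕ) / 10)) ≤ 2 * ((t : ℕ) : ℝ) * (ε' * Nat.card (X.Of t)) := by
      calc 2 * ((t : ℕ) : ℝ) * ((Nat.card cd.Kf : ℝ) *
            (l * (Nat.card V1 : ℝ) ^ Nat.card V1) ^ Nat.card (JG Ds T) *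
            (q : ℝ) ^ (9 * (t : ℕ) / 10))
          ≤ 2 * ((t : ℕ) : ℝ) * ((Nat.card cd.Kf : ℝ) *
            Real.exp (2 * l * Real.log B * Real.log n) * (q : ℝ) ^ (9 * (t : ℕ) / 10)) := by
            gcongr
        _ = 2 * (Nat.card cd.Kf : ℝ) * (((t : ℕ) : ℝ) * Real.exp (2 * l * Real.log B * Real.log n)) *
            (q : ℝ) ^ (9 * (t : ℕ) / 10) := by ring
        _ ≤ ε' * Real.exp (Real.log q / 10 * ((t : ℕ) : ℝ)) * (q : ℝ) ^ (9 * (t : ℕ) / 10) := by
            gcongr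
        _ = ε' * ((q : ℝ) ^ (9 * (t : ℕ) / 10) * Real.exp (Real.log q / 10 * t)) := by ring
        _ ≤ ε' * (q : ℝ) ^ (t : ℕ) := by gcongr
        _ ≤ ε' * (2 * t * Nat.card (X.Of t)) := by gcongr
        _ = 2 * ((t : ℕ) : ℝ) * (ε' * Nat.card (X.Of t)) := by ring
    have h7 := le_of_mul_le_mul_left h6 (by positivity)
    refine h7.trans ?_
    rw [h3]
    have : (0 : ℝ) ≤ ε' * Nat.card (X.Of t) := by positivity
    nlinarith
  have hfinal := card_prod_le (fun z : cd.AT t × ((t' : {t' : T // t' ≠ t}) → cd.AT t'.1) => (Nat.card (cd.XB (cd.vec r0 Ds (e.symm z)) dir i) : ℝ) <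
      (q : ℝ) ^ (9 * (t : ℕ) / 10)) (ε' * Nat.card (cd.AT t)) hmain
  refine hfinal.trans (le_of_eq ?_)
  push_cast
  ring

end CData

end Pool.Agent.SmL
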