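import Mathlib

/-!
# SMITH-L, block L: the two-step recursion for the averages and Markov's inequality
-/

set_option autoImplicit false

namespace Pool.Agent.SmL

/-- The recursion: a factor `l + 1` at every level, a factor `2` at every other level. -/
theorem rec2_bound {D : Type} (s : Finset D) (Sf I1 I2 : ℕ → D → ℝ) (l : ℕ) (hl : 3 ≤ l)
    (Y B : ℝ) (hs : (s.card : ℝ) ≤ Y) (hB : 0 ≤ B) (sym : ℕ → Prop)
    (hsym : ∀ j, sym j ∨ sym (j + 1)) (m : ℕ) (hm : 1 ≤ m)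
    (h0 : ∀ j x, 0 ≤ Sf j x)
    (hrec : ∀ j, 1 ≤ j → j < m → ∀ x ∈ s, Sf (j + 1) x ≤ (l + 1) * Sf j x + I1 j x)
    (hI1 : ∀ j, 1 ≤ j → j < m → ∑ x ∈ s, I1 j x ≤ Y)
    (hrec' : ∀ j, 1 ≤ j → j < m → sym j → ∀ x ∈ s, Sf (j + 1) x ≤ 2 * Sf j x + I2 j x)
    (hI2 : ∀ j, 1 ≤ j → j < m → sym j → ∑ x ∈ s, I2 j x ≤ 2 * Y)
    (h1 : ∀ x ∈ s, Sf 1 x ≤ B) :
    ∑ x ∈ s, Sf m x ≤ (l + 1) * (2 * (l + 1)) ^ ((m - 1) / 2) * ((B + 2) * Y) := by
  have hY : 0 ≤ Y := le_trans (Nat.cast_nonneg _) hs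
  have hl' : (3 : ℝ) ≤ l := by exact_mod_cast hl
  set A : ℕ → ℝ := fun j => ∑ x ∈ s, Sf j x + 2 * Y with hA
  have hA0 : ∀ j, 0 ≤ A j := fun j => by
    have : 0 ≤ ∑ x ∈ s, Sf j x := Finset.sum_nonneg fun x _ => h0 j x
    simp only [hA]
    linarith
  have step1 : ∀ j, 1 ≤ j → j < m → A (j + 1) ≤ (l + 1) * A j := by
    intro j hj hjm
    have h3 : ∑ x ∈ s, Sf (j + 1) x ≤ (l + 1) * ∑ x ∈ s, Sf j x + ∑ x ∈ s, I1 j x := by
      rw [Finset.mul_sum, ← Finset.sum_add_distrib]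
      exact Finset.sum_le_sum (hrec j hj hjm)
    have h4 := hI1 j hj hjm
    simp only [hA]
    nlinarith
  have step2 : ∀ j, 1 ≤ j → j < m → sym j → A (j + 1) ≤ 2 * A j := by
    intro j hj hjm hsj
    have h3 : ∑ x ∈ s, Sf (j + 1) x ≤ 2 * ∑ x ∈ s, Sf j x + ∑ x ∈ s, I2 j x := by
      rw [Finset.mul_sum, ← Finset.sum_add_distrib]
      exact Finset.sum_le_sum (hrec' j hj hjm hsj)
    have h4 := hI2 j hj hjm hsj
    simp only [hA]
    linarith
  have two : ∀ j, 1 ≤ j → j + 1 < m → A (j + 2) ≤ 2 * (l + 1) * A j := by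
    intro j hj hjm
    rcases hsym j with h | h
    · have e1 := step2 j hj (by omega) h
      have e2 := step1 (j + 1) (by omega) hjm
      calc A (j + 2) ≤ (l + 1) * A (j + 1) := e2
        _ ≤ (l + 1) * (2 * A j) := mul_le_mul_of_nonneg_left e1 (by positivity)
        _ = _ := by ring
    · have e1 := step1 j hj (by omega)
      have e2 := step2 (j + 1) (by omega) hjm h
      calc A (j + 2) ≤ 2 * A (j + 1) := e2
        _ ≤ 2 * ((l + 1) * A j) := mul_le_mul_of_nonneg_left e1 (by positivity)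
        _ = _ := by ring
  have hA1 : A 1 ≤ (B + 2) * Y := by
    have h3 : ∑ x ∈ s, Sf 1 x ≤ s.card * B := by
      refine le_trans (Finset.sum_le_sum h1) ?_
      rw [Finset.sum_const, nsmul_eq_mul]
    simp only [hA]
    nlinarith
  have key : ∀ k, 1 + 2 * k ≤ m → A (1 + 2 * k) ≤ (2 * (l + 1)) ^ k * ((B + 2) * Y) := by
    intro k
    induction k with
    | zero =>
      intro _
      simpa using hA1
    | succ k ih =>
      intro hk
      have e1 := ih (by omega)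
      have e2 := two (1 + 2 * k) (by omega) (by omega)
      have e3 : 1 + 2 * (k + 1) = 1 + 2 * k + 2 := by ring
      rw [e3]
      calc A (1 + 2 * k + 2) ≤ 2 * (l + 1) * A (1 + 2 * k) := e2
        _ ≤ 2 * (l + 1) * ((2 * (l + 1)) ^ k * ((B + 2) * Y)) :=
          mul_le_mul_of_nonneg_left e1 (by positivity)
        _ = _ := by rw [pow_succ]; ring
  have hK0 : 0 ≤ (2 * ((l : ℝ) + 1)) ^ ((m - 1) / 2) * ((B + 2) * Y) := by positivity
  have hfin : A m ≤ (l + 1) * ((2 * (l + 1)) ^ ((m - 1) / 2) * ((B + 2) * Y)) := by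
    have hk := key ((m - 1) / 2) (by omega)
    rcases (show m = 1 + 2 * ((m - 1) / 2) ∨ m = 1 + 2 * ((m - 1) / 2) + 1 by omega) with h | h
    · rw [← h] at hk
      refine hk.trans ?_
      nlinarith
    · have e1 := step1 (1 + 2 * ((m - 1) / 2)) (by omega) (by omega)
      rw [← h] at e1
      exact e1.trans (mul_le_mul_of_nonneg_left hk (by positivity))
  have h5 : ∑ x ∈ s, Sf m x ≤ A m := by
    simp only [hA]
    linarith
  refine h5.trans (hfin.trans (le_of_eq ?_))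
  ring

open Classical in
/-- Markov's inequality. -/
theorem markov2 {D : Type} (s : Finset D) (Nz : D → ℕ) (M K : ℝ) (l : ℕ) (hl : 1 ≤ l)
    (hM : 0 < M) (m : ℕ) (h : ∑ x ∈ s, (Nz x : ℝ) / M ^ m ≤ K) :
    ((s.filter fun x => ¬ (Nz x : ℝ) < (l * M) ^ m).card : ℝ) ≤ K / l ^ m := by
  have hl' : (0 : ℝ) < l := by exact_mod_cast hl
  have h2 : ((s.filter fun x => ¬ (Nz x : ℝ) < (l * M) ^ m).card : ℝ) * l ^ m ≤
      ∑ x ∈ s, (Nz x : ℝ) / M ^ m := by
    rw [← nsmul_eq_mul, ← Finset.sum_const]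
    refine le_trans (Finset.sum_le_sum (g := fun x => (Nz x : ℝ) / M ^ m) ?_)
      (Finset.sum_le_sum_of_subset_of_nonneg (Finset.filter_subset _ _) fun x _ _ => by positivity)
    intro x hx
    have h3 : (l * M) ^ m ≤ (Nz x : ℝ) := not_lt.1 (Finset.mem_filter.1 hx).2
    rw [le_div_iff₀ (by positivity), ← mul_pow]
    exact h3
  rw [le_div_iff₀ (by positivity)]
  exact h2.trans h

/-- The bound of the recursion is small compared with `l ^ m`. -/
theorem exists_level (l : ℕ) (hl : 3 ≤ l) (K ε : ℝ) (hK : 0 ≤ K) (hε : 0 < ε) :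
    ∃ m₁ : ℕ, ∀ m ≥ m₁, (l + 1) * (2 * (l + 1)) ^ ((m - 1) / 2) * K / (l : ℝ) ^ m ≤ ε := by
  have hl' : (3 : ℝ) ≤ l := by exact_mod_cast hl
  set θ : ℝ := 2 * (l + 1) / (l : ℝ) ^ 2 with hθ
  have hθ0 : 0 ≤ θ := by positivity
  have hθ1 : θ < 1 := by
    rw [hθ, div_lt_one (by positivity)]
    nlinarith
  obtain ⟨k₁, hk₁⟩ := exists_pow_lt_of_lt_one (y := θ)
    (show 0 < ε / ((l + 1) * (K + 1)) by positivity) hθ1
  refine ⟨2 * k₁ + 1, fun m hm => ?_⟩
  set k := (m - 1) / 2 with hk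
  have hkk : k₁ ≤ k := by omega
  have hmk : 2 * k ≤ m := by omega
  have h1 : θ ^ k ≤ ε / ((l + 1) * (K + 1)) :=
    (pow_le_pow_of_le_one hθ0 hθ1.le hkk).trans hk₁.le
  have h2 : (2 * ((l : ℝ) + 1)) ^ k / (l : ℝ) ^ m ≤ θ ^ k := by
    rw [hθ, div_pow, ← pow_mul]
    refine div_le_div_of_nonneg_left (by positivity) (by positivity) ?_
    exact pow_le_pow_right₀ (by linarith) hmk
  have h3 : ((l : ℝ) + 1) * (K + 1) * (ε / ((l + 1) * (K + 1))) = ε := by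
    field_simp
  calc ((l : ℝ) + 1) * (2 * (l + 1)) ^ k * K / (l : ℝ) ^ m
      = ((l : ℝ) + 1) * K * ((2 * (l + 1)) ^ k / (l : ℝ) ^ m) := by ring
    _ ≤ ((l : ℝ) + 1) * K * θ ^ k := mul_le_mul_of_nonneg_left h2 (by positivity)
    _ ≤ ((l : ℝ) + 1) * (K + 1) * θ ^ k := by
        refine mul_le_mul_of_nonneg_right ?_ (by positivity)
        nlinarith
    _ ≤ ((l : ℝ) + 1) * (K + 1) * (ε / ((l + 1) * (K + 1))) :=
        mul_le_mul_of_nonneg_left h1 (by positivity)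
    _ = ε := h3

end Pool.Agent.SmL
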