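import Pool.Agent.Lib.SmL.L.LevelSum
import Pool.Agent.Lib.SmL.L.Rec2

/-!
# SMITH-L, block L: the recursion and Markov's inequality on a grid
-/

set_option autoImplicit false

open Finset

namespace Pool.Agent.SmL.CData

variable {l : ℕ} {A G V V1 Pl : Type} [CommRing A] [Group G] [AddCommGroup V] [Module A V]
  [DistribMulAction G V] [AddCommGroup V1] [Module (ZMod l) V1]
  {S : Sys l A G V V1 Pl} {X : PSys} (cd : CData S X)

section one

variable {J : Type} [Fintype J]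

theorem FN_sub_SelpN (ex : J → ZMod l) (p : J → cd.Mk) : cd.FN ex p ⊆ cd.SelpN ex p := by
  rintro c ⟨h1, h2⟩
  exact ⟨h1, fun j => h2.2 _⟩

theorem TypN.typF [NeZero l] [Finite V1] {ex : J → ZMod l} {p : J → cd.Mk} {R N : ℕ} {ρ : ℝ}
    (h : cd.TypN ex p R ρ N) : cd.TypF ex p R ρ N := by
  refine ⟨le_trans (Nat.card_mono (Set.toFinite _) (cd.FN_sub_SelpN ex p)) h.small, ?_⟩
  intro r c hc hi w
  refine (h.generic r c (fun i => cd.FN_sub_SelpN ex p (hc i)) hi w).trans (le_of_eq ?_)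
  congr 1
  exact Nat.card_congr (Equiv.subtypeEquivRight fun j => by
    constructor
    · rintro ⟨h1, h2, h3⟩
      exact ⟨⟨h1, h2⟩, h3⟩
    · rintro ⟨⟨h1, h2⟩, h3⟩
      exact ⟨h1, h2, h3⟩)

/-- The term of the recursion at level `i`. -/
noncomputable def tmB (d : Bool) (ex : J → ZMod l) (p : J → cd.Mk) (i : ℕ) : ℂ :=
  (cd.nZN ex p (i - 1) : ℝ) • cd.sumB d ex p i

theorem tmB_re (d : Bool) (ex : J → ZMod l) (p : J → cd.Mk) (i : ℕ) :
    (cd.tmB d ex p i).re = cd.nZN ex p (i - 1) * (cd.sumB d ex p i).re := by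
  rw [tmB, Complex.smul_re, smul_eq_mul]

/-- The recursion at every level. -/
theorem recur_indN {ex : J → ZMod l} {p : J → cd.Mk} (h : cd.LFactsN ex p) {i : ℕ} (hi : 1 ≤ i)
    {M : ℝ} (hM : M = Nat.card V1) (hM0 : 0 < M) :
    (cd.nZN ex p (i + 1) : ℝ) / M ^ (i + 1) ≤ (l + 1) * ((cd.nZN ex p i : ℝ) / M ^ i) +
      (cd.tmB false ex p i).re / M ^ (i + 1) := by
  have h3 : (cd.nZN ex p (i + 1) : ℝ) ≤ (l + 1) * M * cd.nZN ex p i + (cd.tmB false ex p i).re := by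
    rw [tmB_re, sumB_false, hM]
    exact h.recur i hi
  have h4 : (0 : ℝ) < M ^ (i + 1) := by positivity
  calc (cd.nZN ex p (i + 1) : ℝ) / M ^ (i + 1)
      ≤ ((l + 1) * M * cd.nZN ex p i + (cd.tmB false ex p i).re) / M ^ (i + 1) :=
        div_le_div_of_nonneg_right h3 h4.le
    _ = _ := by
        rw [pow_succ]
        field_simp

/-- The recursion at the symmetric levels. -/
theorem recur_indN' {ex : J → ZMod l} {p : J → cd.Mk} (h : cd.LFactsN ex p) {i : ℕ} (hi : 1 ≤ i)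
    {M : ℝ} (hM : M = Nat.card V1) (hM0 : 0 < M) :
    (cd.nZN ex p (i + 1) : ℝ) / M ^ (i + 1) ≤ 2 * ((cd.nZN ex p i : ℝ) / M ^ i) +
      ((cd.tmB false ex p i).re + (cd.tmB true ex p i).re) / M ^ (i + 1) := by
  have h3 : (cd.nZN ex p (i + 1) : ℝ) ≤ 2 * M * cd.nZN ex p i +
      ((cd.tmB false ex p i).re + (cd.tmB true ex p i).re) := by
    rw [tmB_re, tmB_re, sumB_false, sumB_true, hM, ← mul_add]
    exact h.recur' i hi
  have h4 : (0 : ℝ) < M ^ (i + 1) := by positivity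
  calc (cd.nZN ex p (i + 1) : ℝ) / M ^ (i + 1)
      ≤ (2 * M * cd.nZN ex p i + ((cd.tmB false ex p i).re + (cd.tmB true ex p i).re)) /
          M ^ (i + 1) :=
        div_le_div_of_nonneg_right h3 h4.le
    _ = _ := by
        rw [pow_succ]
        field_simp

theorem nZN_one {ex : J → ZMod l} {p : J → cd.Mk} (h : cd.LFactsN ex p) :
    cd.nZN ex p 1 = Nat.card (cd.FN ex p) := by
  have h1 := h.card_succ 0
  rw [h.card_zero, one_mul] at h1
  exact h1

end one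

omit [Module A V] [AddCommGroup V] [CommRing A] [Group G] [DistribMulAction G V]
  [AddCommGroup V1] [Module (ZMod l) V1] in
open Classical in
theorem card_le_add {D : Type} [Fintype D] (P Q : D → Prop) (t : Finset D)
    (h : ∀ x, P x → Q x ∨ x ∈ t) :
    Nat.card {x : D // P x} ≤ Nat.card {x : D // Q x} + t.card := by
  rw [Nat.card_eq_fintype_card, Nat.card_eq_fintype_card, Fintype.card_subtype,
    Fintype.card_subtype]
  refine le_trans (Finset.card_le_card (t := (Finset.univ.filter fun x : D => Q x) ∪ t) ?_)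
    (Finset.card_union_le _ _)
  intro x hx
  rw [Finset.mem_union]
  rcases h x (Finset.mem_filter.1 hx).2 with h1 | h1
  · exact Or.inl (Finset.mem_filter.2 ⟨Finset.mem_univ _, h1⟩)
  · exact Or.inr h1

theorem symm_or (hS : S.Ok) (j : ℕ) : S.Symm j ∨ S.Symm (j + 1) := by
  unfold Sys.Symm
  rcases hS.se_eq with h | h <;> rcases Nat.even_or_odd j with hj | hj
  · exact Or.inl (by rw [h, hj.neg_one_pow, one_mul])
  · exact Or.inr (by rw [h, (hj.add_one).neg_one_pow, one_mul])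
  · exact Or.inr (by rw [h, (hj.add_one).neg_one_pow, neg_one_mul, neg_neg])
  · exact Or.inl (by rw [h, hj.neg_one_pow, neg_one_mul, neg_neg])

theorem three_le (hS : S.Ok) : 3 ≤ l := by
  have h1 := hS.prime.two_le
  have h2 := hS.odd
  omega

open Classical in
/-- Almost all points of every nice grid have small Selmer groups of level `m`. -/
theorem grid_mainN [Finite V1] [Nontrivial V1] {q : ℕ} (hX : X.Ok q) (hS : S.Ok) (hc : cd.Ok)
    (r0 : {g : G // g ∈ cd.R})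
    (hL : ∀ (J : Type) (_ : Fintype J) (_ : Nonempty J) (ex : J → ZMod l), (∀ j, ex j ≠ 0) →
      ∀ (p : J → cd.Mk), cd.PVecN p → cd.LFactsN ex p)
    (hfr : cd.FrameThm) (hG : ∀ m, 1 ≤ m → cd.GridThmN q m)
    (hGD : ∀ m, 1 ≤ m → S.Symm m → cd.GridThmD q m) (m0 : ℕ) (c0 : ℝ) (hc0 : 0 < c0)
    (hJ : cd.JThm m0 c0 r0) (ε : ℝ) (hε : 0 < ε) :
    ∃ δ : ℝ, 0 < δ ∧ ∃ m₁ : ℕ, ∀ m ≥ m₁, ∃ n₀ : ℕ, ∀ n ≥ n₀, ∀ (Ds : Finset X.Pr)
      (T : Finset ℕ), GrN X l m0 c0 δ n Ds T → ∀ ex : JG Ds T → ZMod l, (∀ j, ex j ≠ 0) →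
      (Nat.card {x : cd.MPts T // ¬ cd.nZN ex (cd.vec r0 Ds x) m < (l * Nat.card V1) ^ m} : ℝ) ≤
        ε * Nat.card (cd.MPts T) := by
  have hNZ : NeZero l := ⟨hS.prime.ne_zero⟩
  obtain ⟨R, ρ, δ, hρ, hδ, nJ, hJ1⟩ := hJ (ε / 2) (by positivity)
  refine ⟨δ, hδ, ?_⟩
  set B : ℝ := 2 ^ R with hB
  have hB0 : 0 < B := by positivity
  obtain ⟨m₁, hm₁⟩ := exists_level l (three_le hS) (B + 2) (ε / 2) (by positivity) (by positivity)
  refine ⟨max m₁ 1, fun m hm => ?_⟩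
  have hm1 : 1 ≤ m := le_trans (le_max_right _ _) hm
  have hmε := hm₁ m (le_trans (le_max_left _ _) hm)
  have hlev : ∀ (kd : Bool) (j : ℕ), ∃ n₀ : ℕ, 1 ≤ j → (kd = true → S.Symm j) → ∀ n ≥ n₀,
      ∀ (Ds : Finset X.Pr) (T : Finset ℕ),
      X.degS Ds + ∑ t ∈ T, t = n → ((Ds.card + T.card : ℕ) : ℝ) ≤ 2 * l * Real.log n →
      (∀ t ∈ T, N0 n ≤ t) → (∀ P ∈ Ds, X.deg P < N0 n) → c0 * Real.log n ≤ T.card →
      ∀ ex : JG Ds T → ZMod l, (∀ j, ex j ≠ 0) →
      ‖∑ᶠ x : {x : cd.MPts T // cd.TypF ex (cd.vec r0 Ds x) R ρ (N0 n)},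
        cd.tmB kd ex (cd.vec r0 Ds x.1) j‖ ≤ 1 * Nat.card (cd.MPts T) := by
    intro kd j
    by_cases hj : 1 ≤ j ∧ (kd = true → S.Symm j)
    · have hGj : cd.GridThmB kd q j := by
        cases kd with
        | false => exact cd.gridThmB_false (hG j hj.1)
        | true => exact cd.gridThmB_true (hGD j hj.1 (hj.2 rfl))
      obtain ⟨n₀, h⟩ := cd.level_sumB kd hX hS hc r0 j hj.1 hL hfr hGj c0 hc0 R ρ hρ 1 one_pos
      exact ⟨n₀, fun _ _ => h⟩
    · exact ⟨0, fun h1 h2 => absurd ⟨h1, h2⟩ hj⟩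
  choose nlev hnlev using hlev
  obtain ⟨n3, hn3⟩ : ∃ n3 : ℕ, ∀ n ≥ n3, 1 ≤ c0 * Real.log n := by
    have h1 : Filter.Tendsto (fun n : ℕ => c0 * Real.log n) Filter.atTop Filter.atTop :=
      (Real.tendsto_log_atTop.comp tendsto_natCast_atTop_atTop).const_mul_atTop hc0
    exact Filter.eventually_atTop.1 (h1.eventually_ge_atTop _)
  refine ⟨max (max nJ ((Finset.range m).sup fun j => max (nlev false j) (nlev true j))) n3,
    fun n hn Ds T hg ex hex => ?_⟩
  have hnJ : nJ ≤ n := le_trans (le_trans (le_max_left _ _) (le_max_left _ _)) hn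
  have hnlev' : ∀ (kd : Bool) (j : ℕ), j < m → nlev kd j ≤ n := fun kd j hj => by
    have h1 := le_trans (Finset.le_sup (f := fun j => max (nlev false j) (nlev true j))
      (Finset.mem_range.2 hj)) (le_trans (le_trans (le_max_right _ _) (le_max_left _ _)) hn)
    cases kd with
    | false => exact (le_max_left _ _).trans h1
    | true => exact (le_max_right _ _).trans h1
  have hn3' : 1 ≤ c0 * Real.log n := hn3 n (le_trans (le_max_right _ _) hn)
  have hTc : c0 * Real.log n ≤ T.card := hg.many.trans (by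
    exact_mod_cast Finset.card_le_card (Finset.filter_subset _ _))
  have hTpos : 0 < T.card := by
    have : (0 : ℝ) < T.card := by linarith
    exact_mod_cast this
  have hneJ : Nonempty (JG Ds T) := by
    obtain ⟨t, ht⟩ := Finset.card_pos.1 hTpos
    exact ⟨Sum.inr ⟨t, ht⟩⟩
  have hMf : Finite (cd.MPts T) := cd.finite_MPts hX.fin T
  have hMF : Fintype (cd.MPts T) := Fintype.ofFinite _
  have hLx : ∀ x : cd.MPts T, cd.LFactsN ex (cd.vec r0 Ds x) := fun x =>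
    hL _ inferInstance hneJ ex hex _ (cd.pvec_vec r0 hg.large hg.sml x)
  set Y : ℝ := ((Nat.card (cd.MPts T) : ℕ) : ℝ) with hY
  have hY0 : 0 ≤ Y := Nat.cast_nonneg _
  set M : ℝ := ((Nat.card V1 : ℕ) : ℝ) with hM
  have hM1 : 1 ≤ M := by
    have : 0 < Nat.card V1 := Nat.card_pos
    have h2 : (1 : ℕ) ≤ Nat.card V1 := this
    rw [hM]
    exact_mod_cast h2
  have hM0 : 0 < M := by linarith
  set s : Finset (cd.MPts T) := Finset.univ.filter fun x =>
    cd.TypF ex (cd.vec r0 Ds x) R ρ (N0 n) with hs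
  have hscard : (s.card : ℝ) ≤ Y := by
    rw [hY, Nat.card_eq_fintype_card]
    exact_mod_cast Finset.card_le_univ s
  have hatyp : (Nat.card {x : cd.MPts T // ¬ cd.TypF ex (cd.vec r0 Ds x) R ρ (N0 n)} : ℝ) ≤
      ε / 2 * Y := by
    refine le_trans ?_ (hJ1 n hnJ Ds T hg ex hex)
    have h1 : Nat.card {x : cd.MPts T // ¬ cd.TypF ex (cd.vec r0 Ds x) R ρ (N0 n)} ≤
        Nat.card {x : cd.MPts T // ¬ cd.TypN ex (cd.vec r0 Ds x) R ρ (N0 n)} :=
      Nat.card_le_card_of_injective (fun x => ⟨x.1, fun h => x.2 (TypN.typF cd h)⟩)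
        fun x y h => Subtype.ext (congrArg (fun z : {x : cd.MPts T //
          ¬ cd.TypN ex (cd.vec r0 Ds x) R ρ (N0 n)} => z.1) h)
    exact_mod_cast h1
  -- the level sums
  have hlsum : ∀ (kd : Bool) (j : ℕ), 1 ≤ j → j < m → (kd = true → S.Symm j) →
      ∑ x ∈ s, (cd.tmB kd ex (cd.vec r0 Ds x) j).re / M ^ (j + 1) ≤ Y := by
    intro kd j hj1 hj2 hsy
    rw [← Finset.sum_div]
    have h1 := hnlev kd j hj1 hsy n (hnlev' kd j hj2) Ds T hg.deg hg.few hg.large hg.sml hTc ex hex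
    rw [one_mul, ← hY] at h1
    have h2 : ∑ x ∈ s, cd.tmB kd ex (cd.vec r0 Ds x) j =
        ∑ᶠ x : {x : cd.MPts T // cd.TypF ex (cd.vec r0 Ds x) R ρ (N0 n)},
          cd.tmB kd ex (cd.vec r0 Ds x.1) j := by
      rw [finsum_eq_sum_of_fintype]
      have h4 : ∀ y : cd.MPts T, y ∈ s ↔ cd.TypF ex (cd.vec r0 Ds y) R ρ (N0 n) := fun y =>
        ⟨fun h => (Finset.mem_filter.1 h).2, fun h =>
          Finset.mem_filter.2 ⟨Finset.mem_univ _, h⟩⟩
      exact Finset.sum_subtype s h4 (fun x => cd.tmB kd ex (cd.vec r0 Ds x) j)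
    have h3 : ∑ x ∈ s, (cd.tmB kd ex (cd.vec r0 Ds x) j).re ≤ Y := by
      rw [← Complex.re_sum, h2]
      exact (Complex.re_le_norm _).trans h1
    have h5 : (1 : ℝ) ≤ M ^ (j + 1) := one_le_pow₀ hM1
    rw [div_le_iff₀ (by positivity)]
    exact h3.trans (le_mul_of_one_le_right hY0 h5)
  -- the recursion
  have hrec := rec2_bound s
    (fun j x => (cd.nZN ex (cd.vec r0 Ds x) j : ℝ) / M ^ j)
    (fun j x => (cd.tmB false ex (cd.vec r0 Ds x) j).re / M ^ (j + 1))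
    (fun j x => ((cd.tmB false ex (cd.vec r0 Ds x) j).re +
      (cd.tmB true ex (cd.vec r0 Ds x) j).re) / M ^ (j + 1))
    l (three_le hS) Y B hscard hB0.le S.Symm (symm_or hS) m hm1
    (fun j x => by positivity)
    (fun j hj1 hj2 x hx => cd.recur_indN (hLx x) hj1 hM hM0)
    (fun j hj1 hj2 => hlsum false j hj1 hj2 (fun h => absurd h (by simp)))
    (fun j hj1 hj2 hsy x hx => cd.recur_indN' (hLx x) hj1 hM hM0)
    (fun j hj1 hj2 hsy => by
      have h1 := hlsum false j hj1 hj2 (fun h => absurd h (by simp))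
      have h2 := hlsum true j hj1 hj2 (fun _ => hsy)
      have h3 : ∑ x ∈ s, ((cd.tmB false ex (cd.vec r0 Ds x) j).re +
          (cd.tmB true ex (cd.vec r0 Ds x) j).re) / M ^ (j + 1) =
          ∑ x ∈ s, (cd.tmB false ex (cd.vec r0 Ds x) j).re / M ^ (j + 1) +
          ∑ x ∈ s, (cd.tmB true ex (cd.vec r0 Ds x) j).re / M ^ (j + 1) := by
        rw [← Finset.sum_add_distrib]
        exact Finset.sum_congr rfl fun x _ => by rw [add_div]
      rw [h3]
      linarith)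
    (fun x hx => by
      rw [cd.nZN_one (hLx x), pow_one]
      have h1 : (Nat.card (cd.FN ex (cd.vec r0 Ds x)) : ℝ) ≤ B := by
        have := (Finset.mem_filter.1 hx).2.small
        rw [hB]
        exact_mod_cast this
      exact (div_le_self (Nat.cast_nonneg _) hM1).trans h1)
  have hmar := markov2 s (fun x => cd.nZN ex (cd.vec r0 Ds x) m) M _ l
    (le_trans (by norm_num) (three_le hS)) hM0 m hrec
  have hle : Nat.card {x : cd.MPts T //
        ¬ cd.nZN ex (cd.vec r0 Ds x) m < (l * Nat.card V1) ^ m} ≤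
      Nat.card {x : cd.MPts T // ¬ cd.TypF ex (cd.vec r0 Ds x) R ρ (N0 n)} +
        (s.filter fun x => ¬ (cd.nZN ex (cd.vec r0 Ds x) m : ℝ) < (l * M) ^ m).card := by
    refine card_le_add _ _ _ fun x hx' => ?_
    by_cases ht : cd.TypF ex (cd.vec r0 Ds x) R ρ (N0 n)
    · right
      refine Finset.mem_filter.2 ⟨Finset.mem_filter.2 ⟨Finset.mem_univ _, ht⟩, ?_⟩
      intro hlt
      apply hx'
      have : (cd.nZN ex (cd.vec r0 Ds x) m : ℝ) < (((l * Nat.card V1) ^ m : ℕ) : ℝ) := by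
        push_cast
        exact hlt
      exact_mod_cast this
    · exact Or.inl ht
  calc (Nat.card {x : cd.MPts T //
        ¬ cd.nZN ex (cd.vec r0 Ds x) m < (l * Nat.card V1) ^ m} : ℝ)
      ≤ (Nat.card {x : cd.MPts T // ¬ cd.TypF ex (cd.vec r0 Ds x) R ρ (N0 n)} : ℝ) +
        ((s.filter fun x => ¬ (cd.nZN ex (cd.vec r0 Ds x) m : ℝ) < (l * M) ^ m).card : ℝ) := by
          exact_mod_cast hle
    _ ≤ ε / 2 * Y + (l + 1) * (2 * (l + 1)) ^ ((m - 1) / 2) * ((B + 2) * Y) / l ^ m :=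
        add_le_add hatyp hmar
    _ ≤ ε / 2 * Y + ε / 2 * Y := by
        have h1 := mul_le_mul_of_nonneg_right hmε hY0
        have h2 : (l + 1) * (2 * (l + 1)) ^ ((m - 1) / 2) * ((B + 2) * Y) / (l : ℝ) ^ m =
            (l + 1) * (2 * (l + 1)) ^ ((m - 1) / 2) * (B + 2) / (l : ℝ) ^ m * Y := by ring
        rw [h2]
        linarith
    _ = ε * Y := by ring

end Pool.Agent.SmL.CData
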