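import Pool.Agent.Lib.SmL.L.Rec
import Pool.Agent.Lib.SmL.K.GridEquiv

/-!
# SMITH-L, block L: the conclusion of the counting half
-/

set_option autoImplicit false

open Finset

namespace Pool.Agent.SmL.CData

variable {l : ℕ} {A G V V1 Pl : Type} [CommRing A] [Group G] [AddCommGroup V] [Module A V]
  [DistribMulAction G V] [AddCommGroup V1] [Module (ZMod l) V1]
  {S : Sys l A G V V1 Pl} {X : PSys} (cd : CData S X)

/-- **Block L.** -/
theorem lThm [Finite V1] [Nontrivial V1] {q : ℕ} (hX : X.Ok q) (hS : S.Ok) (hc : cd.Ok)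
    (hL : ∀ (J : Type) (_ : Fintype J) (_ : Nonempty J) (ex : J → ZMod l), (∀ j, ex j ≠ 0) →
      ∀ (p : J → cd.Mk), cd.PVecN p → cd.LFactsN ex p)
    (hfr : cd.FrameThm) (hG : ∀ m, 1 ≤ m → cd.GridThmN q m)
    (hGD : ∀ m, 1 ≤ m → S.Symm m → cd.GridThmD q m) (m0 : ℕ) (hm0 : 1 ≤ m0)
    (hJ : ∀ c0 : ℝ, 0 < c0 → ∀ r0, cd.JThm m0 c0 r0) : cd.LThm := by
  classical
  intro ε hε
  have hl2 : 2 ≤ l := hS.prime.two_le
  set c0 : ℝ := 1 / (4 * m0) with hc0'
  have hm0' : (0 : ℝ) < m0 := by exact_mod_cast hm0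
  have hc0 : 0 < c0 := by positivity
  obtain ⟨g0, hg0, -⟩ := hc.rep 1
  set r0 : {g : G // g ∈ cd.R} := ⟨g0, hg0.1⟩ with hr0
  have : Nonempty {g : G // g ∈ cd.R} := ⟨r0⟩
  obtain ⟨δ, hδ, m₁, hm₁⟩ := cd.grid_mainN hX hS hc r0 hL hfr hG hGD m0 c0 hc0 (hJ c0 hc0 r0)
    (ε / 2) (by positivity)
  refine ⟨m₁, fun m hm => ?_⟩
  obtain ⟨n₀, hn₀⟩ := hm₁ m hm
  obtain ⟨nK, hnK⟩ := PSys.kthm hX hl2 m0 hm0 c0 le_rfl (ε / 2) δ (by positivity) hδ
  obtain ⟨n3, hn3⟩ : ∃ n3 : ℕ, ∀ n ≥ n3, 1 ≤ c0 * Real.log n := by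
    have h1 : Filter.Tendsto (fun n : ℕ => c0 * Real.log n) Filter.atTop Filter.atTop :=
      (Real.tendsto_log_atTop.comp tendsto_natCast_atTop_atTop).const_mul_atTop hc0
    exact Filter.eventually_atTop.1 (h1.eventually_ge_atTop _)
  refine ⟨max (max n₀ nK) n3, fun n hn => ?_⟩
  have hn1 : n₀ ≤ n := le_trans (le_trans (le_max_left _ _) (le_max_left _ _)) hn
  have hn2 : nK ≤ n := le_trans (le_trans (le_max_right _ _) (le_max_left _ _)) hn
  have hn3' : 1 ≤ c0 * Real.log n := hn3 n (le_trans (le_max_right _ _) hn)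
  set Bad : (X.Pr →₀ ZMod l) → Prop := fun c =>
    ¬ (Finite {Psi : G → V // S.IsSel (cd.chiD c) m Psi} ∧
        Nat.card {Psi : G → V // S.IsSel (cd.chiD c) m Psi} < (l * Nat.card V1) ^ m) with hBad
  have h1 : (Nat.card {c : X.TD l n // NiceN X l m0 c0 δ n c.1.support ∧ Bad c.1} : ℝ) ≤
      ε / 2 * X.nTD l n := by
    refine PSys.grid_count hX (le_trans one_le_two hl2) Bad (by positivity)
      fun Ds T hg ex hex => ?_
    refine PSys.marks_card (Rr := {g : G // g ∈ cd.R}) hX T (fun y => Bad (PSys.ptE Ds y ex)) ?_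
    have hTc : c0 * Real.log n ≤ T.card := hg.many.trans (by
      exact_mod_cast Finset.card_le_card (Finset.filter_subset _ _))
    have hTpos : 0 < T.card := by
      have : (0 : ℝ) < T.card := by linarith
      exact_mod_cast this
    have hneJ : Nonempty (JG Ds T) := by
      obtain ⟨t, ht⟩ := Finset.card_pos.1 hTpos
      exact ⟨Sum.inr ⟨t, ht⟩⟩
    refine le_trans (le_of_eq ?_) (hn₀ n hn1 Ds T hg ex hex)
    congr 1
    refine Nat.card_congr (Equiv.subtypeEquivRight fun x => ?_)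
    have h4 := cd.chiD_ptE r0 x ex
    have h5 : cd.LFactsN ex (cd.vec r0 Ds x) :=
      hL _ inferInstance hneJ ex hex _ (cd.pvec_vec r0 hg.large hg.sml x)
    have h6 := h5.fin m
    simp only [hBad]
    rw [h4]
    exact ⟨fun h h' => h ⟨h6, h'⟩, fun h h' => h h'.2⟩
  have hF := PSys.Ok.finite_TD hX (le_trans one_le_two hl2) n
  have h8 : Nat.card {c : X.TD l n // Bad c.1} ≤
      Nat.card {c : X.TD l n // ¬ NiceN X l m0 c0 δ n c.1.support} +
      Nat.card {c : X.TD l n // NiceN X l m0 c0 δ n c.1.support ∧ Bad c.1} := by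
    have e1 : {c : X.TD l n | Bad c.1} ⊆
        {c : X.TD l n | ¬ NiceN X l m0 c0 δ n c.1.support} ∪
        {c : X.TD l n | NiceN X l m0 c0 δ n c.1.support ∧ Bad c.1} := by
      intro c hc1
      by_cases hN : NiceN X l m0 c0 δ n c.1.support
      · exact Or.inr ⟨hN, hc1⟩
      · exact Or.inl hN
    have e2 := Set.ncard_le_ncard e1 (Set.toFinite _)
    exact le_trans e2 (Set.ncard_union_le _ _)
  have h9 := hnK n hn2
  calc (Nat.card {c : X.TD l n // Bad c.1} : ℝ)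
      ≤ (Nat.card {c : X.TD l n // ¬ NiceN X l m0 c0 δ n c.1.support} : ℝ) +
      Nat.card {c : X.TD l n // NiceN X l m0 c0 δ n c.1.support ∧ Bad c.1} := by
        exact_mod_cast h8
    _ ≤ ε / 2 * X.nTD l n + ε / 2 * X.nTD l n := add_le_add h9 h1
    _ = ε * X.nTD l n := by ring

end Pool.Agent.SmL.CData
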